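import Pool.Agent.Q85.CL.Defs4
import Pool.Agent.Q85.CC.Fin

/-!
Project CL: singular points at the blow-up time.
-/

set_option autoImplicit false

open MeasureTheory Set Metric Filter Topology
open scoped ContDiff
open H459R3.NS Pool.Agent.W268.NS Pool.Agent.Q67.VD

namespace Pool.Agent.Q85.CL

open Pool.Agent.Q85.CC

/-- `u` is unbounded near the time `T`. -/
def Blow (T : ℝ) (u : ℝ → V → V) : Prop :=
  ∀ B T₀ : ℝ, T₀ < T → ∃ t ∈ Ioo 0 T, T₀ < t ∧ ∃ x, B < ‖u t x‖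

/-- `u` is unbounded in every neighbourhood of the point `(T, a)`. -/
def Sing (T : ℝ) (u : ℝ → V → V) (a : V) : Prop :=
  ∀ B δ : ℝ, 0 < δ → ∃ t ∈ Ioo 0 T, T - δ < t ∧ ∃ x, ‖x - a‖ ≤ δ ∧ B < ‖u t x‖

theorem exists_sing {T : ℝ} {u : ℝ → V → V} {K : Set V} (hK : IsCompact K)
    (hfar : ∃ B T₁ : ℝ, T₁ < T ∧ ∀ t ∈ Ioo 0 T, T₁ < t → ∀ x, ‖u t x‖ ≤ B ∨
      ∃ x' ∈ K, u t x' = u t x) (hB : Blow T u) : ∃ a ∈ K, Sing T u a := by
  by_contra hcon
  unfold Sing at hcon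
  push Not at hcon
  have key : ∃ B δ : ℝ, 0 < δ ∧ ∀ t ∈ Ioo 0 T, T - δ < t → ∀ x ∈ K, ‖u t x‖ ≤ B := by
    refine hK.induction_on (p := fun S => ∃ B δ : ℝ, 0 < δ ∧ ∀ t ∈ Ioo 0 T, T - δ < t →
      ∀ x ∈ S, ‖u t x‖ ≤ B) ?_ ?_ ?_ ?_
    · exact ⟨0, 1, one_pos, fun t _ _ x hx => absurd hx (notMem_empty _)⟩
    · rintro S S' hSS ⟨B, δ, hδ, hB⟩
      exact ⟨B, δ, hδ, fun t ht htδ x hx => hB t ht htδ x (hSS hx)⟩
    · rintro S S' ⟨B, δ, hδ, hB⟩ ⟨B', δ', hδ', hB'⟩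
      refine ⟨max B B', min δ δ', lt_min hδ hδ', fun t ht htδ x hx => ?_⟩
      rcases hx with hx | hx
      · exact (hB t ht (by linarith [min_le_left δ δ']) x hx).trans (le_max_left _ _)
      · exact (hB' t ht (by linarith [min_le_right δ δ']) x hx).trans (le_max_right _ _)
    · intro a ha
      obtain ⟨B, δ, hδ, hB⟩ := hcon a ha
      refine ⟨closedBall a δ, mem_nhdsWithin_of_mem_nhds (closedBall_mem_nhds a hδ), B, δ, hδ,
        fun t ht htδ x hx => hB t ht htδ x ?_⟩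
      rwa [← dist_eq_norm]
  obtain ⟨B, δ, hδ, hb⟩ := key
  obtain ⟨B', T₁, hT₁, hf⟩ := hfar
  obtain ⟨t, ht, htT, x, hx⟩ := hB (max B B') (max T₁ (T - δ)) (max_lt hT₁ (by linarith))
  rcases hf t ht ((le_max_left _ _).trans_lt htT) x with h1 | ⟨x', hx', he⟩
  · exact absurd (h1.trans (le_max_right _ _)) (not_le.2 hx)
  · have h2 := hb t ht ((le_max_right _ _).trans_lt htT) x' hx'
    rw [he] at h2
    exact absurd (h2.trans (le_max_left _ _)) (not_le.2 hx)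

/-- Periodic solutions. -/
theorem sing_per {ν T : ℝ} {u : ℝ → V → V} {p : ℝ → V → ℝ} (h : IsSol ν T u p)
    (hB : Blow T u) : ∃ a, Sing T u a := by
  have hf : ∃ B T₁ : ℝ, T₁ < T ∧ ∀ t ∈ Ioo 0 T, T₁ < t → ∀ x, ‖u t x‖ ≤ B ∨
      ∃ x' ∈ cube, u t x' = u t x := by
    refine ⟨0, T - 1, by linarith, fun t ht _ x => Or.inr ?_⟩
    obtain ⟨m, hm⟩ := mem_cube_shift x
    exact ⟨_, hm, (h.per_u t ⟨ht.1.le, ht.2⟩).int m x⟩
  obtain ⟨a, -, ha⟩ := exists_sing (K := cube) isCompact_Icc hf hB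
  exact ⟨a, ha⟩

/-- The whole space. -/
theorem sing_whole (hF : StmFar) (hS : StmWSc) {ν T E : ℝ} {u : ℝ → V → V} {p : ℝ → V → ℝ}
    (hν : 0 < ν) (h : WSl ν T E u p) (hB : Blow T u) : ∃ a, Sing T u a := by
  have hT : 0 < T := by
    obtain ⟨t, ht, -⟩ := hB 0 (T - 1) (by linarith)
    exact ht.1.trans ht.2
  have hw := hS ν T E u p hν hT h
  obtain ⟨B, ρ, hb⟩ := hF _ _ _ _ (mul_pos hν hT) hw (ν * (T / 2)) (by positivity)
    (mul_lt_mul_of_pos_left (by linarith) hν)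
  have hf : ∃ B T₁ : ℝ, T₁ < T ∧ ∀ t ∈ Ioo 0 T, T₁ < t → ∀ x, ‖u t x‖ ≤ B ∨
      ∃ x' ∈ closedBall (0 : V) ρ, u t x' = u t x := by
    refine ⟨ν * B, T / 2, by linarith, fun t ht htT x => ?_⟩
    by_cases hx : ρ ≤ ‖x‖
    · left
      have h1 := hb (ν * t) ⟨mul_le_mul_of_nonneg_left htT.le hν.le,
        mul_lt_mul_of_pos_left ht.2 hν⟩ x hx
      have h2 : ν * t / ν = t := by field_simp
      simp only [h2] at h1
      rw [norm_smul, Real.norm_eq_abs, abs_of_pos (inv_pos.2 hν)] at h1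
      calc ‖u t x‖ = ν * (ν⁻¹ * ‖u t x‖) := by field_simp
        _ ≤ ν * B := mul_le_mul_of_nonneg_left h1 hν.le
    · right
      refine ⟨x, ?_, rfl⟩
      rw [mem_closedBall, dist_zero_right]
      exact (not_le.1 hx).le
  obtain ⟨a, -, ha⟩ := exists_sing (K := closedBall 0 ρ) (isCompact_closedBall _ _) hf hB
  exact ⟨a, ha⟩

/-- The two classes are contained in the local class. -/
theorem whole_D {ν T E : ℝ} {u : ℝ → V → V} {p : ℝ → V → ℝ} (h : WSl ν T E u p) (a : V) :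
    DSl ν T E (ball a (1 / 2)) u p where
  openO := isOpen_ball
  smooth_u := h.smooth_u.mono (prod_mono subset_rfl (subset_univ _))
  smooth_p := h.smooth_p.mono (prod_mono subset_rfl (subset_univ _))
  divfree := fun t ht x _ => h.divfree t ht x
  momentum := fun t ht x _ i => h.momentum t ht x i
  en_int := fun t ht => (h.en_int t ht).integrableOn
  en := fun t ht => (setIntegral_le_integral (h.en_int t ht) (Eventually.of_forall fun y =>
    Finset.sum_nonneg fun i _ => sq_nonneg _)).trans (h.en t ht)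
  dis := h.dis.mono_set (prod_mono subset_rfl (subset_univ _))
  prs := (h.prs (‖a‖ + 1 / 2)).mono_set (prod_mono subset_rfl (ball_subset_ball' (by
    rw [dist_zero_right]
    linarith)))

end Pool.Agent.Q85.CL
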