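import Pool.Agent.Q85.CL.Defs2

/-!
Project CL: third part of the statements (all the angles between nearby vorticities).
-/

set_option autoImplicit false

open MeasureTheory Set Metric
open scoped ContDiff
open H459R3.NS Pool.Agent.W268.NS Pool.Agent.Q67.VD

namespace Pool.Agent.Q85.CL

open Pool.Agent.Q85.CC

/-- CL-AN1. At positive times the vorticity of a local solution is analytic near every point of
`O`. -/
def StmGdL : Prop := ∀ (T E : ℝ) (O : Set V) (u : ℝ → V → V) (p : ℝ → V → ℝ), 0 < T →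
  LSl T E O u p → ∀ t ∈ Ioo 0 T, ∀ y ∈ O, ∃ c h : ℝ, 1 ≤ c ∧ 0 < h ∧ Gd c h (u t) y

/-- CL-AN2. Along a segment of such points the vorticity is an analytic function of one variable. -/
def StmSegAn : Prop := ∀ (v : V → V) (x y : V), SM v →
  (∀ s ∈ Icc (0 : ℝ) 1, ∃ c h : ℝ, 1 ≤ c ∧ 0 < h ∧ Gd c h v (x + s • (y - x))) →
    ∀ s ∈ Icc (0 : ℝ) 1, AnalyticAt ℝ (fun s : ℝ => vort v (x + s • (y - x))) s

/-- CL-AN3. Along an analytic curve of vectors all the intermediate angles (without orientation)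
between `b` and the vectors occur. -/
def StmAng : Prop := ∀ (g : ℝ → V) (c δ : ℝ), (∀ s ∈ Icc (0 : ℝ) 1, AnalyticAt ℝ g s) →
  g 0 ≠ 0 → g 1 ≠ 0 → 0 < δ → 0 ≤ c → c ≤ 1 → |g 0 ⬝ᵥ g 1| ≤ c * (len (g 0) * len (g 1)) →
    ∃ s ∈ Icc (0 : ℝ) 1, g s ≠ 0 ∧
      |(|g 0 ⬝ᵥ g s| - c * (len (g 0) * len (g s)))| < δ * (len (g 0) * len (g s))

/-- The local double cone condition for the balls with a large vorticity: no singularity at `a`. -/
def StmDblM : Prop := ∀ (T E : ℝ) (O : Set V) (u : ℝ → V → V) (p : ℝ → V → ℝ), 0 < T →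
  LSl T E O u p → ∀ (T₀ κ M R : ℝ) (a : V), 0 ≤ T₀ → T₀ < T → 0 < κ → 0 ≤ M → 0 < R →
    closedBall a R ⊆ O → (∀ t ∈ Ioo T₀ T, (∃ e, DCone κ R e a (u t)) ∨
      ∀ y ∈ closedBall a R, om (u t) y ≤ M) →
    ∃ B δ : ℝ, 0 < δ ∧ ∀ t ∈ Ioo (T - δ) T, 0 < t → ∀ x ∈ closedBall a δ, ‖u t x‖ ≤ B

end Pool.Agent.Q85.CL
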