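import Pool.Agent.Q85.CL.FluxL
import Pool.Agent.Q85.CC.En

/-!
Project CL: the local bound of the scaled dissipation.
-/

set_option autoImplicit false

open MeasureTheory Set Metric Filter Topology
open scoped ContDiff
open H459R3.NS Pool.Agent.W268.NS Pool.Agent.Q67.VD

namespace Pool.Agent.Q85.CL

open Pool.Agent.Q85.CC

lemma geo_two_thirds (m : ℕ) : ∑ j ∈ Finset.range m, (2 / 3 : ℝ) ^ j ≤ 3 := by
  have h := geom_sum_eq (show (2 / 3 : ℝ) ≠ 1 by norm_num) m
  rw [h]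
  have : (0 : ℝ) ≤ (2 / 3) ^ m := by positivity
  have e : ((2 / 3 : ℝ) ^ m - 1) / (2 / 3 - 1) = 3 - 3 * (2 / 3) ^ m := by ring
  rw [e]
  linarith

/-- The recursion. -/
lemma rec_small {e : ℕ → ℝ} {A b : ℝ} (hA : 0 ≤ A) (hb : 0 ≤ b)
    (h0 : ∀ m < 6, e m ≤ A * (3 / 4) ^ m + 2 * b)
    (h : ∀ n, 6 ≤ n → e n ≤ 1 / 8 * ∑ j ∈ Finset.range (n - 2), (1 / 2 : ℝ) ^ j * e (n - 3 - j)
      + b + A / 9 * (3 / 4) ^ n) : ∀ n, e n ≤ A * (3 / 4) ^ n + 2 * b := by
  intro n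
  induction n using Nat.strong_induction_on with
  | _ n ih =>
    by_cases hn : n < 6
    · exact h0 n hn
    · have h1 := h n (by omega)
      have h2 : ∑ j ∈ Finset.range (n - 2), (1 / 2 : ℝ) ^ j * e (n - 3 - j)
          ≤ ∑ j ∈ Finset.range (n - 2), (A * (3 / 4) ^ (n - 3) * (2 / 3 : ℝ) ^ j
            + 2 * b * (1 / 2 : ℝ) ^ j) := by
        refine Finset.sum_le_sum fun j hj => ?_
        rw [Finset.mem_range] at hj
        have h3 := mul_le_mul_of_nonneg_left (ih (n - 3 - j) (by omega))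
          (show (0 : ℝ) ≤ (1 / 2) ^ j by positivity)
        refine h3.trans (le_of_eq ?_)
        have e1 : (3 / 4 : ℝ) ^ (n - 3) = (3 / 4) ^ (n - 3 - j) * (3 / 4) ^ j := by
          rw [← pow_add]
          congr 1
          omega
        have e2 : (3 / 4 : ℝ) ^ j * (2 / 3) ^ j = (1 / 2) ^ j := by
          rw [← mul_pow]
          norm_num
        calc (1 / 2 : ℝ) ^ j * (A * (3 / 4) ^ (n - 3 - j) + 2 * b)
            = A * (3 / 4) ^ (n - 3 - j) * (1 / 2) ^ j + 2 * b * (1 / 2) ^ j := by ring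
          _ = A * ((3 / 4) ^ (n - 3 - j) * (3 / 4) ^ j) * (2 / 3) ^ j
              + 2 * b * (1 / 2) ^ j := by rw [← e2]; ring
          _ = _ := by rw [← e1]
      rw [Finset.sum_add_distrib, ← Finset.mul_sum, ← Finset.mul_sum] at h2
      have h4 : A * (3 / 4) ^ (n - 3) * ∑ j ∈ Finset.range (n - 2), (2 / 3 : ℝ) ^ j
          ≤ A * (3 / 4) ^ (n - 3) * 3 :=
        mul_le_mul_of_nonneg_left (geo_two_thirds _) (by positivity)
      have h5 : 2 * b * ∑ j ∈ Finset.range (n - 2), (1 / 2 : ℝ) ^ j ≤ 2 * b * 2 :=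
        mul_le_mul_of_nonneg_left (geo_half _) (by positivity)
      have e3 : (3 / 4 : ℝ) ^ n = (3 / 4) ^ (n - 3) * (27 / 64) := by
        have : (3 / 4 : ℝ) ^ n = (3 / 4) ^ (n - 3) * (3 / 4) ^ 3 := by
          rw [← pow_add]
          congr 1
          omega
        rw [this]
        norm_num
      have h6 : 0 ≤ A * (3 / 4) ^ (n - 3) := by positivity
      rw [e3] at h1 ⊢
      linarith

lemma gsq_contL {v : V → V} (hv : SM v) : Continuous (W221.NS.gsq v) := by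
  unfold W221.NS.gsq
  exact continuous_finsetSum _ fun i _ => continuous_finsetSum _ fun j _ =>
    (pd_contL (hv i) j).pow 2

lemma sm_slice {T : ℝ} {O : Set V} {u : ℝ → V → V} {p : ℝ → V → ℝ} (h : LEq T O u p) {t : ℝ}
    (ht : t ∈ Ioo 0 T) : SM (u t) := by
  intro i
  have h1 : ContDiffOn ℝ ∞ (fun y : V => u t y i) univ := by
    have h2 : ContDiffOn ℝ ∞ (fun z : ℝ × V => u z.1 z.2 i) (Ioo 0 T ×ˢ univ) :=
      (contDiff_apply ℝ ℝ i).comp_contDiffOn h.smooth_u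
    exact h2.comp (f := fun y : V => (t, y)) (by fun_prop) fun y _ => ⟨ht, mem_univ _⟩
  exact contDiffOn_univ.1 h1

lemma sp_slice {T : ℝ} {O : Set V} {u : ℝ → V → V} {p : ℝ → V → ℝ} (h : LEq T O u p) {t : ℝ}
    (ht : t ∈ Ioo 0 T) : ContDiff ℝ ∞ (p t) := by
  have h1 : ContDiffOn ℝ ∞ (fun y : V => p t y) univ :=
    h.smooth_p.comp (f := fun y : V => (t, y)) (by fun_prop) fun y _ => ⟨ht, mem_univ _⟩
  exact contDiffOn_univ.1 h1

lemma closed_ball_ae (x : V) (s : ℝ) : closedBall x s =ᵐ[volume] ball x s := by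
  refine (ball_subset_closedBall.eventuallyLE.antisymm ?_).symm
  rw [ae_le_set]
  have h : closedBall x s \ ball x s = sphere x s := by
    ext y
    simp only [Set.mem_sdiff, mem_closedBall, mem_ball, mem_sphere, not_lt]
    exact ⟨fun h => le_antisymm h.1 h.2, fun h => ⟨h.le, h.ge⟩⟩
  rw [h]
  exact Measure.addHaar_sphere _ _ _


lemma int_prod_le {T : ℝ} {O : Set V} (hO : MeasurableSet O) {g : ℝ → V → ℝ}
    (hg : IntegrableOn (fun z : ℝ × V => g z.1 z.2) (Ioo 0 T ×ˢ O)) (h0 : ∀ t y, 0 ≤ g t y)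
    {a t : ℝ} (ha : 0 ≤ a) (ht : t ≤ T) {S : Set V} (hS : MeasurableSet S) (hSO : S ⊆ O) :
    ∫ τ in Ioo a t, ∫ y in S, g τ y ≤ ∫ z in Ioo 0 T ×ˢ O, g z.1 z.2 := by
  have hsub : Ioo a t ×ˢ S ⊆ Ioo 0 T ×ˢ O := prod_mono (Ioo_subset_Ioo ha ht) hSO
  have h1 : ∫ z in Ioo a t ×ˢ S, g z.1 z.2 = ∫ τ in Ioo a t, ∫ y in S, g τ y := by
    rw [Measure.volume_eq_prod] at hg ⊢
    exact setIntegral_prod _ (hg.mono_set hsub)
  rw [← h1]
  exact setIntegral_mono_set hg (Eventually.of_forall fun z => h0 z.1 z.2) hsub.eventuallyLE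

theorem key (hF : StmFlxL) (hL : StmLEL) : ∀ K₁ : ℝ, 0 < K₁ → ∃ C₀ : ℝ, 0 ≤ C₀ ∧
    ∀ (T E : ℝ) (O : Set V) (u : ℝ → V → V) (p : ℝ → V → ℝ), 0 < T → LSl T E O u p →
    ∀ (T₀ K ρ₀ : ℝ) (a₀ : V), 0 ≤ T₀ → T₀ < T → 0 < K → K ≤ K₁ → 0 < ρ₀ →
      closedBall a₀ ρ₀ ⊆ O → (∀ t ∈ Ioo T₀ T, MorB K a₀ ρ₀ (om (u t))) →
      ∃ A ρ : ℝ, 0 ≤ A ∧ 0 < ρ ∧ ρ ^ 2 ≤ (T - T₀) / 2 ∧ ρ ≤ ρ₀ / 2 ∧
        ∀ t ∈ Ioo ((T₀ + T) / 2) T, ∀ x ∈ closedBall a₀ (ρ₀ / 2), ∀ n : ℕ,
          ∫ τ in Ioo (t - (ρ / 2 ^ n) ^ 2) t, W221.NS.B2 x (ρ / 2 ^ n) (u τ)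
            ≤ (A * (3 / 4) ^ n + 2 * (C₀ * K ^ 2)) * (ρ / 2 ^ n) := by
  intro K₁ hK₁
  obtain ⟨D, hD, hcut⟩ := cut2
  obtain ⟨C₀, hC₀, hF⟩ := hF (1 / 64) D K₁ (by norm_num) hD hK₁
  refine ⟨4 * C₀, by positivity, ?_⟩
  intro T E O u p hT hu T₀ K ρ₀ a₀ hT₀ hT₀T hK hKK hρ₀ hBO hMor
  obtain ⟨hLE, hBern⟩ := hL T O u p hu.toLEq
  have hOm : MeasurableSet O := hu.openO.measurableSet
  obtain ⟨ρ, hρdef⟩ : ∃ ρ, ρ = min (ρ₀ / 2) (min 1 (√((T - T₀) / 2))) := ⟨_, rfl⟩
  have hq : 0 < (T - T₀) / 2 := by linarith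
  have hρ : 0 < ρ := by
    rw [hρdef]
    exact lt_min (by positivity) (lt_min one_pos (Real.sqrt_pos.2 hq))
  have hρρ₀ : ρ ≤ ρ₀ / 2 := by rw [hρdef]; exact min_le_left _ _
  have hρ1 : ρ ≤ 1 := by rw [hρdef]; exact (min_le_right _ _).trans (min_le_left _ _)
  have hρT : ρ ^ 2 ≤ (T - T₀) / 2 := by
    have h1 : ρ ≤ √((T - T₀) / 2) := by
      rw [hρdef]; exact (min_le_right _ _).trans (min_le_right _ _)
    calc ρ ^ 2 ≤ √((T - T₀) / 2) ^ 2 := pow_le_pow_left₀ hρ.le h1 2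
      _ = _ := Real.sq_sqrt hq.le
  have hEn : 0 ≤ E := by
    have h1 : (T₀ + T) / 2 ∈ Ioo 0 T := ⟨by linarith, by linarith⟩
    exact (integral_nonneg fun y => nsq_nn _ _).trans (hu.en _ h1)
  obtain ⟨C, hC, hflx⟩ := hF K (√(E / ρ ^ 3)) ρ hK hKK (Real.sqrt_nonneg _) hρ hρ1
  -- the total dissipation and pressure
  obtain ⟨D₀, hD₀⟩ : ∃ D₀, D₀ = ∫ z in Ioo 0 T ×ˢ O, W221.NS.gsq (u z.1) z.2 := ⟨_, rfl⟩
  have hD₀n : 0 ≤ D₀ := by rw [hD₀]; exact integral_nonneg fun z => gsq_nn _ _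
  obtain ⟨P₀, hP₀⟩ : ∃ P₀, P₀ = ∫ z in Ioo 0 T ×ˢ O, |p z.1 z.2| := ⟨_, rfl⟩
  have hP₀n : 0 ≤ P₀ := by rw [hP₀]; exact integral_nonneg fun z => abs_nonneg _
  obtain ⟨C', hC'⟩ : ∃ C', C' = 4 * C + 2 * C * E + C * P₀ := ⟨_, rfl⟩
  have hC'n : 0 ≤ C' := by rw [hC']; positivity
  obtain ⟨A, hA⟩ : ∃ A, A = 320 * D₀ / ρ + 9 * C' := ⟨_, rfl⟩
  have hAn : 0 ≤ A := by rw [hA]; positivity
  refine ⟨A, ρ, hAn, hρ, hρT, hρρ₀, ?_⟩
  have hct := (W335.MD.t_CT Pool.Agent.W333.MD.t_PCONT) 0 T u hu.smooth_u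
  have hB2c : ∀ x s, ContinuousOn (fun τ => W221.NS.B2 x s (u τ)) (Ioo 0 T) := fun x s =>
    (hct.1 x s).2
  intro t ht x hx
  have hxO : closedBall x ρ ⊆ O := by
    refine (closedBall_subset_closedBall' ?_).trans hBO
    have := mem_closedBall.1 hx
    linarith
  -- the pressure
  obtain ⟨Pf, hPf⟩ : ∃ Pf : ℝ → ℝ, Pf = fun τ => ∫ y in ball x ρ, |p τ y| := ⟨_, rfl⟩
  have hPc : ContinuousOn Pf (Ioo 0 T) := by
    rw [hPf]
    exact Pool.Agent.W333.MD.t_PCONT 0 T (fun τ y => |p τ y|) x ρ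
      (hu.smooth_p.continuousOn.abs)
  have hPn : ∀ τ, 0 ≤ Pf τ := fun τ => by
    rw [hPf]; exact integral_nonneg fun y => abs_nonneg _
  obtain ⟨I, hI⟩ : ∃ I : ℝ → ℝ, I = fun s => ∫ τ in Ioo (t - s ^ 2) t, W221.NS.B2 x s (u τ) :=
    ⟨_, rfl⟩
  have hrn : ∀ n : ℕ, 0 < ρ / 2 ^ n := fun n => by positivity
  have hrle : ∀ n : ℕ, ρ / 2 ^ n ≤ ρ := fun n => div_le_self hρ.le (one_le_pow₀ (by norm_num))
  have hIn : ∀ s, 0 ≤ I s := fun s => by
    rw [hI]
    exact integral_nonneg fun τ => B2_nn _ _ _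
  -- windows
  have hwin : ∀ s a, 0 < s → s ≤ ρ → t - s ^ 2 ≤ a → a ≤ t →
      ∫ τ in a..t, W221.NS.B2 x s (u τ) ≤ I s := by
    intro s a hs hsρ hsa hat
    have hs2 : s ^ 2 ≤ ρ ^ 2 := pow_le_pow_left₀ hs.le hsρ 2
    rw [intervalIntegral.integral_of_le hat, integral_Ioc_eq_integral_Ioo, hI]
    refine setIntegral_mono_set ?_ (Eventually.of_forall fun τ => B2_nn _ _ _)
      (Ioo_subset_Ioo_left hsa).eventuallyLE
    refine ((hB2c x s).mono (t := Icc (t - s ^ 2) t) ?_).integrableOn_Icc.mono_set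
      Ioo_subset_Icc_self
    intro τ hτ
    exact ⟨by linarith [hτ.1, ht.1], hτ.2.trans_lt ht.2⟩
  have hIlarge : ∀ n : ℕ, I (ρ / 2 ^ n) ≤ D₀ := by
    intro n
    have h1 : (ρ / 2 ^ n) ^ 2 ≤ ρ ^ 2 := pow_le_pow_left₀ (hrn n).le (hrle n) 2
    rw [hI, hD₀]
    exact int_prod_le (g := fun τ y => W221.NS.gsq (u τ) y) hOm hu.dis (fun τ y => gsq_nn _ _)
      (by linarith [ht.1]) ht.2.le
      measurableSet_ball ((ball_subset_closedBall.trans
        (closedBall_subset_closedBall (hrle n))).trans hxO)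
  -- one scale
  have hstep : ∀ n : ℕ, 6 ≤ n → I (ρ / 2 ^ n) ≤ 1 / 64 * ∑ j ∈ Finset.range (n - 2),
      (1 / 4 : ℝ) ^ j * I (2 ^ (j + 3) * (ρ / 2 ^ n)) + (4 * C₀ * K ^ 2) * (ρ / 2 ^ n)
        + C' * (ρ / 2 ^ n) ^ 2 := by
    intro n hn
    obtain ⟨r, hr⟩ : ∃ r, r = ρ / 2 ^ n := ⟨_, rfl⟩
    have hr0 : 0 < r := by rw [hr]; exact hrn n
    have hr64 : 64 * r ≤ ρ := by
      rw [hr]
      have h1 : (2 : ℝ) ^ 6 ≤ 2 ^ n := pow_le_pow_right₀ (by norm_num) hn
      rw [mul_div_assoc', div_le_iff₀ (by positivity)]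
      nlinarith
    have hr1 : r ≤ 1 := by linarith
    obtain ⟨a, ha⟩ : ∃ a, a = t - 4 * r ^ 2 := ⟨_, rfl⟩
    have har : 4 * r ^ 2 ≤ ρ ^ 2 := by nlinarith
    have haT : T₀ < a := by rw [ha]; linarith [ht.1]
    have hat : a ≤ t := by
      rw [ha]
      have := sq_nonneg r
      linarith
    have hsub : Icc a t ⊆ Ioo 0 T := fun τ hτ => ⟨by linarith [hτ.1], hτ.2.trans_lt ht.2⟩
    have hsub2 : Icc a t ⊆ Ioo T₀ T := fun τ hτ => ⟨by linarith [hτ.1], hτ.2.trans_lt ht.2⟩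
    obtain ⟨φ, hφs, hφc, hφ0, hφ1, hφe, hφz, hφp, hφl⟩ := hcut x r hr0
    have hts : tsupport φ ⊆ O := by
      refine (closure_minimal ?_ isClosed_closedBall).trans
        ((closedBall_subset_closedBall (show 2 * r ≤ ρ by linarith)).trans hxO)
      intro y hy
      rw [mem_closedBall, dist_eq_norm]
      exact hφz y hy
    obtain ⟨R, hR⟩ : ∃ R : ℝ → ℝ, R = fun τ => 1 / 64 * (∑ j ∈ Finset.range (n - 2),
        (1 / 4 : ℝ) ^ j * W221.NS.B2 x (2 ^ (j + 3) * r) (u τ))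
        + (C₀ * K ^ 2 / r + C * (1 + r ^ 2 * (Pf τ + E / 2))) := ⟨_, rfl⟩
    have hpt : ∀ τ ∈ Icc a t,
        |∫ y, W221.NS.nsq (u τ) y * lap φ y|
          + |2 * ∫ y, (p τ y + W221.NS.nsq (u τ) y / 2) * W221.NS.adv (u τ) φ y|
          + (∫ y in closedBall x (2 * r), W221.NS.nsq (u τ) y) / r ^ 2 ≤ R τ := by
      intro τ hτ
      have hτI := hsub hτ
      have hsm := sm_slice hu.toLEq hτI
      have hpsm := sp_slice hu.toLEq hτI
      have hnc : IntegrableOn (W221.NS.nsq (u τ)) (closedBall x ρ) :=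
        (nsq_contL hsm).continuousOn.integrableOn_compact (isCompact_closedBall _ _)
      have henb : ∫ z in closedBall x ρ, W221.NS.nsq (u τ) z ≤ E :=
        (setIntegral_mono_set (hu.en_int τ hτI) (Eventually.of_forall fun y => nsq_nn _ _)
          hxO.eventuallyLE).trans (hu.en τ hτI)
      have hen : √((∫ z in closedBall x ρ, W221.NS.nsq (u τ) z) / ρ ^ 3) ≤ √(E / ρ ^ 3) :=
        Real.sqrt_le_sqrt (div_le_div_of_nonneg_right henb (by positivity))
      have hM : MorB K x ρ (om (u τ)) := by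
        intro y s hs hys
        refine hMor τ (hsub2 hτ) y s hs ?_
        have h1 : ‖y - a₀‖ ≤ ‖y - x‖ + ‖x - a₀‖ := by
          have e1 : y - a₀ = (y - x) + (x - a₀) := by abel
          rw [e1]
          exact norm_add_le _ _
        have h2 : ‖x - a₀‖ ≤ ρ₀ / 2 := by
          rw [← dist_eq_norm]
          exact mem_closedBall.1 hx
        linarith
      have hqm : ContDiff ℝ ∞ (fun y => p τ y + W221.NS.nsq (u τ) y / 2) := by
        refine hpsm.add (ContDiff.div_const ?_ 2)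
        unfold W221.NS.nsq
        exact ContDiff.sum fun i _ => (hsm i).pow 2
      have hQ : ∫ y in closedBall x ρ, |p τ y + W221.NS.nsq (u τ) y / 2 - 0| ≤ Pf τ + E / 2 := by
        have i1 : IntegrableOn (fun y => |p τ y|) (closedBall x ρ) :=
          hpsm.continuous.abs.continuousOn.integrableOn_compact (isCompact_closedBall _ _)
        calc ∫ y in closedBall x ρ, |p τ y + W221.NS.nsq (u τ) y / 2 - 0|
            ≤ ∫ y in closedBall x ρ, (|p τ y| + W221.NS.nsq (u τ) y / 2) := by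
              refine integral_mono_of_nonneg (Eventually.of_forall fun y => abs_nonneg _)
                (i1.add (hnc.div_const 2)) (Eventually.of_forall fun y => ?_)
              show |p τ y + W221.NS.nsq (u τ) y / 2 - 0| ≤ |p τ y| + W221.NS.nsq (u τ) y / 2
              rw [sub_zero]
              refine (abs_add_le _ _).trans ?_
              rw [abs_of_nonneg (div_nonneg (nsq_nn (u τ) y) (by norm_num))]
          _ = (∫ y in closedBall x ρ, |p τ y|)
              + (∫ y in closedBall x ρ, W221.NS.nsq (u τ) y) / 2 := by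
              rw [integral_add i1 (hnc.div_const 2), integral_div]
          _ ≤ Pf τ + E / 2 := by
              rw [hPf, setIntegral_congr_set (closed_ball_ae x ρ)]
              linarith
      have h1 := hflx (u τ) (fun y => p τ y + W221.NS.nsq (u τ) y / 2) 0 (Pf τ + E / 2) x hsm hqm
        (fun y hy => hu.divfree τ hτI y (hxO (ball_subset_closedBall hy)))
        (fun y hy => hBern τ hτI y (hxO (ball_subset_closedBall hy))) hM hen hQ n hn φ hφs
        (by rw [← hr]; exact hφz) (by rw [← hr]; exact hφp) (by rw [← hr]; exact hφl)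
      rw [← hr] at h1
      rw [hR]
      linarith
    have hRc : ContinuousOn R (Icc a t) := by
      rw [hR]
      apply ContinuousOn.add
      · apply ContinuousOn.mul continuousOn_const
        exact continuousOn_finsetSum _ fun j _ =>
          continuousOn_const.mul ((hB2c x _).mono hsub)
      · apply ContinuousOn.add continuousOn_const
        apply ContinuousOn.mul continuousOn_const
        apply ContinuousOn.add continuousOn_const
        apply ContinuousOn.mul continuousOn_const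
        exact (hPc.mono hsub).add continuousOn_const
    have hts := time_step (a := a) (t := t) (r := r) hr0 ha
      (Y := fun τ => ∫ y, W221.NS.nsq (u τ) y * φ y)
      (D := fun τ => W221.NS.B2 x r (u τ)) (R := R)
      (fun τ hτ => hLE φ hφs hφc hts τ (hsub hτ)) ((hB2c x r).mono hsub) hRc
      (fun τ hτ => by
        have hτI := hsub hτ
        have hsm := sm_slice hu.toLEq hτI
        have h1 := hpt τ hτ
        have h2 : 0 ≤ (∫ y in closedBall x (2 * r), W221.NS.nsq (u τ) y) / r ^ 2 :=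
          div_nonneg (integral_nonneg fun y => nsq_nn _ _) (by positivity)
        have h3 : W221.NS.B2 x r (u τ) ≤ ∫ y, W221.NS.gsq (u τ) y * φ y := by
          unfold W221.NS.B2
          have hint : Integrable (fun y => W221.NS.gsq (u τ) y * φ y) :=
            (((gsq_contL hsm).mul hφs.continuous)).integrable_of_hasCompactSupport
              (hφc.mul_left)
          calc ∫ y in ball x r, W221.NS.gsq (u τ) y
              = ∫ y in ball x r, W221.NS.gsq (u τ) y * φ y := by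
                refine setIntegral_congr_fun measurableSet_ball fun y hy => ?_
                show W221.NS.gsq (u τ) y = W221.NS.gsq (u τ) y * φ y
                rw [hφe y (ball_subset_closedBall hy), mul_one]
            _ ≤ ∫ y, W221.NS.gsq (u τ) y * φ y :=
                setIntegral_le_integral hint
                  (Eventually.of_forall fun y => mul_nonneg (gsq_nn _ _) (hφ0 y))
        have h4 := le_abs_self (∫ y, W221.NS.nsq (u τ) y * lap φ y)
        have h5 := le_abs_self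
          (2 * ∫ y, (p τ y + W221.NS.nsq (u τ) y / 2) * W221.NS.adv (u τ) φ y)
        linarith)
      (fun τ hτ => integral_nonneg fun y => mul_nonneg (nsq_nn _ _) (hφ0 y))
      (fun τ hτ => by
        have hτI := hsub hτ
        have hsm := sm_slice hu.toLEq hτI
        have h1 := hpt τ hτ
        have h2 := abs_nonneg (∫ y, W221.NS.nsq (u τ) y * lap φ y)
        have h3 := abs_nonneg
          (2 * ∫ y, (p τ y + W221.NS.nsq (u τ) y / 2) * W221.NS.adv (u τ) φ y)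
        have h4 : (∫ y in closedBall x (2 * r), W221.NS.nsq (u τ) y) / r ^ 2 ≤ R τ := by
          linarith
        rw [div_le_iff₀ (by positivity)] at h4
        have h5 : ∫ y, W221.NS.nsq (u τ) y * φ y
            ≤ ∫ y in closedBall x (2 * r), W221.NS.nsq (u τ) y := by
          rw [← integral_indicator measurableSet_closedBall]
          refine integral_mono_of_nonneg
            (Eventually.of_forall fun y => mul_nonneg (nsq_nn _ _) (hφ0 y)) ?_
            (Eventually.of_forall fun y => ?_)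
          · rw [integrable_indicator_iff measurableSet_closedBall]
            exact (nsq_contL hsm).continuousOn.integrableOn_compact (isCompact_closedBall x _)
          · show W221.NS.nsq (u τ) y * φ y
              ≤ (closedBall x (2 * r)).indicator (W221.NS.nsq (u τ)) y
            by_cases hy : y ∈ closedBall x (2 * r)
            · rw [indicator_of_mem hy]
              have := mul_le_mul_of_nonneg_left (hφ1 y) (nsq_nn (u τ) y)
              linarith
            · rw [indicator_of_notMem hy]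
              have h0 : φ y = 0 := by
                by_contra hcon
                apply hy
                rw [mem_closedBall, dist_eq_norm]
                exact hφz y hcon
              rw [h0, mul_zero]
        linarith)
      (fun τ hτ => B2_nn _ _ _)
    have hI1 : I r ≤ ∫ τ in a..t, R τ := by
      rw [hI]
      exact hts
    have hsj : ∀ j ∈ Finset.range (n - 2), 2 ^ (j + 3) * r ≤ ρ ∧ 0 < 2 ^ (j + 3) * r := by
      intro j hj
      rw [Finset.mem_range] at hj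
      rw [hr, pow_id (by omega)]
      exact ⟨hrle _, hrn _⟩
    have i1 : ∀ j ∈ Finset.range (n - 2), IntervalIntegrable
        (fun τ => (1 / 4 : ℝ) ^ j * W221.NS.B2 x (2 ^ (j + 3) * r) (u τ)) volume a t :=
      fun j _ => (continuousOn_const.mul ((hB2c x _).mono hsub)).intervalIntegrable_of_Icc hat
    have i2 : IntervalIntegrable (fun τ => 1 / 64 * (∑ j ∈ Finset.range (n - 2),
        (1 / 4 : ℝ) ^ j * W221.NS.B2 x (2 ^ (j + 3) * r) (u τ))) volume a t := by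
      apply IntervalIntegrable.const_mul
      exact (continuousOn_finsetSum _ fun j _ =>
          continuousOn_const.mul ((hB2c x _).mono hsub)).intervalIntegrable_of_Icc hat
    have i4 : IntervalIntegrable Pf volume a t := (hPc.mono hsub).intervalIntegrable_of_Icc hat
    have i3 : IntervalIntegrable (fun τ => C₀ * K ^ 2 / r + C * (1 + r ^ 2 * (Pf τ + E / 2)))
        volume a t := by
      refine ContinuousOn.intervalIntegrable_of_Icc hat ?_
      apply ContinuousOn.add continuousOn_const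
      apply ContinuousOn.mul continuousOn_const
      apply ContinuousOn.add continuousOn_const
      apply ContinuousOn.mul continuousOn_const
      exact (hPc.mono hsub).add continuousOn_const
    have e1 : ∫ τ in a..t, R τ = 1 / 64 * (∑ j ∈ Finset.range (n - 2),
        (1 / 4 : ℝ) ^ j * ∫ τ in a..t, W221.NS.B2 x (2 ^ (j + 3) * r) (u τ))
        + ∫ τ in a..t, (C₀ * K ^ 2 / r + C * (1 + r ^ 2 * (Pf τ + E / 2))) := by
      rw [hR, intervalIntegral.integral_add i2 i3, intervalIntegral.integral_const_mul,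
        intervalIntegral.integral_finsetSum i1]
      congr 2
      refine Finset.sum_congr rfl fun j _ => ?_
      rw [intervalIntegral.integral_const_mul]
    have e2 : ∑ j ∈ Finset.range (n - 2),
        (1 / 4 : ℝ) ^ j * (∫ τ in a..t, W221.NS.B2 x (2 ^ (j + 3) * r) (u τ))
        ≤ ∑ j ∈ Finset.range (n - 2), (1 / 4 : ℝ) ^ j * I (2 ^ (j + 3) * r) := by
      refine Finset.sum_le_sum fun j hj => mul_le_mul_of_nonneg_left ?_ (by positivity)
      refine hwin _ a (hsj j hj).2 (hsj j hj).1 ?_ hat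
      rw [ha]
      have h1 : (2 : ℝ) ≤ 2 ^ (j + 3) := by
        have : (2 : ℝ) ^ 1 ≤ 2 ^ (j + 3) := pow_le_pow_right₀ (by norm_num) (by omega)
        linarith
      have h2 : 2 * r ≤ 2 ^ (j + 3) * r := mul_le_mul_of_nonneg_right h1 hr0.le
      nlinarith
    have e3 : ∫ τ in a..t, (C₀ * K ^ 2 / r + C * (1 + r ^ 2 * (Pf τ + E / 2)))
        ≤ (4 * C₀ * K ^ 2) * r + C' * r ^ 2 := by
      have g0 : ∀ τ, C₀ * K ^ 2 / r + C * (1 + r ^ 2 * (Pf τ + E / 2))
          = (C₀ * K ^ 2 / r + C * (1 + r ^ 2 * (E / 2))) + C * r ^ 2 * Pf τ := fun τ => by ring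
      simp_rw [g0]
      rw [intervalIntegral.integral_add intervalIntegrable_const (i4.const_mul _),
        intervalIntegral.integral_const, intervalIntegral.integral_const_mul, smul_eq_mul]
      have g1 : ∫ τ in a..t, Pf τ ≤ P₀ := by
        rw [intervalIntegral.integral_of_le hat, integral_Ioc_eq_integral_Ioo, hPf, hP₀]
        exact int_prod_le (g := fun τ y => |p τ y|) hOm hu.prs.abs (fun τ y => abs_nonneg _)
          (by linarith) ht.2.le
          measurableSet_ball (ball_subset_closedBall.trans hxO)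
      have g2 : C * r ^ 2 * (∫ τ in a..t, Pf τ) ≤ C * r ^ 2 * P₀ :=
        mul_le_mul_of_nonneg_left g1 (by positivity)
      have g5 : t - a = 4 * r ^ 2 := by rw [ha]; ring
      rw [g5]
      have g6 : 4 * r ^ 2 * (C₀ * K ^ 2 / r + C * (1 + r ^ 2 * (E / 2)))
          = (4 * C₀ * K ^ 2) * r + (4 * C) * r ^ 2 + (2 * C * E) * (r ^ 2 * r ^ 2) := by
        field_simp
        ring
      have g7 : r ^ 2 * r ^ 2 ≤ 1 * r ^ 2 := by
        refine mul_le_mul_of_nonneg_right ?_ (sq_nonneg r)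
        exact pow_le_one₀ hr0.le hr1
      have g8 : (2 * C * E) * (r ^ 2 * r ^ 2) ≤ (2 * C * E) * (1 * r ^ 2) :=
        mul_le_mul_of_nonneg_left g7 (by positivity)
      rw [g6, hC']
      linarith
    have e4 : 1 / 64 * (∑ j ∈ Finset.range (n - 2),
        (1 / 4 : ℝ) ^ j * ∫ τ in a..t, W221.NS.B2 x (2 ^ (j + 3) * r) (u τ))
        ≤ 1 / 64 * ∑ j ∈ Finset.range (n - 2), (1 / 4 : ℝ) ^ j * I (2 ^ (j + 3) * r) :=
      mul_le_mul_of_nonneg_left e2 (by norm_num)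
    rw [← hr]
    linarith
  -- the recursion
  have hrec := rec_small (e := fun n => I (ρ / 2 ^ n) / (ρ / 2 ^ n)) (A := A)
    (b := 4 * C₀ * K ^ 2) hAn (by positivity)
    (fun m hm => by
      show I (ρ / 2 ^ m) / (ρ / 2 ^ m) ≤ A * (3 / 4) ^ m + 2 * (4 * C₀ * K ^ 2)
      have h1 := hIlarge m
      have h2 : (3 / 4 : ℝ) ^ 6 ≤ (3 / 4) ^ m := pow_le_pow_of_le_one (by norm_num) (by norm_num)
        hm.le
      have h3 : (2 : ℝ) ^ m ≤ 2 ^ 5 := pow_le_pow_right₀ (by norm_num) (by omega)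
      have h4 : I (ρ / 2 ^ m) / (ρ / 2 ^ m) ≤ 32 * (D₀ / ρ) := by
        rw [div_le_iff₀ (hrn m)]
        have h5 : 32 * (D₀ / ρ) * (ρ / 2 ^ m) = D₀ * (32 / 2 ^ m) := by field_simp
        have h6 : (1 : ℝ) ≤ 32 / 2 ^ m := by
          rw [le_div_iff₀ (by positivity)]
          linarith
        rw [h5]
        exact h1.trans (le_mul_of_one_le_right hD₀n h6)
      have h7 : 0 ≤ D₀ / ρ := by positivity
      have h8 : 320 * (D₀ / ρ) * (3 / 4) ^ 6 ≤ A * (3 / 4) ^ m := by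
        have h9 : 320 * (D₀ / ρ) ≤ A := by
          rw [hA, mul_div_assoc]
          linarith
        exact mul_le_mul h9 h2 (by positivity) hAn
      have h10 : 0 ≤ 4 * C₀ * K ^ 2 := by positivity
      have h11 : 32 * (D₀ / ρ) ≤ 320 * (D₀ / ρ) * (3 / 4) ^ 6 := by
        have : (1 / 10 : ℝ) ≤ (3 / 4) ^ 6 := by norm_num
        nlinarith
      linarith)
    (fun n hn => by
      show I (ρ / 2 ^ n) / (ρ / 2 ^ n) ≤ 1 / 8 * ∑ j ∈ Finset.range (n - 2),
        (1 / 2 : ℝ) ^ j * (I (ρ / 2 ^ (n - 3 - j)) / (ρ / 2 ^ (n - 3 - j)))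
          + 4 * C₀ * K ^ 2 + A / 9 * (3 / 4) ^ n
      have h1 := hstep n hn
      have h2 : ∀ j ∈ Finset.range (n - 2), (1 / 4 : ℝ) ^ j * I (2 ^ (j + 3) * (ρ / 2 ^ n))
          = 8 * ((1 / 2 : ℝ) ^ j * (I (ρ / 2 ^ (n - 3 - j)) / (ρ / 2 ^ (n - 3 - j))))
            * (ρ / 2 ^ n) := by
        intro j hj
        rw [Finset.mem_range] at hj
        rw [← pow_id (n := n) (j := j) (by omega) ρ]
        have e5 : (1 / 4 : ℝ) ^ j = (1 / 2) ^ j * (1 / 2) ^ j := by
          rw [← mul_pow]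
          norm_num
        have e6 : (1 / 2 : ℝ) ^ j * 2 ^ (j + 3) = 8 := by
          rw [pow_add, ← mul_assoc, ← mul_pow]
          norm_num
        obtain ⟨r, hr⟩ : ∃ r, r = ρ / 2 ^ n := ⟨_, rfl⟩
        rw [← hr]
        have hr0 : r ≠ 0 := by rw [hr]; exact (hrn n).ne'
        have h20 : (2 : ℝ) ^ (j + 3) ≠ 0 := by positivity
        have e7 : 8 * ((1 / 2 : ℝ) ^ j * (I (2 ^ (j + 3) * r) / (2 ^ (j + 3) * r))) * r
            = (1 / 2 : ℝ) ^ j * I (2 ^ (j + 3) * r) * (8 / 2 ^ (j + 3)) := by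
          field_simp
        rw [e7, e5, ← e6]
        field_simp
      rw [Finset.sum_congr rfl h2, ← Finset.sum_mul, ← Finset.mul_sum] at h1
      rw [div_le_iff₀ (hrn n)]
      have h3 : C' * (ρ / 2 ^ n) ≤ A / 9 * (3 / 4) ^ n := by
        have h4 : C' ≤ A / 9 := by
          rw [hA]
          have : 0 ≤ 320 * D₀ / ρ := by positivity
          linarith
        have h5 : ρ / 2 ^ n ≤ (3 / 4) ^ n := by
          have h6 : ρ / 2 ^ n ≤ 1 / 2 ^ n := div_le_div_of_nonneg_right hρ1 (by positivity)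
          have h7 : (1 : ℝ) / 2 ^ n = (1 / 2) ^ n := by rw [one_div_pow]
          rw [h7] at h6
          exact h6.trans (pow_le_pow_left₀ (by norm_num) (by norm_num) n)
        exact mul_le_mul h4 h5 (hrn n).le (by positivity)
      have h4 := mul_le_mul_of_nonneg_right h3 (hrn n).le
      have h5 : C' * (ρ / 2 ^ n) ^ 2 = C' * (ρ / 2 ^ n) * (ρ / 2 ^ n) := by ring
      rw [h5] at h1
      linarith)
  intro n
  have h1 := hrec n
  have h2 : I (ρ / 2 ^ n) / (ρ / 2 ^ n) ≤ A * (3 / 4) ^ n + 2 * (4 * C₀ * K ^ 2) := h1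
  rw [div_le_iff₀ (hrn n)] at h2
  rw [hI] at h2
  exact h2

/-- From the dyadic radii to all radii. -/
lemma all_radii {T : ℝ} {O : Set V} {u : ℝ → V → V} {p : ℝ → V → ℝ} (hu : LEq T O u p)
    {ρ B t : ℝ} {x : V} {n₀ : ℕ} (hρ : 0 < ρ) (hB : 0 ≤ B) (ht0 : ρ ^ 2 < t) (htT : t < T)
    (h : ∀ n, n₀ ≤ n → ∫ τ in Ioo (t - (ρ / 2 ^ n) ^ 2) t, W221.NS.B2 x (ρ / 2 ^ n) (u τ)
      ≤ B * (ρ / 2 ^ n)) {r : ℝ} (hr : r ∈ Ioc 0 (ρ / 2 ^ n₀)) :
    ∫ τ in Ioo (t - r ^ 2) t, W221.NS.B2 x r (u τ) ≤ 2 * B * r := by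
  have hct := (W335.MD.t_CT Pool.Agent.W333.MD.t_PCONT) 0 T u hu.smooth_u
  have hB2c : ∀ x s, ContinuousOn (fun τ => W221.NS.B2 x s (u τ)) (Ioo 0 T) := fun x s =>
    (hct.1 x s).2
  have hρ0 : 0 < ρ / 2 ^ n₀ := by positivity
  obtain ⟨m, hn1, hn2⟩ := exists_nat_pow_near_of_lt_one (x := r / (ρ / 2 ^ n₀)) (y := 1 / 2)
    (div_pos hr.1 hρ0) ((div_le_one hρ0).2 hr.2) (by norm_num) (by norm_num)
  obtain ⟨n, hn⟩ : ∃ n, n = n₀ + m := ⟨_, rfl⟩
  have hpow : ρ / 2 ^ n = (ρ / 2 ^ n₀) * (1 / 2) ^ m := by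
    rw [hn, pow_add, one_div_pow]
    field_simp
  have h1 : r ≤ ρ / 2 ^ n := by
    rw [div_le_iff₀ hρ0] at hn2
    rw [hpow]
    linarith
  have h2 : ρ / 2 ^ n ≤ 2 * r := by
    rw [lt_div_iff₀ hρ0, pow_succ] at hn1
    rw [hpow]
    linarith
  have hrn : 0 < ρ / 2 ^ n := by positivity
  have hrle : ρ / 2 ^ n ≤ ρ := div_le_self hρ.le (one_le_pow₀ (by norm_num))
  have h3 : (ρ / 2 ^ n) ^ 2 ≤ ρ ^ 2 := pow_le_pow_left₀ hrn.le hrle 2
  have h4 : r ^ 2 ≤ (ρ / 2 ^ n) ^ 2 := pow_le_pow_left₀ hr.1.le h1 2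
  have hsub : Icc (t - (ρ / 2 ^ n) ^ 2) t ⊆ Ioo 0 T := fun τ hτ =>
    ⟨by linarith [hτ.1], hτ.2.trans_lt htT⟩
  have h5 : ∫ τ in Ioo (t - r ^ 2) t, W221.NS.B2 x r (u τ)
      ≤ ∫ τ in Ioo (t - (ρ / 2 ^ n) ^ 2) t, W221.NS.B2 x (ρ / 2 ^ n) (u τ) := by
    calc ∫ τ in Ioo (t - r ^ 2) t, W221.NS.B2 x r (u τ)
        ≤ ∫ τ in Ioo (t - r ^ 2) t, W221.NS.B2 x (ρ / 2 ^ n) (u τ) := by
          have hss : Ioo (t - r ^ 2) t ⊆ Icc (t - (ρ / 2 ^ n) ^ 2) t :=
            (Ioo_subset_Ioo_left (by linarith)).trans Ioo_subset_Icc_self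
          refine setIntegral_mono_on (((hB2c x _).mono hsub).integrableOn_Icc.mono_set hss)
            (((hB2c x _).mono hsub).integrableOn_Icc.mono_set hss) measurableSet_Ioo fun τ hτ => ?_
          have hτI := hsub (hss hτ)
          unfold W221.NS.B2
          exact setIntegral_mono_set
            (((gsq_contL (sm_slice hu hτI)).continuousOn.integrableOn_compact
              (isCompact_closedBall x _)).mono_set ball_subset_closedBall)
            (Eventually.of_forall fun y => gsq_nn _ _) (ball_subset_ball h1).eventuallyLE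
      _ ≤ _ := by
          refine setIntegral_mono_set
            (((hB2c x _).mono hsub).integrableOn_Icc.mono_set Ioo_subset_Icc_self)
            (Eventually.of_forall fun τ => B2_nn _ _ _) (Ioo_subset_Ioo_left ?_).eventuallyLE
          linarith
  have h6 := h n (by omega)
  have h7 : B * (ρ / 2 ^ n) ≤ B * (2 * r) := mul_le_mul_of_nonneg_left h2 hB
  linarith

theorem enL (hF : StmFlxL) (hL : StmLEL) : StmEnL := by
  intro T E O u p hT hu T₀ K ρ₀ a₀ hT₀ hT₀T hK hρ₀ hBO hMor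
  obtain ⟨C₀, hC₀, H⟩ := key hF hL K hK
  obtain ⟨A, ρ, hA, hρ, hρT, hρρ, H⟩ := H T E O u p hT hu T₀ K ρ₀ a₀ hT₀ hT₀T hK le_rfl hρ₀ hBO
    hMor
  refine ⟨2 * (A + 2 * (C₀ * K ^ 2)), ρ / 2 ^ 0, by positivity, by positivity,
    fun t ht x hx r hr => ?_⟩
  refine all_radii hu.toLEq hρ (by positivity) (by linarith [ht.1]) ht.2 (fun n _ => ?_) hr
  refine (H t ht x hx n).trans (mul_le_mul_of_nonneg_right ?_ (by positivity))
  have h1 : (3 / 4 : ℝ) ^ n ≤ 1 := pow_le_one₀ (by norm_num) (by norm_num)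
  have h2 := mul_le_mul_of_nonneg_left h1 hA
  linarith

theorem enS (hF : StmFlxL) (hL : StmLEL) : StmEnS := by
  intro ε hε
  obtain ⟨C₀, hC₀, H⟩ := key hF hL 1 one_pos
  obtain ⟨c, hc⟩ : ∃ c, c = min 1 (ε / (8 * (C₀ + 1))) := ⟨_, rfl⟩
  have hc0 : 0 < c := by rw [hc]; exact lt_min one_pos (by positivity)
  have hc1 : c ≤ 1 := by rw [hc]; exact min_le_left _ _
  have hc2 : c ≤ ε / (8 * (C₀ + 1)) := by rw [hc]; exact min_le_right _ _
  refine ⟨c, hc0, ?_⟩
  intro T E O u p hT hu T₀ ρ₀ a₀ hT₀ hT₀T hρ₀ hBO hMor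
  obtain ⟨A, ρ, hA, hρ, hρT, hρρ, H⟩ := H T E O u p hT hu T₀ c ρ₀ a₀ hT₀ hT₀T hc0 hc1 hρ₀ hBO
    hMor
  obtain ⟨n₀, hn₀⟩ := exists_pow_lt_of_lt_one (show 0 < ε / (4 * (A + 1)) by positivity)
    (show (3 / 4 : ℝ) < 1 by norm_num)
  refine ⟨ρ / 2 ^ n₀, by positivity, fun t ht x hx r hr => ?_⟩
  have h0 : ∫ τ in Ioo (t - r ^ 2) t, W221.NS.B2 x r (u τ) ≤ 2 * (ε / 2) * r := by
    refine all_radii hu.toLEq hρ (by positivity) (by linarith [ht.1]) ht.2 (fun n hn => ?_) hr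
    refine (H t ht x hx n).trans (mul_le_mul_of_nonneg_right ?_ (by positivity))
    have h1 : (3 / 4 : ℝ) ^ n ≤ ε / (4 * (A + 1)) :=
      (pow_le_pow_of_le_one (by norm_num) (by norm_num) hn).trans hn₀.le
    have h2 : A * (3 / 4 : ℝ) ^ n ≤ ε / 4 := by
      have h3 := mul_le_mul_of_nonneg_left h1 hA
      have h4 : A * (ε / (4 * (A + 1))) ≤ ε / 4 := by
        rw [mul_div_assoc', div_le_div_iff₀ (by positivity) (by norm_num)]
        nlinarith
      linarith
    have h5 : c ^ 2 ≤ c := by nlinarith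
    have h6 : C₀ * c ^ 2 ≤ C₀ * (ε / (8 * (C₀ + 1))) :=
      mul_le_mul_of_nonneg_left (h5.trans hc2) hC₀
    have h7 : C₀ * (ε / (8 * (C₀ + 1))) ≤ ε / 8 := by
      rw [mul_div_assoc', div_le_div_iff₀ (by positivity) (by norm_num)]
      nlinarith
    linarith
  linarith

end Pool.Agent.Q85.CL
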