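import Pool.Agent.Q85.CC.Defs3

/-!
Project CL (helper85): the LOCAL form of project CC. The fields are smooth functions on the whole
space, but the equations hold on an open set `O` only, without periodicity and without boundary
conditions. `closedBall x r` is a cube with side `2 r` (maximum norm).
-/

set_option autoImplicit false

open MeasureTheory Set Metric
open scoped ContDiff
open H459R3.NS Pool.Agent.W268.NS Pool.Agent.Q67.VD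

namespace Pool.Agent.Q85.CL

open Pool.Agent.Q85.CC

/-- All the components are smooth. -/
def SM (v : V → V) : Prop := ∀ i, ContDiff ℝ ∞ (fun y => v y i)

/-- Without divergence on `O`. -/
def DFO (O : Set V) (v : V → V) : Prop := ∀ x ∈ O, ∑ i, pd i (fun y => v y i) x = 0

/-- `∫ |f| ≤ K r` on all the cubes with side `2 r` inside the cube with centre `a` and side
`2 ρ`. -/
def MorB (K : ℝ) (a : V) (ρ : ℝ) (f : V → ℝ) : Prop :=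
  ∀ x r, 0 < r → ‖x - a‖ + r ≤ ρ → ∫ y in closedBall x r, |f y| ≤ K * r

/-- Smooth fields which solve the equations (viscosity one) on the open set `O`. -/
structure LEq (T : ℝ) (O : Set V) (u : ℝ → V → V) (p : ℝ → V → ℝ) : Prop where
  openO : IsOpen O
  smooth_u : ContDiffOn ℝ ∞ (fun z : ℝ × V => u z.1 z.2) (Ioo 0 T ×ˢ univ)
  smooth_p : ContDiffOn ℝ ∞ (fun z : ℝ × V => p z.1 z.2) (Ioo 0 T ×ˢ univ)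
  divfree : ∀ t ∈ Ioo 0 T, ∀ x ∈ O, ∑ i, pd i (fun y => u t y i) x = 0
  momentum : ∀ t ∈ Ioo 0 T, ∀ x ∈ O, ∀ i,
    deriv (fun s => u s x i) t + ∑ j, u t x j * pd j (fun y => u t y i) x
      = ∑ j, pd j (pd j (fun y => u t y i)) x - pd i (p t) x

/-- Local solutions with finite energy, dissipation and integrable pressure. -/
structure LSl (T E : ℝ) (O : Set V) (u : ℝ → V → V) (p : ℝ → V → ℝ) : Prop extends LEq T O u p where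
  en_int : ∀ t ∈ Ioo 0 T, IntegrableOn (W221.NS.nsq (u t)) O
  en : ∀ t ∈ Ioo 0 T, ∫ x in O, W221.NS.nsq (u t) x ≤ E
  dis : IntegrableOn (fun z : ℝ × V => W221.NS.gsq (u z.1) z.2) (Ioo 0 T ×ˢ O)
  prs : IntegrableOn (fun z : ℝ × V => p z.1 z.2) (Ioo 0 T ×ˢ O)

/-! ### Fixed time -/

/-- CL-FLUX. The Morrey bound from the cone condition, in one ball. -/
def StmFluxL : Prop := ∃ C : ℝ, 0 < C ∧ ∀ (v : V → V) (M R κ : ℝ) (x e : V), SM v → 0 ≤ M →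
  0 < R → 0 < κ → κ ≤ 1 → Cone κ M R e x v → ∀ r, 0 < r → r ≤ R / 4 →
    ∫ y in closedBall x r, om v y
      ≤ C / κ ^ 2 * (√((∫ y in closedBall x R, W221.NS.nsq v y) / R) + M * R ^ 2) * r

/-- CL-PINCH (single cone). -/
def StmPinchL : Prop := ∀ κ : ℝ, 0 < κ → κ ≤ 1 → ∃ σ lam c : ℝ, 0 < σ ∧ σ ≤ 1 / 8 ∧ 0 < lam ∧
  lam ≤ 1 / 2 ∧ 0 < c ∧ c ≤ 1 ∧ ∀ K η τ : ℝ, 0 ≤ K → 0 < η → η ≤ 1 → 0 < τ → τ ≤ 1 → ∃ N : ℕ,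
    ∀ (v : V → V) (x e : V) (M R ρ : ℝ), SM v → 0 ≤ M → 0 < R → R ≤ 1 → Cone κ M R e x v →
      (∀ s, 0 < s → s ≤ R → ∫ y in closedBall x s, om v y ≤ K * s) → M * R ^ 2 ≤ c * η * τ →
      0 < ρ → ρ ≤ lam ^ N * R → η * ρ ≤ ∫ y in closedBall x ρ, om v y →
        ∃ k < N, ∀ s w : ℝ, σ * (lam ^ k * (R / 4)) ≤ s → s ≤ 2 * σ * (lam ^ k * (R / 4)) →
          0 < w → w ≤ σ * (lam ^ k * (R / 4)) / 4 →
            (∫ y in Disc e x s w (lam ^ k * (R / 4) / 2) \ Disc e x s w (lam ^ k * (R / 4) / 4),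
              om v y ≤ τ * w) ∧
            c * η * w ≤ ∫ y in Disc e x s w (lam ^ k * (R / 4) / 4), om v y

/-- CL-PINCH (double cone). -/
def StmPinchDL : Prop := ∀ κ : ℝ, 0 < κ → κ ≤ 1 → ∃ σ lam c : ℝ, 0 < σ ∧ σ ≤ 1 / 8 ∧ 0 < lam ∧
  lam ≤ 1 / 2 ∧ 0 < c ∧ c ≤ 1 ∧ ∀ K η τ : ℝ, 0 ≤ K → 0 < η → η ≤ 1 → 0 < τ → τ ≤ 1 → ∃ N : ℕ,
    ∀ (v : V → V) (x e : V) (R ρ : ℝ), SM v → 0 < R → R ≤ 1 → DCone κ R e x v →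
      (∀ s, 0 < s → s ≤ R → ∫ y in closedBall x s, om v y ≤ K * s) →
      0 < ρ → ρ ≤ lam ^ N * R → η * ρ ≤ ∫ y in closedBall x ρ, om v y →
        ∃ k < N, ∀ s w : ℝ, σ * (lam ^ k * (R / 4)) ≤ s → s ≤ 2 * σ * (lam ^ k * (R / 4)) →
          0 < w → w ≤ σ * (lam ^ k * (R / 4)) / 4 →
            (∫ y in Disc e x s w (lam ^ k * (R / 4) / 2) \ Disc e x s w (lam ^ k * (R / 4) / 4),
              om v y ≤ τ * w) ∧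
            c * η * w ≤ ∫ y in Disc e x s w (lam ^ k * (R / 4) / 4), om v y

/-- The Morrey bound for the vorticity from the double cone condition. -/
def StmMorDL : Prop := ∀ κ : ℝ, 0 < κ → κ ≤ 1 → ∃ C c : ℝ, 0 < C ∧ 0 < c ∧ c ≤ 1 ∧
  ∀ (v : V → V) (x e : V) (R : ℝ), SM v → 0 < R → DCone κ R e x v →
    ∀ r, 0 < r → r ≤ c * R →
      ∫ y in closedBall x r, om v y ≤ C * (r / R) * ∫ y in closedBall x R, om v y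

/-- CL-VEL. -/
def StmVelL : Prop := ∃ C : ℝ, 0 < C ∧ ∀ (v : V → V) (a : V) (K ρ r : ℝ), SM v →
  DFO (ball a ρ) v → 0 ≤ K → 0 < r → r ≤ ρ / 4 → MorB K a ρ (om v) → ∀ y, ‖y - a‖ ≤ ρ / 2 → ∀ i,
    |v y i| ≤ C * (pot r (om v) y + K / r
      + √((∫ z in closedBall a ρ, W221.NS.nsq v z) / ρ ^ 3)) ∧
    |∫ z, W221.NS.th z * v (y + r • z) i|
      ≤ C * (K / r + √((∫ z in closedBall a ρ, W221.NS.nsq v z) / ρ ^ 3))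

/-- CL-DEC. -/
def StmDecL : Prop := ∃ C : ℝ, 0 < C ∧ ∀ (ρ L : ℝ) (f : V → ℝ) (G : Fin 3 → V → ℝ) (a : V),
  0 < ρ → ρ ≤ L → ContDiff ℝ ∞ f → (∀ i, ContDiff ℝ ∞ (G i)) →
  (∀ x ∈ ball a (3 * L), lap f x = ∑ i, pd i (G i) x) →
    ∃ f₂ : V → ℝ, ContDiff ℝ ∞ f₂ ∧
      (∀ x ∈ closedBall a L, |f x - f₂ x| ≤ C * ∑ i, pot ρ (G i) x) ∧
      ∀ x ∈ closedBall a L, ∀ j, |pd j f₂ x| ≤
        C * ((∑ i, far ρ L (G i) x) + (∫ z in closedBall (0 : V) L, |f (x + z)|) / L ^ 4)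

/-- CL-FLX. The terms of the local energy identity at one time at the scale `ρ / 2ⁿ`. The constant
of the main term `1 / (ρ / 2ⁿ)` is `C₀ K²`. -/
def StmFlxL : Prop := ∀ δ D K₁ : ℝ, 0 < δ → 0 < D → 0 < K₁ → ∃ C₀ : ℝ, 0 ≤ C₀ ∧
  ∀ K H ρ : ℝ, 0 < K → K ≤ K₁ → 0 ≤ H → 0 < ρ → ρ ≤ 1 → ∃ C : ℝ, 0 ≤ C ∧
    ∀ (v : V → V) (q : V → ℝ) (m Q : ℝ) (x : V), SM v → ContDiff ℝ ∞ q → DFO (ball x ρ) v →
    (∀ y ∈ ball x ρ, lap q y = ∑ i, pd i (fun z => crossProduct (v z) (vort v z) i) y) →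
    MorB K x ρ (om v) → √((∫ z in closedBall x ρ, W221.NS.nsq v z) / ρ ^ 3) ≤ H →
    ∫ y in closedBall x ρ, |q y - m| ≤ Q →
    ∀ n : ℕ, 6 ≤ n → ∀ φ : V → ℝ, ContDiff ℝ ∞ φ →
      (∀ y, φ y ≠ 0 → ‖y - x‖ ≤ 2 * (ρ / 2 ^ n)) → (∀ y i, |pd i φ y| ≤ D / (ρ / 2 ^ n)) →
      (∀ y, |lap φ y| ≤ D / (ρ / 2 ^ n) ^ 2) →
        |∫ y, W221.NS.nsq v y * lap φ y| + |2 * ∫ y, q y * W221.NS.adv v φ y|
          + (∫ y in closedBall x (2 * (ρ / 2 ^ n)), W221.NS.nsq v y) / (ρ / 2 ^ n) ^ 2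
          ≤ δ * ∑ j ∈ Finset.range (n - 2),
              (1 / 4 : ℝ) ^ j * W221.NS.B2 x (2 ^ (j + 3) * (ρ / 2 ^ n)) v
            + C₀ * K ^ 2 / (ρ / 2 ^ n) + C * (1 + (ρ / 2 ^ n) ^ 2 * Q)

/-! ### Solutions -/

/-- CL-LE. The local energy identity and the equation of the Bernoulli pressure. -/
def StmLEL : Prop := ∀ (T : ℝ) (O : Set V) (u : ℝ → V → V) (p : ℝ → V → ℝ), LEq T O u p →
  (∀ φ : V → ℝ, ContDiff ℝ ∞ φ → HasCompactSupport φ → tsupport φ ⊆ O → ∀ t ∈ Ioo 0 T,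
    HasDerivAt (fun s => ∫ y, W221.NS.nsq (u s) y * φ y)
      (-2 * (∫ y, W221.NS.gsq (u t) y * φ y) + (∫ y, W221.NS.nsq (u t) y * lap φ y)
        + 2 * ∫ y, (p t y + W221.NS.nsq (u t) y / 2) * W221.NS.adv (u t) φ y) t) ∧
  ∀ t ∈ Ioo 0 T, ∀ x ∈ O, lap (fun y => p t y + W221.NS.nsq (u t) y / 2) x
    = ∑ i, pd i (fun y => crossProduct (u t y) (vort (u t) y) i) x

/-- CL-EN. Bound of the scaled dissipation; it is small if the Morrey constant is small. -/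
def StmEnL : Prop := ∀ (T E : ℝ) (O : Set V) (u : ℝ → V → V) (p : ℝ → V → ℝ), 0 < T →
  LSl T E O u p → ∀ (T₀ K ρ : ℝ) (a : V), 0 ≤ T₀ → T₀ < T → 0 < K → 0 < ρ →
    closedBall a ρ ⊆ O → (∀ t ∈ Ioo T₀ T, MorB K a ρ (om (u t))) →
    ∃ C₁ r₁ : ℝ, 0 ≤ C₁ ∧ 0 < r₁ ∧ ∀ t ∈ Ioo ((T₀ + T) / 2) T, ∀ x ∈ closedBall a (ρ / 2),
      ∀ r ∈ Ioc 0 r₁, ∫ τ in Ioo (t - r ^ 2) t, W221.NS.B2 x r (u τ) ≤ C₁ * r

/-- CL-EN, small constants. -/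
def StmEnS : Prop := ∀ ε : ℝ, 0 < ε → ∃ c : ℝ, 0 < c ∧
  ∀ (T E : ℝ) (O : Set V) (u : ℝ → V → V) (p : ℝ → V → ℝ), 0 < T →
  LSl T E O u p → ∀ (T₀ ρ : ℝ) (a : V), 0 ≤ T₀ → T₀ < T → 0 < ρ →
    closedBall a ρ ⊆ O → (∀ t ∈ Ioo T₀ T, MorB c a ρ (om (u t))) →
    ∃ r₁ : ℝ, 0 < r₁ ∧ ∀ t ∈ Ioo ((T₀ + T) / 2) T, ∀ x ∈ closedBall a (ρ / 2),
      ∀ r ∈ Ioc 0 r₁, ∫ τ in Ioo (t - r ^ 2) t, W221.NS.B2 x r (u τ) ≤ ε * r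

/-- CL-REG. Small scaled dissipation near a point implies boundedness near the point. -/
def StmRegL : Prop := ∃ ε : ℝ, 0 < ε ∧ ∀ (T E : ℝ) (O : Set V) (u : ℝ → V → V)
  (p : ℝ → V → ℝ), 0 < T → LSl T E O u p → ∀ (T₁ r₁ ρ : ℝ) (a : V), 0 ≤ T₁ → T₁ < T →
    0 < r₁ → 0 < ρ → closedBall a ρ ⊆ O →
    (∀ t ∈ Ioo T₁ T, ∀ x ∈ closedBall a ρ, ∀ r ∈ Ioc 0 r₁,
      ∫ τ in Ioo (t - r ^ 2) t, W221.NS.B2 x r (u τ) ≤ ε * r) →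
    ∃ B δ : ℝ, 0 < δ ∧ ∀ t ∈ Ioo (T - δ) T, 0 < t → ∀ x ∈ closedBall a (ρ / 2), ‖u t x‖ ≤ B

/-- CL-GOOD. -/
def StmGoodL : Prop := ∃ c : ℝ, 1 ≤ c ∧ ∀ K C₁ σ : ℝ, 0 ≤ K → 0 ≤ C₁ → 0 < σ → σ ≤ 1 →
  ∃ h L : ℝ, 0 < h ∧ h ≤ 1 ∧ 1 ≤ L ∧ ∀ (T E : ℝ) (O : Set V) (u : ℝ → V → V) (p : ℝ → V → ℝ),
    0 < T → LSl T E O u p → ∀ (a : V) (ρ₀ : ℝ), 0 < ρ₀ → closedBall a ρ₀ ⊆ O →
    ∃ r₀ : ℝ, 0 < r₀ ∧ ∀ (t r : ℝ) (x e : V), 0 < r → r ≤ r₀ → T / 2 ≤ t → t < T →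
      ‖x - a‖ ≤ ρ₀ / 2 → e ⬝ᵥ e = 1 →
      (∀ τ ∈ Ioo (t - L * r ^ 2) t, ∀ y ∈ closedBall x (ρ₀ / 4), ∀ ρ ∈ Ioc 0 r,
        ‖W221.NS.mol ρ u τ y‖ ≤ K / ρ) →
      (∀ y ∈ closedBall x (ρ₀ / 4), ∀ ρ ∈ Ioc 0 (L * r),
        ∫ τ in Ioo (t - ρ ^ 2) t, W221.NS.B2 y ρ (u τ) ≤ C₁ * ρ) →
        ∃ s ∈ Icc (σ * r) (2 * σ * r), ∀ y, hgt e x y = s → pr2 e x y ≤ r ^ 2 →
          Gd c (h * r) (u t) y

/-! ### The theorem -/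

/-- Local half-space condition: no singularity at `a`. -/
def StmHalfL : Prop := ∀ (T E : ℝ) (O : Set V) (u : ℝ → V → V) (p : ℝ → V → ℝ), 0 < T →
  LSl T E O u p → ∀ (T₀ κ M R : ℝ) (a : V), 0 ≤ T₀ → T₀ < T → 0 < κ → 0 ≤ M → 0 < R →
    closedBall a R ⊆ O → (∀ t ∈ Ioo T₀ T, ∃ e, Cone κ M R e a (u t)) →
    ∃ B δ : ℝ, 0 < δ ∧ ∀ t ∈ Ioo (T - δ) T, 0 < t → ∀ x ∈ closedBall a δ, ‖u t x‖ ≤ B

end Pool.Agent.Q85.CL
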