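import Pool.Agent.Q85.CL.Defs3

/-!
Project CL: the angles along an analytic curve of vectors.
-/

set_option autoImplicit false

open MeasureTheory Set Metric Filter Topology
open scoped ContDiff
open H459R3.NS Pool.Agent.W268.NS Pool.Agent.Q67.VD

namespace Pool.Agent.Q85.CL

open Pool.Agent.Q85.CC

/-- The cosine of the angle without orientation. -/
noncomputable def QA (b w : V) : ℝ := |b ⬝ᵥ w| / (len b * len w)

lemma len_nn (w : V) : 0 ≤ len w := Real.sqrt_nonneg _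

lemma len_sq' (w : V) : len w ^ 2 = w ⬝ᵥ w := by
  unfold len
  rw [Real.sq_sqrt]
  exact Finset.sum_nonneg fun i _ => mul_self_nonneg _

lemma len_posI {w : V} (hw : w ≠ 0) : 0 < len w := by
  unfold len
  apply Real.sqrt_pos.2
  have h0 : 0 ≤ w ⬝ᵥ w := Finset.sum_nonneg fun i _ => mul_self_nonneg _
  refine lt_of_le_of_ne h0 fun h => hw ?_
  exact dotProduct_self_eq_zero.1 h.symm

lemma len_smulI (a : ℝ) (w : V) : len (a • w) = |a| * len w := by
  unfold len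
  rw [smul_dotProduct, dotProduct_smul, smul_eq_mul, smul_eq_mul, ← mul_assoc,
    Real.sqrt_mul (mul_self_nonneg a), Real.sqrt_mul_self_eq_abs]

lemma QA_smul (b : V) {a : ℝ} (ha : a ≠ 0) (w : V) : QA b (a • w) = QA b w := by
  unfold QA
  rw [len_smulI, dotProduct_smul, smul_eq_mul, abs_mul]
  have h1 : 0 < |a| := abs_pos.2 ha
  rw [show len b * (|a| * len w) = |a| * (len b * len w) by ring]
  exact mul_div_mul_left _ _ h1.ne'

lemma len_contI : Continuous len := by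
  unfold len
  exact Real.continuous_sqrt.comp (by fun_prop)

lemma QA_cont (b : V) {w : V} (hb : b ≠ 0) (hw : w ≠ 0) : ContinuousAt (QA b) w := by
  unfold QA
  refine ContinuousAt.div ?_ ?_ ?_
  · exact (by fun_prop : Continuous fun w : V => |b ⬝ᵥ w|).continuousAt
  · exact (continuous_const.mul len_contI).continuousAt
  · exact (mul_pos (len_posI hb) (len_posI hw)).ne'

theorem ang : StmAng := by
  intro g c δ hg h0 h1 hδ hc0 hc1 hle
  have hgO : AnalyticOnNhd ℝ g (Icc (0 : ℝ) 1) := hg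
  have hne : ∀ s ∈ Icc (0 : ℝ) 1, ¬ ∀ᶠ z in 𝓝 s, g z = 0 := by
    intro s hs hz
    exact h0 (hgO.eqOn_zero_of_preconnected_of_eventuallyEq_zero isPreconnected_Icc hs hz
      ⟨le_rfl, zero_le_one⟩)
  have hkey : ∀ s ∈ Icc (0 : ℝ) 1, ∃ l : ℝ, Tendsto (fun s' => QA (g 0) (g s')) (𝓝[≠] s) (𝓝 l) ∧
      (g s ≠ 0 → l = QA (g 0) (g s)) ∧ ∀ᶠ s' in 𝓝[≠] s, g s' ≠ 0 := by
    intro s hs
    obtain ⟨n, w, hw, hws, hgw⟩ := (hg s hs).exists_eventuallyEq_pow_smul_nonzero_iff.2 (hne s hs)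
    have hw0 : ∀ᶠ z in 𝓝 s, w z ≠ 0 := hw.continuousAt.eventually_ne hws
    have e1 : ∀ᶠ z in 𝓝[≠] s, g z = (z - s) ^ n • w z := hgw.filter_mono nhdsWithin_le_nhds
    have e2 : ∀ᶠ z in 𝓝[≠] s, w z ≠ 0 := hw0.filter_mono nhdsWithin_le_nhds
    have e3 : ∀ᶠ z in 𝓝[≠] s, z ≠ s := eventually_mem_nhdsWithin
    refine ⟨QA (g 0) (w s), ?_, ?_, ?_⟩
    · have ht : Tendsto (fun z => QA (g 0) (w z)) (𝓝[≠] s) (𝓝 (QA (g 0) (w s))) :=
        ((QA_cont (g 0) h0 hws).comp (f := w) hw.continuousAt).tendsto.mono_left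
          nhdsWithin_le_nhds
      refine ht.congr' ?_
      filter_upwards [e1, e3] with z hz hzs
      rw [hz, QA_smul _ (pow_ne_zero _ (sub_ne_zero.2 hzs))]
    · intro hgs
      have h2 := hgw.self_of_nhds
      rw [sub_self] at h2
      have hn : n = 0 := by
        by_contra hn
        rw [zero_pow hn, zero_smul] at h2
        exact hgs h2
      rw [h2, hn, pow_zero, one_smul]
    · filter_upwards [e1, e2, e3] with z hz hwz hzs
      rw [hz]
      exact smul_ne_zero (pow_ne_zero _ (sub_ne_zero.2 hzs)) hwz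
  choose! l hl using hkey
  have hcont : ContinuousOn l (Icc (0 : ℝ) 1) := by
    intro s hs
    rw [← continuousWithinAt_sdiff_self]
    obtain ⟨ht, -, hn⟩ := hl s hs
    have hle' : 𝓝[Icc (0 : ℝ) 1 \ {s}] s ≤ 𝓝[≠] s := nhdsWithin_mono _ fun z hz => hz.2
    refine (ht.mono_left hle').congr' ?_
    filter_upwards [hn.filter_mono hle', eventually_mem_nhdsWithin] with z hz hzm
    exact ((hl z hzm.1).2.1 hz).symm
  have hl0 : l 0 = 1 := by
    rw [(hl 0 ⟨le_rfl, zero_le_one⟩).2.1 h0]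
    unfold QA
    have h2 := len_posI h0
    rw [← len_sq', abs_of_nonneg (sq_nonneg _)]
    field_simp
  have hl1 : l 1 ≤ c := by
    rw [(hl 1 ⟨zero_le_one, le_rfl⟩).2.1 h1]
    unfold QA
    rw [div_le_iff₀ (mul_pos (len_posI h0) (len_posI h1))]
    exact hle
  obtain ⟨s, hs, hls⟩ := intermediate_value_Icc' (zero_le_one) hcont
    (show c ∈ Icc (l 1) (l 0) from ⟨hl1, by rw [hl0]; exact hc1⟩)
  obtain ⟨ht, -, hn⟩ := hl s hs
  rw [hls] at ht
  have hev : ∀ᶠ z in 𝓝[≠] s, |QA (g 0) (g z) - c| < δ ∧ g z ≠ 0 :=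
    ((tendsto_order.1 ((continuous_abs.tendsto _).comp (ht.sub_const c))).2 δ (by simpa using hδ)).and
      hn
  have hex : ∃ z ∈ Icc (0 : ℝ) 1, |QA (g 0) (g z) - c| < δ ∧ g z ≠ 0 := by
    rcases eq_or_lt_of_le hs.2 with h | h
    · have h2 : 𝓝[<] s ≤ 𝓝[≠] s := nhdsWithin_mono _ fun z (hz : z < s) => hz.ne
      have h3 : ∀ᶠ z in 𝓝[<] s, z ∈ Ioo 0 s := Ioo_mem_nhdsLT (by rw [h]; exact one_pos)
      obtain ⟨z, hz1, hz2⟩ := ((hev.filter_mono h2).and h3).exists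
      exact ⟨z, ⟨hz2.1.le, hz2.2.le.trans hs.2⟩, hz1⟩
    · have h2 : 𝓝[>] s ≤ 𝓝[≠] s := nhdsWithin_mono _ fun z (hz : s < z) => hz.ne'
      have h3 : ∀ᶠ z in 𝓝[>] s, z ∈ Ioo s 1 := Ioo_mem_nhdsGT h
      obtain ⟨z, hz1, hz2⟩ := ((hev.filter_mono h2).and h3).exists
      exact ⟨z, ⟨hs.1.trans hz2.1.le, hz2.2.le⟩, hz1⟩
  obtain ⟨z, hz, hzq, hz0⟩ := hex
  refine ⟨z, hz, hz0, ?_⟩
  have hp : 0 < len (g 0) * len (g z) := mul_pos (len_posI h0) (len_posI hz0)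
  have e2 : |g 0 ⬝ᵥ g z| - c * (len (g 0) * len (g z))
      = (QA (g 0) (g z) - c) * (len (g 0) * len (g z)) := by
    unfold QA
    rw [sub_mul, div_mul_cancel₀ _ hp.ne']
  rw [e2, abs_mul, abs_of_pos hp]
  exact mul_lt_mul_of_pos_right hzq hp

end Pool.Agent.Q85.CL
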