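import Pool.Agent.Q85.CL.Assem2
import Pool.Agent.Q85.CL.Defs3

/-!
Project CL: the assembly for the double cone, with the alternative of a bounded vorticity.
-/

set_option autoImplicit false

open MeasureTheory Set Metric Filter Topology
open scoped ContDiff
open H459R3.NS Pool.Agent.W268.NS Pool.Agent.Q67.VD

namespace Pool.Agent.Q85.CL

open Pool.Agent.Q85.CC

lemma int_bd {v : V → V} {M : ℝ} {x : V} {r : ℝ} (hr : 0 < r)
    (h : ∀ y ∈ closedBall x r, om v y ≤ M) : ∫ y in closedBall x r, om v y ≤ 8 * M * r ^ 3 := by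
  have hfin : volume (closedBall x r) < ⊤ := measure_closedBall_lt_top
  have h1 := norm_setIntegral_le_of_norm_le_const (μ := volume) (s := closedBall x r)
    (f := om v) (C := M) hfin
    (fun y hy => by rw [Real.norm_eq_abs, abs_of_nonneg (om_nnL _ _)]; exact h y hy)
  have h2 : (volume (closedBall x r)).toReal = (2 * r) ^ 3 := by
    rw [Real.volume_pi_closedBall _ hr.le, ENNReal.toReal_ofReal (by positivity)]
    simp
  refine (Real.le_norm_self _).trans (h1.trans (le_of_eq ?_))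
  rw [Measure.real, h2]
  ring

theorem dblM (hVel : StmVelL) (hEn : StmEnL) (hEnS : StmEnS) (hReg : Pool.Agent.Q95.CL.StmRegK)
    (hGood : StmGoodL) (hAna : StmAna) (hPinch : StmPinchDL) (hMorD : StmMorDL) (hL1 : StmL1L) :
    StmDblM := by
  intro T E O u p hT hu T₀ κ₀ M R₀ a hT₀ hT₀T hκ₀ hM hR₀ hO hcone₀
  obtain ⟨κ, hκd⟩ : ∃ κ, κ = min κ₀ 1 := ⟨_, rfl⟩
  have hκ : 0 < κ := by rw [hκd]; exact lt_min hκ₀ one_pos
  have hκ1 : κ ≤ 1 := by rw [hκd]; exact min_le_right _ _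
  have hκκ : κ ≤ κ₀ := by rw [hκd]; exact min_le_left _ _
  obtain ⟨R, hRd⟩ : ∃ R, R = min R₀ 1 := ⟨_, rfl⟩
  have hR : 0 < R := by rw [hRd]; exact lt_min hR₀ one_pos
  have hR1 : R ≤ 1 := by rw [hRd]; exact min_le_right _ _
  have hRR : R ≤ R₀ := by rw [hRd]; exact min_le_left _ _
  obtain ⟨T₁, hT₁⟩ : ∃ T₁, T₁ = (T₀ + T) / 2 := ⟨_, rfl⟩
  have hT₁0 : 0 < T₁ := by rw [hT₁]; linarith
  have hT₁T : T₁ < T := by rw [hT₁]; linarith
  have hT₀₁ : T₀ < T₁ := by rw [hT₁]; linarith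
  have hIoo : ∀ t ∈ Ioo T₁ T, t ∈ Ioo 0 T := fun t ht => ⟨hT₁0.trans ht.1, ht.2⟩
  -- cones around the neighbouring points
  have hcone : ∀ t ∈ Ioo T₁ T, ∀ x S, ‖x - a‖ + S ≤ R → (∃ e, DCone κ S e x (u t)) ∨
      ∀ y ∈ closedBall x S, om (u t) y ≤ M := by
    intro t ht x S hS
    rcases hcone₀ t ⟨hT₀₁.trans ht.1, ht.2⟩ with ⟨e, he⟩ | h
    · exact Or.inl ⟨e, DCone.monoL he hκκ (by linarith)⟩
    · refine Or.inr fun y hy => h y ?_
      rw [mem_closedBall, dist_eq_norm] at hy ⊢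
      have e1 : y - a = (y - x) + (x - a) := by abel
      rw [e1]
      exact (norm_add_le _ _).trans (by linarith)
  -- the Morrey bound
  obtain ⟨L, hL, hL1⟩ := hL1 T E O u p hT hu a R T₁ hR
    ((closedBall_subset_closedBall hRR).trans hO) hT₁0 hT₁T
  obtain ⟨C, c, hC, hc, hc1, hMorD⟩ := hMorD κ hκ hκ1
  obtain ⟨K, hKd⟩ : ∃ K, K = C * (L / (R / 4)) + 8 * M := ⟨_, rfl⟩
  have hCL : 0 < C * (L / (R / 4)) := by positivity
  have hK : 0 < K := by rw [hKd]; linarith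
  obtain ⟨ρ₀, hρd⟩ : ∃ ρ₀, ρ₀ = c * (R / 4) := ⟨_, rfl⟩
  have hρ₀ : 0 < ρ₀ := by rw [hρd]; positivity
  have hρR : ρ₀ ≤ R / 4 := by
    rw [hρd]
    exact mul_le_of_le_one_left (by positivity) hc1
  have hMor : ∀ t ∈ Ioo T₁ T, MorB K a ρ₀ (om (u t)) := by
    intro t ht x r hr hxr
    have hx : ‖x - a‖ ≤ R / 4 := by linarith
    rw [abs_omL]
    have hr1 : r ≤ 1 := by linarith [norm_nonneg (x - a)]
    rcases hcone t ht x (R / 4) (by linarith) with ⟨e, he⟩ | hb
    · have hsm := slice_u hu.toLEq (hIoo t ht)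
      have h1 := hMorD (u t) x e (R / 4) hsm (by positivity) he r hr
        (by rw [← hρd]; linarith [norm_nonneg (x - a)])
      refine h1.trans ?_
      have h2 : ∫ y in closedBall x (R / 4), om (u t) y ≤ ∫ y in closedBall a (R / 2), om (u t) y := by
        refine setIntegral_mono_set ((om_contL hsm).continuousOn.integrableOn_compact
          (isCompact_closedBall _ _)) (Eventually.of_forall fun y => om_nnL _ _) ?_
        refine (closedBall_subset_closedBall' ?_).eventuallyLE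
        rw [dist_eq_norm]
        linarith
      have h3 := h2.trans (hL1 t ⟨ht.1.le, ht.2⟩)
      have h4 : C * (r / (R / 4)) * ∫ y in closedBall x (R / 4), om (u t) y
          ≤ C * (r / (R / 4)) * L := mul_le_mul_of_nonneg_left h3 (by positivity)
      have h5 : 0 ≤ 8 * M * r := by positivity
      refine h4.trans ?_
      rw [hKd]
      have e2 : C * (r / (R / 4)) * L = C * (L / (R / 4)) * r := by ring
      rw [e2, add_mul]
      linarith
    · have h1 := int_bd hr (v := u t) (M := M) (x := x) fun y hy =>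
        hb y (closedBall_subset_closedBall (by linarith [norm_nonneg (x - a)]) hy)
      have h2 : r ^ 3 ≤ r := pow_le_of_le_one hr.le hr1 (by norm_num)
      have h3 : 8 * M * r ^ 3 ≤ 8 * M * r := mul_le_mul_of_nonneg_left h2 (by positivity)
      have h5 : 0 ≤ C * (L / (R / 4)) * r := by positivity
      rw [hKd, add_mul]
      linarith
  refine assemL hVel hEn hEnS hReg hGood hAna hT hu hT₁0.le hT₁T hK hρ₀
    ((closedBall_subset_closedBall (by linarith)).trans hO) hMor ?_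
  -- the pinching argument
  obtain ⟨σ, lam, c', hσ, hσ8, hlam, hlam2, hc', hc'1, hPin⟩ := hPinch κ hκ hκ1
  refine ⟨σ, lam, c', hσ, hσ8, hlam, hlam2, hc', hc'1, fun η τ hη hη1 hτ hτ1 => ?_⟩
  obtain ⟨N, hPin⟩ := hPin K η τ hK.le hη hη1 hτ hτ1
  obtain ⟨S₀, hS₀d⟩ : ∃ S₀, S₀ = min (ρ₀ / 2) (η / (16 * (M + 1))) := ⟨_, rfl⟩
  have hS₀ : 0 < S₀ := by rw [hS₀d]; exact lt_min (by positivity) (by positivity)
  have hS₀1 : S₀ ≤ ρ₀ / 2 := by rw [hS₀d]; exact min_le_left _ _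
  have hS₀2 : S₀ ≤ η / (16 * (M + 1)) := by rw [hS₀d]; exact min_le_right _ _
  refine ⟨N, S₀, hS₀, fun t ht x hx S ρ hS hSS hρ hρS hconc => ?_⟩
  have hxa : ‖x - a‖ ≤ ρ₀ / 2 := by
    have := mem_closedBall.1 hx
    rwa [dist_eq_norm] at this
  have hlamN : lam ^ N ≤ 1 := pow_le_one₀ hlam.le (by linarith)
  have hρS1 : ρ ≤ S := hρS.trans (mul_le_of_le_one_left hS.le hlamN)
  rcases hcone t ht x S (by linarith) with ⟨e, he⟩ | hb
  · refine ⟨e, he.1, hPin (u t) x e S ρ (slice_u hu.toLEq (hIoo t ht)) hS (by linarith) he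
      (fun s hs hsS => ?_) hρ hρS hconc⟩
    have h1 := hMor t ht x s hs (by linarith)
    rwa [abs_omL] at h1
  · exfalso
    have h1 := int_bd hρ (v := u t) (M := M) (x := x) fun y hy =>
      hb y (closedBall_subset_closedBall hρS1 hy)
    have h2 : η * ρ ≤ 8 * M * ρ ^ 3 := hconc.trans h1
    have h3 : ρ ≤ η / (16 * (M + 1)) := hρS1.trans (hSS.trans hS₀2)
    rw [le_div_iff₀ (by positivity)] at h3
    have h4 : ρ ≤ 1 := by linarith
    have h5 : ρ ^ 3 ≤ ρ ^ 2 := pow_le_pow_of_le_one hρ.le h4 (by norm_num)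
    have h6 : 8 * M * ρ ^ 3 ≤ 8 * M * ρ ^ 2 := mul_le_mul_of_nonneg_left h5 (by positivity)
    have h7 : η * ρ ≤ 8 * M * ρ ^ 2 := h2.trans h6
    have h8 : η ≤ 8 * M * ρ := by
      have : η * ρ ≤ (8 * M * ρ) * ρ := by nlinarith
      exact le_of_mul_le_mul_right this hρ
    have h9 : 16 * M * ρ ≤ ρ * (16 * (M + 1)) := by nlinarith
    linarith

end Pool.Agent.Q85.CL
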