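import Pool.Agent.Q85.CL.Defs3

/-!
Project CL: solutions in the whole space.
-/

set_option autoImplicit false

open MeasureTheory Set Metric
open scoped ContDiff
open H459R3.NS Pool.Agent.W268.NS Pool.Agent.Q67.VD

namespace Pool.Agent.Q85.CL

open Pool.Agent.Q85.CC

/-- Smooth solutions in the whole space on `(0, T)` with viscosity `ν`, energy at most `E`, finite
dissipation and locally integrable pressure. -/
structure WSl (ν T E : ℝ) (u : ℝ → V → V) (p : ℝ → V → ℝ) : Prop where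
  smooth_u : ContDiffOn ℝ ∞ (fun z : ℝ × V => u z.1 z.2) (Ioo 0 T ×ˢ univ)
  smooth_p : ContDiffOn ℝ ∞ (fun z : ℝ × V => p z.1 z.2) (Ioo 0 T ×ˢ univ)
  divfree : ∀ t ∈ Ioo 0 T, ∀ x, ∑ i, pd i (fun y => u t y i) x = 0
  momentum : ∀ t ∈ Ioo 0 T, ∀ x i,
    deriv (fun s => u s x i) t + ∑ j, u t x j * pd j (fun y => u t y i) x
      = ν * ∑ j, pd j (pd j (fun y => u t y i)) x - pd i (p t) x
  en_int : ∀ t ∈ Ioo 0 T, Integrable (W221.NS.nsq (u t))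
  en : ∀ t ∈ Ioo 0 T, ∫ x, W221.NS.nsq (u t) x ≤ E
  dis : IntegrableOn (fun z : ℝ × V => W221.NS.gsq (u z.1) z.2) (Ioo 0 T ×ˢ univ)
  prs : ∀ R : ℝ, IntegrableOn (fun z : ℝ × V => p z.1 z.2) (Ioo 0 T ×ˢ ball 0 R)

/-- CL-FAR. The velocity is bounded near infinity, up to the time `T`. -/
def StmFar : Prop := ∀ (T E : ℝ) (u : ℝ → V → V) (p : ℝ → V → ℝ), 0 < T → WSl 1 T E u p →
  ∀ T₁ : ℝ, 0 < T₁ → T₁ < T → ∃ B ρ : ℝ, ∀ t ∈ Ico T₁ T, ∀ x, ρ ≤ ‖x‖ → ‖u t x‖ ≤ B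

/-- CL-WSC. Scaling to viscosity one. -/
def StmWSc : Prop := ∀ (ν T E : ℝ) (u : ℝ → V → V) (p : ℝ → V → ℝ), 0 < ν → 0 < T →
  WSl ν T E u p → WSl 1 (ν * T) (E / ν ^ 2) (fun t x => ν⁻¹ • u (t / ν) x)
    (fun t x => (ν⁻¹) ^ 2 * p (t / ν) x)

end Pool.Agent.Q85.CL
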