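import Pool.Agent.Q284.CL.Dom
import Pool.Agent.Q85.CC.Main
import Pool.Agent.Q85.CL.Defs4
import Pool.Agent.Q85.CL.Assem3
import Pool.Agent.Q85.CL.Ang

/-!
Project CL: the local theorems in an open set, general viscosity.
-/

set_option autoImplicit false

open MeasureTheory Set Metric Filter Topology
open scoped ContDiff
open H459R3.NS Pool.Agent.W268.NS Pool.Agent.Q67.VD
open Pool.Agent.Q199.VD

namespace Pool.Agent.Q85.CL

open Pool.Agent.Q85.CC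
open Pool.Agent.Q284.CL (pd_evD pd_cmulD)

lemma vort_evD {v w : V → V} {c : ℝ} {x : V} (h : ∀ᶠ y in 𝓝 x, w y = c • v y) :
    vort w x = c • vort v x := by
  have h1 : ∀ i j, gradM w x i j = c * gradM v x i j := by
    intro i j
    have h2 : (fun y => w y j) =ᶠ[𝓝 x] fun y => c * v y j := by
      filter_upwards [h] with y hy
      rw [hy]
      rfl
    show pd i (fun y => w y j) x = c * pd i (fun y => v y j) x
    rw [(pd_evD h2 i).self_of_nhds]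
    exact pd_cmulD c i _ x
  funext k
  simp only [vort, Pi.smul_apply, smul_eq_mul]
  fin_cases k
  · show gradM w x 1 2 - gradM w x 2 1 = c * (gradM v x 1 2 - gradM v x 2 1)
    rw [h1, h1]
    ring
  · show gradM w x 2 0 - gradM w x 0 2 = c * (gradM v x 2 0 - gradM v x 0 2)
    rw [h1, h1]
    ring
  · show gradM w x 0 1 - gradM w x 1 0 = c * (gradM v x 0 1 - gradM v x 1 0)
    rw [h1, h1]
    ring

lemma om_evD {v w : V → V} {c : ℝ} (hc : 0 ≤ c) {x : V} (h : ∀ᶠ y in 𝓝 x, w y = c • v y) :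
    om w x = c * om v x := by
  unfold om
  rw [vort_evD h, len_smulI, abs_of_nonneg hc]

lemma ball_ev {P : V → Prop} {a : V} {R : ℝ} (h : ∀ x ∈ ball a R, P x) {x : V}
    (hx : x ∈ ball a R) : ∀ᶠ y in 𝓝 x, P y := by
  filter_upwards [isOpen_ball.mem_nhds hx] with y hy using h y hy

/-- Times: from `(ν T₀, ν T)` to `(T₀, T)`. -/
lemma time_mem {ν T₀ T : ℝ} (hν : 0 < ν) {t : ℝ} (ht : t ∈ Ioo (ν * max T₀ 0) (ν * T)) :
    t / ν ∈ Ioo 0 T ∧ T₀ < t / ν := by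
  have h1 : max T₀ 0 < t / ν := by
    rw [lt_div_iff₀ hν, mul_comm]
    exact ht.1
  have h2 : t / ν < T := by
    rw [div_lt_iff₀ hν, mul_comm]
    exact ht.2
  exact ⟨⟨(le_max_right _ _).trans_lt h1, h2⟩, (le_max_left _ _).trans_lt h1⟩

/-- The bound for the scaled solution gives the bound for the solution. -/
lemma back {ν T : ℝ} {a : V} {R : ℝ} {u v : ℝ → V → V} (hν : 0 < ν) (hR : 0 < R)
    (_hT : 0 < T) (hv : ∀ t ∈ Ioo 0 T, ∀ x ∈ ball a R, v (ν * t) x = ν⁻¹ • u t x)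
    (h : ∃ B δ : ℝ, 0 < δ ∧ ∀ t ∈ Ioo (ν * T - δ) (ν * T), 0 < t → ∀ x ∈ closedBall a δ,
      ‖v t x‖ ≤ B) :
    ∃ B δ : ℝ, 0 < δ ∧ ∀ t ∈ Ioo 0 T, T - δ < t → ∀ x, ‖x - a‖ ≤ δ → ‖u t x‖ ≤ B := by
  obtain ⟨B, δ, hδ, hB⟩ := h
  refine ⟨ν * B, min (min δ (δ / ν)) (R / 2), by positivity, fun t ht htδ x hx => ?_⟩
  have hmin1 : min (min δ (δ / ν)) (R / 2) ≤ δ := (min_le_left _ _).trans (min_le_left _ _)
  have hmin2 : min (min δ (δ / ν)) (R / 2) ≤ δ / ν := (min_le_left _ _).trans (min_le_right _ _)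
  have hmin3 : min (min δ (δ / ν)) (R / 2) ≤ R / 2 := min_le_right _ _
  have h3 : T - δ / ν < t := by linarith
  have h4 : ν * T - δ < ν * t := by
    have := mul_lt_mul_of_pos_left h3 hν
    have e1 : ν * (T - δ / ν) = ν * T - δ := by field_simp
    linarith
  have h1 := hB (ν * t) ⟨h4, mul_lt_mul_of_pos_left ht.2 hν⟩ (mul_pos hν ht.1) x
    (by rw [mem_closedBall, dist_eq_norm]; exact hx.trans hmin1)
  rw [hv t ht x (by rw [mem_ball, dist_eq_norm]; linarith), norm_smul, Real.norm_eq_abs,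
    abs_of_pos (inv_pos.2 hν)] at h1
  calc ‖u t x‖ = ν * (ν⁻¹ * ‖u t x‖) := by field_simp
    _ ≤ ν * B := mul_le_mul_of_nonneg_left h1 hν.le

/-- The half-space condition in an open set. -/
theorem half_D (hH : StmHalfL) (hDm : StmDom) {ν T E : ℝ} {Ω : Set V} {u : ℝ → V → V}
    {p : ℝ → V → ℝ} (hν : 0 < ν) (hT : 0 < T) (h : DSl ν T E Ω u p) {T₀ κ M R : ℝ} {a : V}
    (hT₀ : T₀ < T) (hκ : 0 < κ) (hR : 0 < R) (hΩ : closedBall a R ⊆ Ω)
    (hc : ∀ t ∈ Ioo 0 T, T₀ < t → ∃ e : V, e ⬝ᵥ e = 1 ∧ ∀ y, ‖y - a‖ ≤ R →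
      M < om (u t) y → κ * om (u t) y ≤ e ⬝ᵥ vort (u t) y) :
    ∃ B δ : ℝ, 0 < δ ∧ ∀ t ∈ Ioo 0 T, T - δ < t → ∀ x, ‖x - a‖ ≤ δ → ‖u t x‖ ≤ B := by
  obtain ⟨E', v, q, hL, hv⟩ := hDm ν T E Ω u p hν hT h a R hR hΩ
  obtain ⟨κ', hκ'd⟩ : ∃ κ', κ' = min κ 1 := ⟨_, rfl⟩
  have hκ' : 0 < κ' := by rw [hκ'd]; exact lt_min hκ one_pos
  have hκ'1 : κ' ≤ 1 := by rw [hκ'd]; exact min_le_right _ _
  have hκ'κ : κ' ≤ κ := by rw [hκ'd]; exact min_le_left _ _
  obtain ⟨M', hM'd⟩ : ∃ M', M' = max M 0 := ⟨_, rfl⟩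
  have hM' : 0 ≤ M' := by rw [hM'd]; exact le_max_right _ _
  have hM'M : M ≤ M' := by rw [hM'd]; exact le_max_left _ _
  refine back hν hR hT hv (hH (ν * T) E' _ v q (by positivity) hL (ν * max T₀ 0) κ'
    (2 * (ν⁻¹ * M')) (R / 2) a (mul_nonneg hν.le (le_max_right _ _))
    (mul_lt_mul_of_pos_left (max_lt hT₀ hT) hν) hκ' (by positivity) (by positivity)
    (closedBall_subset_ball (by linarith)) ?_)
  intro t ht
  obtain ⟨hI, hT0t⟩ := time_mem hν ht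
  obtain ⟨e, he, hce⟩ := hc _ hI hT0t
  have htν : ν * (t / ν) = t := by field_simp
  have hev : ∀ y, ‖y - a‖ ≤ R / 2 → ∀ᶠ z in 𝓝 y, v t z = ν⁻¹ • u (t / ν) z := by
    intro y hy
    refine ball_ev (a := a) (R := R) (fun z hz => ?_) (by
      rw [mem_ball, dist_eq_norm]
      linarith)
    rw [← hv _ hI z hz, htν]
  refine ⟨e, cone_of_half hκ'1 he ?_ (by positivity)⟩
  intro y hy hMy
  rw [om_evD (inv_nonneg.2 hν.le) (hev y hy)] at hMy ⊢
  rw [vort_evD (hev y hy), dotProduct_smul, smul_eq_mul]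
  have hMy2 : M' < om (u (t / ν)) y := (mul_lt_mul_iff_right₀ (inv_pos.2 hν)).1 hMy
  have h1 := hce y (by linarith) (hM'M.trans_lt hMy2)
  have h2 : κ' * om (u (t / ν)) y ≤ e ⬝ᵥ vort (u (t / ν)) y :=
    (mul_le_mul_of_nonneg_right hκ'κ (om_nonneg _ _)).trans h1
  calc κ' * (ν⁻¹ * om (u (t / ν)) y) = ν⁻¹ * (κ' * om (u (t / ν)) y) := by ring
    _ ≤ _ := mul_le_mul_of_nonneg_left h2 (inv_nonneg.2 hν.le)

/-- The tetrahedral angle in an open set. -/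
theorem tetra_D (hH : StmHalfL) (hDm : StmDom) {ν T E : ℝ} {Ω : Set V} {u : ℝ → V → V}
    {p : ℝ → V → ℝ} (hν : 0 < ν) (hT : 0 < T) (h : DSl ν T E Ω u p) {T₀ ε M R : ℝ} {a : V}
    (hT₀ : T₀ < T) (hε : 0 < ε) (hR : 0 < R) (hΩ : closedBall a R ⊆ Ω)
    (hc : ∀ t ∈ Ioo 0 T, T₀ < t → ∀ x y, ‖x - a‖ ≤ R → ‖y - a‖ ≤ R → M < om (u t) x →
      M < om (u t) y →
      (ε - 1 / 3) * (om (u t) x * om (u t) y) ≤ vort (u t) x ⬝ᵥ vort (u t) y) :
    ∃ B δ : ℝ, 0 < δ ∧ ∀ t ∈ Ioo 0 T, T - δ < t → ∀ x, ‖x - a‖ ≤ δ → ‖u t x‖ ≤ B := by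
  obtain ⟨δ, hδd⟩ : ∃ δ, δ = min ε 1 := ⟨_, rfl⟩
  have hδ : 0 < δ := by rw [hδd]; exact lt_min hε one_pos
  have hδ1 : δ ≤ 1 := by rw [hδd]; exact min_le_right _ _
  have hδε : δ ≤ ε := by rw [hδd]; exact min_le_left _ _
  refine half_D hH hDm hν hT h (T₀ := T₀) (κ := δ / 2) (M := max M 0) (R := R) hT₀ (by positivity)
    hR hΩ ?_
  intro t ht hTt
  obtain ⟨D, hD⟩ : ∃ D : Set V, D = {b | ∃ y, ‖y - a‖ ≤ R ∧ max M 0 < om (u t) y ∧
    b = (om (u t) y)⁻¹ • vort (u t) y} := ⟨_, rfl⟩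
  have hpos : ∀ y, max M 0 < om (u t) y → 0 < om (u t) y := fun y hy =>
    (le_max_right _ _).trans_lt hy
  obtain ⟨e, he, hea⟩ := tetra hδ hδ1 (D := D) (by
    rw [hD]
    rintro b ⟨y, -, hy, rfl⟩
    have h0 := hpos y hy
    rw [smul_dotProduct, dotProduct_smul, ← om_sq, smul_eq_mul, smul_eq_mul]
    field_simp) (by
    rw [hD]
    rintro b ⟨y, hy1, hy2, rfl⟩ b' ⟨z, hz1, hz2, rfl⟩
    have hy0 := hpos y hy2
    have hz0 := hpos z hz2
    rw [smul_dotProduct, dotProduct_smul, smul_eq_mul, smul_eq_mul]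
    have h1 := hc t ht hTt y z hy1 hz1 ((le_max_left _ _).trans_lt hy2)
      ((le_max_left _ _).trans_lt hz2)
    have h2 : (δ - 1 / 3) * (om (u t) y * om (u t) z) ≤ vort (u t) y ⬝ᵥ vort (u t) z :=
      (mul_le_mul_of_nonneg_right (by linarith) (by positivity)).trans h1
    calc δ - 1 / 3 = (om (u t) y)⁻¹ * ((om (u t) z)⁻¹ *
          ((δ - 1 / 3) * (om (u t) y * om (u t) z))) := by field_simp
      _ ≤ _ := mul_le_mul_of_nonneg_left (mul_le_mul_of_nonneg_left h2 (inv_nonneg.2 hz0.le))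
        (inv_nonneg.2 hy0.le))
  refine ⟨e, he, fun y hy hMy => ?_⟩
  have h0 := hpos y hMy
  have h1 := hea ((om (u t) y)⁻¹ • vort (u t) y) (by rw [hD]; exact ⟨y, hy, hMy, rfl⟩)
  rw [dotProduct_smul, smul_eq_mul] at h1
  calc δ / 2 * om (u t) y ≤ ((om (u t) y)⁻¹ * (e ⬝ᵥ vort (u t) y)) * om (u t) y :=
        mul_le_mul_of_nonneg_right h1 h0.le
    _ = e ⬝ᵥ vort (u t) y := by field_simp

/-- The double cone condition in an open set, for the balls with a large vorticity. -/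
theorem dbl_D (hH : StmDblM) (hDm : StmDom) {ν T E : ℝ} {Ω : Set V} {u : ℝ → V → V}
    {p : ℝ → V → ℝ} (hν : 0 < ν) (hT : 0 < T) (h : DSl ν T E Ω u p) {T₀ κ M R : ℝ} {a : V}
    (hT₀ : T₀ < T) (hκ : 0 < κ) (hR : 0 < R) (hΩ : closedBall a R ⊆ Ω)
    (hc : ∀ t ∈ Ioo 0 T, T₀ < t → (∃ x, ‖x - a‖ ≤ R ∧ M < om (u t) x) →
      ∃ e : V, e ⬝ᵥ e = 1 ∧ ∀ y, ‖y - a‖ ≤ R → κ * om (u t) y ≤ |e ⬝ᵥ vort (u t) y|) :
    ∃ B δ : ℝ, 0 < δ ∧ ∀ t ∈ Ioo 0 T, T - δ < t → ∀ x, ‖x - a‖ ≤ δ → ‖u t x‖ ≤ B := by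
  obtain ⟨E', v, q, hL, hv⟩ := hDm ν T E Ω u p hν hT h a R hR hΩ
  obtain ⟨M', hM'd⟩ : ∃ M', M' = max M 0 := ⟨_, rfl⟩
  have hM' : 0 ≤ M' := by rw [hM'd]; exact le_max_right _ _
  have hM'M : M ≤ M' := by rw [hM'd]; exact le_max_left _ _
  refine back hν hR hT hv (hH (ν * T) E' _ v q (by positivity) hL (ν * max T₀ 0) κ
    (ν⁻¹ * M') (R / 2) a (mul_nonneg hν.le (le_max_right _ _))
    (mul_lt_mul_of_pos_left (max_lt hT₀ hT) hν) hκ (by positivity) (by positivity)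
    (closedBall_subset_ball (by linarith)) ?_)
  intro t ht
  obtain ⟨hI, hT0t⟩ := time_mem hν ht
  have htν : ν * (t / ν) = t := by field_simp
  have hev : ∀ y, ‖y - a‖ ≤ R / 2 → ∀ᶠ z in 𝓝 y, v t z = ν⁻¹ • u (t / ν) z := by
    intro y hy
    refine ball_ev (a := a) (R := R) (fun z hz => ?_) (by
      rw [mem_ball, dist_eq_norm]
      linarith)
    rw [← hv _ hI z hz, htν]
  by_cases hex : ∃ x, ‖x - a‖ ≤ R ∧ M < om (u (t / ν)) x
  · obtain ⟨e, he, hce⟩ := hc _ hI hT0t hex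
    refine Or.inl ⟨e, he, fun y hy => ?_⟩
    rw [om_evD (inv_nonneg.2 hν.le) (hev y hy), vort_evD (hev y hy), dotProduct_smul, smul_eq_mul,
      abs_mul, abs_of_pos (inv_pos.2 hν)]
    calc κ * (ν⁻¹ * om (u (t / ν)) y) = ν⁻¹ * (κ * om (u (t / ν)) y) := by ring
      _ ≤ _ := mul_le_mul_of_nonneg_left (hce y (by linarith)) (inv_nonneg.2 hν.le)
  · push Not at hex
    refine Or.inr fun y hy => ?_
    rw [mem_closedBall, dist_eq_norm] at hy
    rw [om_evD (inv_nonneg.2 hν.le) (hev y hy)]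
    exact mul_le_mul_of_nonneg_left ((hex y (by linarith)).trans hM'M) (inv_nonneg.2 hν.le)

lemma seg_ball {a x y : V} {R : ℝ} (hx : ‖x - a‖ ≤ R) (hy : ‖y - a‖ ≤ R) {s : ℝ}
    (hs : s ∈ Icc (0 : ℝ) 1) : ‖x + s • (y - x) - a‖ ≤ R := by
  have e1 : x + s • (y - x) - a = (1 - s) • (x - a) + s • (y - a) := by
    simp only [smul_sub, sub_smul, one_smul]
    abel
  rw [e1]
  refine (norm_add_le _ _).trans ?_
  rw [norm_smul, norm_smul, Real.norm_eq_abs, Real.norm_eq_abs, abs_of_nonneg hs.1,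
    abs_of_nonneg (by linarith [hs.2] : (0 : ℝ) ≤ 1 - s)]
  have h1 : (1 - s) * ‖x - a‖ ≤ (1 - s) * R :=
    mul_le_mul_of_nonneg_left hx (by linarith [hs.2])
  have h2 : s * ‖y - a‖ ≤ s * R := mul_le_mul_of_nonneg_left hy hs.1
  linarith

/-- All the angles between a large and a nonzero vorticity, in an open set. -/
theorem ang_D (hH : StmDblM) (hDm : StmDom) (hGd : StmGdL) (hSeg : StmSegAn) {ν T E : ℝ}
    {Ω : Set V} {u : ℝ → V → V} {p : ℝ → V → ℝ} (hν : 0 < ν) (hT : 0 < T) (h : DSl ν T E Ω u p)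
    {T₀ c ε M R : ℝ} {a : V} (hT₀ : T₀ < T) (hc0 : 0 ≤ c) (hc1 : c ≤ 1) (hε : 0 < ε)
    (hR : 0 < R) (hΩ : closedBall a R ⊆ Ω)
    (hc : ∀ t ∈ Ioo 0 T, T₀ < t → ∀ x y, ‖x - a‖ ≤ R → ‖y - a‖ ≤ R → M < om (u t) x →
      0 < om (u t) y → ε * (om (u t) x * om (u t) y)
        ≤ |(|vort (u t) x ⬝ᵥ vort (u t) y| - c * (om (u t) x * om (u t) y))|) :
    ∃ B δ : ℝ, 0 < δ ∧ ∀ t ∈ Ioo 0 T, T - δ < t → ∀ x, ‖x - a‖ ≤ δ → ‖u t x‖ ≤ B := by
  obtain ⟨E', v, q, hL, hv⟩ := hDm ν T E Ω u p hν hT h a R hR hΩ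
  refine dbl_D hH hDm hν hT h (T₀ := T₀) (κ := max c ε) (M := max M 0) (R := R / 2) (a := a)
    hT₀ (lt_max_of_lt_right hε) (by positivity)
    ((closedBall_subset_closedBall (by linarith)).trans hΩ) ?_
  rintro t ht hTt ⟨x, hx, hMx⟩
  have hx0 : 0 < om (u t) x := (le_max_right _ _).trans_lt hMx
  have hMx' : M < om (u t) x := (le_max_left _ _).trans_lt hMx
  refine ⟨(om (u t) x)⁻¹ • vort (u t) x, ?_, fun y hy => ?_⟩
  · rw [smul_dotProduct, dotProduct_smul, ← om_sq, smul_eq_mul, smul_eq_mul]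
    field_simp
  by_cases hy0 : om (u t) y = 0
  · rw [hy0, mul_zero]
    exact abs_nonneg _
  have hy0' : 0 < om (u t) y := lt_of_le_of_ne (om_nonneg _ _) (Ne.symm hy0)
  rw [smul_dotProduct, smul_eq_mul, abs_mul, abs_of_pos (inv_pos.2 hx0)]
  by_contra hlt
  push Not at hlt
  have hlt2 : |vort (u t) x ⬝ᵥ vort (u t) y| < max c ε * (om (u t) x * om (u t) y) := by
    have h1 := mul_lt_mul_of_pos_left hlt hx0
    calc |vort (u t) x ⬝ᵥ vort (u t) y|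
        = om (u t) x * ((om (u t) x)⁻¹ * |vort (u t) x ⬝ᵥ vort (u t) y|) := by field_simp
      _ < om (u t) x * (max c ε * om (u t) y) := h1
      _ = _ := by ring
  have hxy : 0 < om (u t) x * om (u t) y := mul_pos hx0 hy0'
  rcases lt_or_ge c ε with hcε | hcε
  · rw [max_eq_right hcε.le] at hlt2
    have h1 := hc t ht hTt x y (by linarith) (by linarith) hMx' hy0'
    have h2 : |(|vort (u t) x ⬝ᵥ vort (u t) y| - c * (om (u t) x * om (u t) y))|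
        < ε * (om (u t) x * om (u t) y) := by
      rw [abs_lt]
      constructor
      · have h3 : c * (om (u t) x * om (u t) y) < ε * (om (u t) x * om (u t) y) :=
          mul_lt_mul_of_pos_right hcε hxy
        linarith [abs_nonneg (vort (u t) x ⬝ᵥ vort (u t) y)]
      · have h3 : 0 ≤ c * (om (u t) x * om (u t) y) := by positivity
        linarith
    linarith
  · rw [max_eq_left hcε] at hlt2
    -- the scaled solution
    have hνt : ν * t ∈ Ioo 0 (ν * T) := ⟨mul_pos hν ht.1, mul_lt_mul_of_pos_left ht.2 hν⟩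
    have hev : ∀ z, ‖z - a‖ ≤ R / 2 → ∀ᶠ w in 𝓝 z, v (ν * t) w = ν⁻¹ • u t w := by
      intro z hz
      exact ball_ev (a := a) (R := R) (fun w hw => hv t ht w hw) (by
        rw [mem_ball, dist_eq_norm]
        linarith)
    have hsm : SM (v (ν * t)) := slice_u hL.toLEq hνt
    have hνi : 0 < ν⁻¹ := inv_pos.2 hν
    have han := hSeg (v (ν * t)) x y hsm (fun s hs => hGd (ν * T) E' _ v q (by positivity) hL
      (ν * t) hνt _ (by
        rw [mem_ball, dist_eq_norm]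
        exact (seg_ball hx hy hs).trans_lt (by linarith)))
    obtain ⟨g, hg⟩ : ∃ g : ℝ → V, g = fun s => vort (v (ν * t)) (x + s • (y - x)) := ⟨_, rfl⟩
    rw [← hg] at han
    have hgs : ∀ s ∈ Icc (0 : ℝ) 1, g s = ν⁻¹ • vort (u t) (x + s • (y - x)) := by
      intro s hs
      rw [hg]
      exact vort_evD (hev _ (seg_ball hx hy hs))
    have hg0 : g 0 = ν⁻¹ • vort (u t) x := by
      rw [hgs 0 ⟨le_rfl, zero_le_one⟩, zero_smul, add_zero]
    have hg1 : g 1 = ν⁻¹ • vort (u t) y := by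
      rw [hgs 1 ⟨zero_le_one, le_rfl⟩, one_smul, add_sub_cancel]
    have hvx : vort (u t) x ≠ 0 := by
      intro h0
      have : om (u t) x = 0 := by
        unfold om len
        rw [h0]
        simp
      linarith
    have hvy : vort (u t) y ≠ 0 := by
      intro h0
      have : om (u t) y = 0 := by
        unfold om len
        rw [h0]
        simp
      linarith
    have hlen : ∀ z, len (ν⁻¹ • vort (u t) z) = ν⁻¹ * om (u t) z := by
      intro z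
      rw [len_smulI, abs_of_pos hνi]
      rfl
    obtain ⟨s, hs, hgs0, hsd⟩ := ang g c ε han (by rw [hg0]; exact smul_ne_zero hνi.ne' hvx)
      (by rw [hg1]; exact smul_ne_zero hνi.ne' hvy) hε hc0 hc1 (by
        rw [hg0, hg1, hlen, hlen, smul_dotProduct, dotProduct_smul, smul_eq_mul, smul_eq_mul,
          abs_mul, abs_mul, abs_of_pos hνi]
        have h1 : ν⁻¹ * (ν⁻¹ * |vort (u t) x ⬝ᵥ vort (u t) y|)
            ≤ ν⁻¹ * (ν⁻¹ * (c * (om (u t) x * om (u t) y))) :=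
          mul_le_mul_of_nonneg_left (mul_le_mul_of_nonneg_left hlt2.le hνi.le) hνi.le
        linarith)
    have hzR := seg_ball hx hy hs
    obtain ⟨z, hz⟩ : ∃ z, z = x + s • (y - x) := ⟨_, rfl⟩
    have hgz : g s = ν⁻¹ • vort (u t) z := by rw [hgs s hs, hz]
    rw [← hz] at hzR
    have hz0 : 0 < om (u t) z := by
      refine lt_of_le_of_ne (om_nonneg _ _) fun h0 => hgs0 ?_
      have h1 : len (g s) = 0 := by rw [hgz, hlen, ← h0, mul_zero]
      by_contra hne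
      exact (len_posI hne).ne' h1
    rw [hg0, hgz, hlen, hlen, smul_dotProduct, dotProduct_smul, smul_eq_mul, smul_eq_mul,
      abs_mul, abs_mul, abs_of_pos hνi] at hsd
    have h1 := hc t ht hTt x z (by linarith) (by linarith) hMx' hz0
    have e1 : ν⁻¹ * (ν⁻¹ * |vort (u t) x ⬝ᵥ vort (u t) z|)
        - c * (ν⁻¹ * om (u t) x * (ν⁻¹ * om (u t) z))
        = ν⁻¹ * ν⁻¹ * (|vort (u t) x ⬝ᵥ vort (u t) z| - c * (om (u t) x * om (u t) z)) := by ring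
    rw [e1, abs_mul, abs_of_pos (mul_pos hνi hνi)] at hsd
    have e2 : ε * (ν⁻¹ * om (u t) x * (ν⁻¹ * om (u t) z))
        = ν⁻¹ * ν⁻¹ * (ε * (om (u t) x * om (u t) z)) := by ring
    rw [e2] at hsd
    have h2 := lt_of_mul_lt_mul_left hsd (mul_pos hνi hνi).le
    linarith

end Pool.Agent.Q85.CL
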