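import Pool.Agent.Q225.CL.Per
import Pool.Agent.W930.MD.Scale
import Pool.Agent.Q284.CL.Dom

/-!
Project CL: periodic solutions with any viscosity are solutions in balls.
-/

set_option autoImplicit false

open MeasureTheory Set Metric Filter Topology
open scoped ContDiff Convolution
open H459R3.NS Pool.Agent.W268.NS Pool.Agent.Q67.VD Pool.Agent.Q199.VD

namespace Pool.Agent.Q85.CL

open Pool.Agent.Q85.CC Pool.Agent.Q225.CC Pool.Agent.Q225.CL

/-- The bound of the Laplacian of the pressure, any viscosity. -/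
theorem lap_press_le {ν T : ℝ} {u : ℝ → V → V} {p : ℝ → V → ℝ} (hν : 0 < ν) (hT : 0 < T)
    (h : IsSol ν T u p) {t : ℝ} (ht : t ∈ Ioo 0 T) (x : V) :
    |lap (p t) x| ≤ ∑ i, ∑ j, pd j (fun y => u t y i) x ^ 2 := by
  have hsc := Pool.Agent.W930.MD.t_SCALE ν T u p hν hT h
  have hνt : ν * t ∈ Ioo 0 (ν * T) := ⟨mul_pos hν ht.1, mul_lt_mul_of_pos_left ht.2 hν⟩
  have h1 := abs_lap_press hsc hνt x
  have h2 : ν * t / ν = t := by field_simp
  have hp : ∀ (c : ℝ) (f : V → ℝ) (j : Fin 3), pd j (fun y => c * f y) = fun y => c * pd j f y := by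
    intro c f j
    funext y
    exact Pool.Agent.Q284.CL.pd_cmulD c j f y
  have hl : lap (fun y => (ν⁻¹) ^ 2 * p t y) x = (ν⁻¹) ^ 2 * lap (p t) x := by
    unfold lap
    simp only [hp]
    rw [← Finset.mul_sum]
  have hg : ∑ i, ∑ j, pd j (fun y => (ν⁻¹ • u t y) i) x ^ 2
      = (ν⁻¹) ^ 2 * ∑ i, ∑ j, pd j (fun y => u t y i) x ^ 2 := by
    rw [Finset.mul_sum]
    refine Finset.sum_congr rfl fun i _ => ?_
    rw [Finset.mul_sum]
    refine Finset.sum_congr rfl fun j _ => ?_
    have h3 : (fun y => (ν⁻¹ • u t y) i) = fun y => ν⁻¹ * u t y i := rfl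
    rw [h3, hp, mul_pow]
  simp only [h2, ← inv_pow] at h1
  rw [hl, hg, abs_mul, abs_of_nonneg (by positivity)] at h1
  exact le_of_mul_le_mul_left h1 (by positivity)

/-- Periodic solutions are local solutions. -/
theorem perD {ν T : ℝ} {u : ℝ → V → V} {p : ℝ → V → ℝ} (hν : 0 < ν) (hT : 0 < T)
    (h : IsSol ν T u p) (a : V) : ∃ p' : ℝ → V → ℝ, DSl ν T (energy (u 0)) (ball a (1 / 2)) u p' := by
  have hcT : ∀ t, t ∈ Ioo 0 T → t ∈ Ico 0 T := fun t ht => ⟨ht.1.le, ht.2⟩
  have hsm_p : ContDiffOn ℝ ∞ (fun z : ℝ × V => p z.1 z.2) (Ioo 0 T ×ˢ univ) :=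
    mono_Ioo h.smooth_p le_rfl
  have hsm_u : ContDiffOn ℝ ∞ (fun z : ℝ × V => u z.1 z.2) (Ioo 0 T ×ˢ univ) :=
    h.smooth_u.mono (prod_mono Ioo_subset_Ico_self subset_rfl)
  have hsm_c := smooth_int hsm_p
  have hsp : ∀ t ∈ Ioo 0 T, ∀ i, SP (fun y => u t y i) := fun t ht i => h.sp (hcT t ht) i
  have hnsq : ∀ t ∈ Ioo 0 T, SP (W221.NS.nsq (u t)) := by
    intro t ht
    have h1 : SP (fun z => ∑ j, u t z j ^ 2) := by
      refine SP.sum fun j _ => ?_
      have := (hsp t ht j).mul (hsp t ht j)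
      simpa only [sq] using this
    exact h1
  have hgsq : ∀ t ∈ Ioo 0 T, SP (W221.NS.gsq (u t)) := by
    intro t ht
    have h1 : SP (fun z => ∑ i, ∑ j, pd j (fun y => u t y i) z ^ 2) := by
      refine SP.sum fun i _ => SP.sum fun j _ => ?_
      have := ((hsp t ht i).pd j).mul ((hsp t ht i).pd j)
      simpa only [sq] using this
    exact h1
  have hgen : ∀ t ∈ Ioo 0 T, ∫ x in cube, W221.NS.gsq (u t) x = enstrophy (u t) := by
    intro t ht
    unfold W221.NS.gsq enstrophy
    have i1 : ∀ i ∈ (Finset.univ : Finset (Fin 3)),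
        IntegrableOn (fun x => ∑ j, pd j (fun y => u t y i) x ^ 2) cube := fun i _ =>
      integrableOn_cube (continuous_finsetSum _ fun j _ => ((hsp t ht i).pd j).cont.pow 2)
    have i2 : ∀ i, ∀ j ∈ (Finset.univ : Finset (Fin 3)),
        IntegrableOn (fun x => pd j (fun y => u t y i) x ^ 2) cube := fun i j _ =>
      integrableOn_cube (((hsp t ht i).pd j).cont.pow 2)
    rw [integral_finsetSum _ i1]
    exact Finset.sum_congr rfl fun i _ => integral_finsetSum _ (i2 i)
  have hnen : ∀ t ∈ Ioo 0 T, ∫ x in cube, W221.NS.nsq (u t) x = energy (u t) := by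
    intro t ht
    unfold W221.NS.nsq energy
    have i1 : ∀ i ∈ (Finset.univ : Finset (Fin 3)),
        IntegrableOn (fun x => u t x i ^ 2) cube := fun i _ =>
      integrableOn_cube ((hsp t ht i).cont.pow 2)
    rw [integral_finsetSum _ i1]
  have hens := Q186.AM.int_enst h hν hT
  refine ⟨fun t x => p t x - ∫ y in cube, p t y, ?_⟩
  refine ⟨isOpen_ball, hsm_u.mono (prod_mono subset_rfl (subset_univ _)), ?_, ?_, ?_, ?_, ?_, ?_, ?_⟩
  · refine ContDiffOn.mono (s := Ioo 0 T ×ˢ univ) ?_ (prod_mono subset_rfl (subset_univ _))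
    refine hsm_p.sub ?_
    exact hsm_c.comp contDiff_fst.contDiffOn fun z hz => hz.1
  · intro t ht x _
    exact h.divfree t (hcT t ht) x
  · intro t ht x _ i
    have h1 : pd i (fun x => p t x - ∫ y in cube, p t y) = pd i (p t) := pd_sub_const _ _ _
    rw [h1, h.momentum t ht x i]
  · intro t ht
    have h2 : IntegrableOn (W221.NS.nsq (u t)) (closedBall a (1 / 2)) :=
      (hnsq t ht).cont.continuousOn.integrableOn_compact (isCompact_closedBall _ _)
    exact h2.mono_set ball_subset_closedBall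
  · intro t ht
    refine (openball_le (hnsq t ht).per (hnsq t ht).cont (fun x => ?_) a).trans ?_
    · exact Finset.sum_nonneg fun i _ => sq_nonneg _
    · rw [hnen t ht]
      exact h.energy_le hν (hcT t ht)
  · refine int_prod (F := fun t x => W221.NS.gsq (u t) x) ?_ hens fun t ht => ?_
    · unfold W221.NS.gsq
      refine continuousOn_finsetSum _ fun i _ => continuousOn_finsetSum _ fun j _ => ?_
      have h1 := (contDiffOn_pd (f := fun s y => u s y i) (h.smooth_c i) j).continuousOn
      exact (h1.mono (prod_mono Ioo_subset_Ico_self subset_rfl)).pow 2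
    · have h0 : ∀ x, 0 ≤ W221.NS.gsq (u t) x := fun x =>
        Finset.sum_nonneg fun i _ => Finset.sum_nonneg fun j _ => sq_nonneg _
      rw [← hgen t ht]
      simp only [abs_of_nonneg (h0 _)]
      exact openball_le (hgsq t ht).per (hgsq t ht).cont h0 a
  · refine int_prod (F := fun t x => p t x - ∫ y in cube, p t y)
      (G := fun t => √C4 * enstrophy (u t)) ?_ (hens.const_mul _) fun t ht => ?_
    · refine hsm_p.continuousOn.sub ?_
      exact hsm_c.continuousOn.comp continuous_fst.continuousOn fun z hz => hz.1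
    · have hpp := sp_sub_const (h.sp_p (hcT t ht)) (∫ y in cube, p t y)
      refine (openball_le (f := fun x => |p t x - ∫ y in cube, p t y|) (fun i x => ?_)
        hpp.cont.abs (fun x => abs_nonneg _) a).trans ?_
      · have := hpp.per i x
        simp only at this ⊢
        rw [this]
      · refine (int_mean_le (h.sp_p (hcT t ht))).trans ?_
        refine mul_le_mul_of_nonneg_left ?_ (Real.sqrt_nonneg _)
        rw [← hgen t ht]
        exact integral_mono_of_nonneg (Eventually.of_forall fun y => abs_nonneg _)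
          (integrableOn_cube (hgsq t ht).cont) (Eventually.of_forall fun y => lap_press_le hν hT h ht y)

end Pool.Agent.Q85.CL
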