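import Pool.Agent.Q85.CC.Fin

/-!
Project CL: an unbounded periodic solution has a singular point.
-/

set_option autoImplicit false

open MeasureTheory Set Metric Filter Topology
open scoped ContDiff
open H459R3.NS Pool.Agent.W268.NS Pool.Agent.Q67.VD

namespace Pool.Agent.Q85.CL

open Pool.Agent.Q85.CC

theorem sing {ν T : ℝ} {u : ℝ → V → V} {p : ℝ → V → ℝ} (h : IsSol ν T u p)
    (hu : ¬ ∃ B, ∀ t ∈ Ico 0 T, ∀ x, ‖u t x‖ ≤ B) :
    ∃ a : V, ∀ B δ : ℝ, 0 < δ → ∃ t ∈ Ico 0 T, T - δ < t ∧ ∃ x, ‖x - a‖ ≤ δ ∧ B < ‖u t x‖ := by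
  by_contra hcon
  push Not at hcon
  have hcube : IsCompact (cube : Set V) := isCompact_Icc
  have key : ∃ B δ : ℝ, 0 < δ ∧ ∀ t ∈ Ico 0 T, T - δ < t → ∀ x ∈ cube, ‖u t x‖ ≤ B := by
    refine hcube.induction_on (p := fun S => ∃ B δ : ℝ, 0 < δ ∧ ∀ t ∈ Ico 0 T, T - δ < t →
      ∀ x ∈ S, ‖u t x‖ ≤ B) ?_ ?_ ?_ ?_
    · exact ⟨0, 1, one_pos, fun t _ _ x hx => absurd hx (notMem_empty _)⟩
    · rintro S S' hSS ⟨B, δ, hδ, hB⟩
      exact ⟨B, δ, hδ, fun t ht htδ x hx => hB t ht htδ x (hSS hx)⟩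
    · rintro S S' ⟨B, δ, hδ, hB⟩ ⟨B', δ', hδ', hB'⟩
      refine ⟨max B B', min δ δ', lt_min hδ hδ', fun t ht htδ x hx => ?_⟩
      rcases hx with hx | hx
      · exact (hB t ht (by linarith [min_le_left δ δ']) x hx).trans (le_max_left _ _)
      · exact (hB' t ht (by linarith [min_le_right δ δ']) x hx).trans (le_max_right _ _)
    · intro a _
      obtain ⟨B, δ, hδ, hB⟩ := hcon a
      refine ⟨closedBall a δ, mem_nhdsWithin_of_mem_nhds (closedBall_mem_nhds a hδ), B, δ, hδ,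
        fun t ht htδ x hx => hB t ht htδ x ?_⟩
      rwa [← dist_eq_norm]
  obtain ⟨B, δ, hδ, hB⟩ := key
  apply hu
  -- bounded on the compact part
  have hcomp : IsCompact (Icc 0 (T - δ) ×ˢ (cube : Set V)) := isCompact_Icc.prod hcube
  have hcont : ContinuousOn (fun z : ℝ × V => ‖u z.1 z.2‖) (Icc 0 (T - δ) ×ˢ (cube : Set V)) :=
    (h.smooth_u.continuousOn.mono (prod_mono (fun t ht => ⟨ht.1, by linarith [ht.2]⟩)
      (subset_univ _))).norm
  obtain ⟨B', hB'⟩ := (hcomp.image_of_continuousOn hcont).bddAbove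
  refine ⟨max B B', fun t ht x => ?_⟩
  obtain ⟨m, hm⟩ := mem_cube_shift x
  have hper : u t (x + fun i => (m i : ℝ)) = u t x := (h.per_u t ht).int m x
  rw [← hper]
  by_cases htδ : T - δ < t
  · exact (hB t ht htδ _ hm).trans (le_max_left _ _)
  · exact (hB' ⟨(t, x + fun i => (m i : ℝ)), ⟨⟨ht.1, not_lt.1 htδ⟩, hm⟩, rfl⟩).trans
      (le_max_right _ _)

end Pool.Agent.Q85.CL
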