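import Pool.Agent.Q85.CL.All
import Pool.Agent.Q85.CL.MainD
import Pool.Agent.Q85.CL.PerD
import Pool.Agent.Q85.CL.Blow
import Pool.Agent.Q85.CL.Sing
import Pool.Agent.Q16.CL.SegAn

/-!
Project CL: the theorems at a singular point.
-/

set_option autoImplicit false

open MeasureTheory Set Metric Filter Topology
open scoped ContDiff
open H459R3.NS Pool.Agent.W268.NS Pool.Agent.Q67.VD

namespace Pool.Agent.Q85.CL

open Pool.Agent.Q85.CC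

theorem Sing.not_bdd {T : ℝ} {u : ℝ → V → V} {a : V} (ha : Sing T u a) :
    ¬ ∃ B δ : ℝ, 0 < δ ∧ ∀ t ∈ Ioo 0 T, T - δ < t → ∀ x, ‖x - a‖ ≤ δ → ‖u t x‖ ≤ B := by
  rintro ⟨B, δ, hδ, h⟩
  obtain ⟨t, ht, htδ, x, hx, hB⟩ := ha B δ hδ
  exact absurd (h t ht htδ x hx) (not_le.2 hB)

theorem Sing.pos {T : ℝ} {u : ℝ → V → V} {a : V} (ha : Sing T u a) : 0 < T := by
  obtain ⟨t, ht, -⟩ := ha 0 1 one_pos
  exact ht.1.trans ht.2

/-- An unbounded periodic solution has a singular point. -/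
theorem sing_unb {ν T : ℝ} {u : ℝ → V → V} {p : ℝ → V → ℝ} (h : IsSol ν T u p)
    (hu : ¬ ∃ B, ∀ t ∈ Ico 0 T, ∀ x, ‖u t x‖ ≤ B) : ∃ a, Sing T u a := by
  obtain ⟨a, ha⟩ := sing h hu
  have hT : 0 < T := by
    obtain ⟨t, ht, -⟩ := ha 0 1 one_pos
    exact ht.1.trans_lt ht.2
  refine ⟨a, fun B δ hδ => ?_⟩
  obtain ⟨t, ht, htδ, x, hx, hB⟩ := ha B (min δ (T / 2)) (by positivity)
  have h1 := min_le_left δ (T / 2)
  have h2 := min_le_right δ (T / 2)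
  exact ⟨t, ⟨by linarith, ht.2⟩, by linarith, x, hx.trans h1, hB⟩

lemma small_ball {Ω : Set V} (hΩ : IsOpen Ω) {a : V} (ha : a ∈ Ω) {R : ℝ} (hR : 0 < R) :
    ∃ R', 0 < R' ∧ R' ≤ R ∧ closedBall a R' ⊆ Ω := by
  obtain ⟨r, hr, h⟩ := nhds_basis_closedBall.mem_iff.1 (hΩ.mem_nhds ha)
  exact ⟨min r R, lt_min hr hR, min_le_right _ _,
    (closedBall_subset_closedBall (min_le_left _ _)).trans h⟩

/-- Half-space form, at a singular point in an open set. -/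
theorem sing_half {ν T E : ℝ} {Ω : Set V} {u : ℝ → V → V} {p : ℝ → V → ℝ} (hν : 0 < ν)
    (h : DSl ν T E Ω u p) {a : V} (ha : a ∈ Ω) (hs : Sing T u a) {T₀ κ R : ℝ} (M : ℝ)
    (hT₀ : T₀ < T) (hκ : 0 < κ) (hR : 0 < R) :
    ∃ t ∈ Ioo 0 T, T₀ < t ∧ ∀ e : V, e ⬝ᵥ e = 1 → ∃ y, ‖y - a‖ ≤ R ∧ M < om (u t) y ∧
      e ⬝ᵥ vort (u t) y < κ * om (u t) y := by
  by_contra hcon
  push Not at hcon
  obtain ⟨R', hR', hRR, hsub⟩ := small_ball h.openO ha hR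
  refine hs.not_bdd (half_D stmHalfL Pool.Agent.Q284.CL.dom hν hs.pos h hT₀ hκ hR' hsub (M := M)
    fun t ht hTt => ?_)
  obtain ⟨e, he, hy⟩ := hcon t ht hTt
  exact ⟨e, he, fun y hyR => hy y (hyR.trans hRR)⟩

/-- Angles larger than the tetrahedral angle, at a singular point in an open set. -/
theorem sing_tetra {ν T E : ℝ} {Ω : Set V} {u : ℝ → V → V} {p : ℝ → V → ℝ} (hν : 0 < ν)
    (h : DSl ν T E Ω u p) {a : V} (ha : a ∈ Ω) (hs : Sing T u a) {T₀ ε R : ℝ} (M : ℝ)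
    (hT₀ : T₀ < T) (hε : 0 < ε) (hR : 0 < R) :
    ∃ t ∈ Ioo 0 T, T₀ < t ∧ ∃ x y : V, ‖x - a‖ ≤ R ∧ ‖y - a‖ ≤ R ∧ M < om (u t) x ∧
      M < om (u t) y ∧
      vort (u t) x ⬝ᵥ vort (u t) y < (ε - 1 / 3) * (om (u t) x * om (u t) y) := by
  by_contra hcon
  push Not at hcon
  obtain ⟨R', hR', hRR, hsub⟩ := small_ball h.openO ha hR
  exact hs.not_bdd (tetra_D stmHalfL Pool.Agent.Q284.CL.dom hν hs.pos h hT₀ hε hR' hsub (M := M)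
    fun t ht hTt x y hx hy => hcon t ht hTt x y (hx.trans hRR) (hy.trans hRR))

/-- Double cones, at a singular point in an open set. -/
theorem sing_dbl {ν T E : ℝ} {Ω : Set V} {u : ℝ → V → V} {p : ℝ → V → ℝ} (hν : 0 < ν)
    (h : DSl ν T E Ω u p) {a : V} (ha : a ∈ Ω) (hs : Sing T u a) {T₀ κ R : ℝ} (M : ℝ)
    (hT₀ : T₀ < T) (hκ : 0 < κ) (hR : 0 < R) :
    ∃ t ∈ Ioo 0 T, T₀ < t ∧ (∃ x, ‖x - a‖ ≤ R ∧ M < om (u t) x) ∧
      ∀ e : V, e ⬝ᵥ e = 1 → ∃ y, ‖y - a‖ ≤ R ∧ |e ⬝ᵥ vort (u t) y| < κ * om (u t) y := by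
  by_contra hcon
  push Not at hcon
  obtain ⟨R', hR', hRR, hsub⟩ := small_ball h.openO ha hR
  refine hs.not_bdd (dbl_D stmDblM Pool.Agent.Q284.CL.dom hν hs.pos h hT₀ hκ hR' hsub (M := M)
    fun t ht hTt hex => ?_)
  obtain ⟨x, hx, hMx⟩ := hex
  obtain ⟨e, he, hy⟩ := hcon t ht hTt ⟨x, hx.trans hRR, hMx⟩
  exact ⟨e, he, fun y hyR => hy y (hyR.trans hRR)⟩

/-- All the angles, at a singular point in an open set. -/
theorem sing_ang (hGd : StmGdL) {ν T E : ℝ} {Ω : Set V} {u : ℝ → V → V} {p : ℝ → V → ℝ}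
    (hν : 0 < ν) (h : DSl ν T E Ω u p) {a : V} (ha : a ∈ Ω) (hs : Sing T u a)
    {T₀ c ε R : ℝ} (M : ℝ) (hT₀ : T₀ < T) (hc0 : 0 ≤ c) (hc1 : c ≤ 1) (hε : 0 < ε) (hR : 0 < R) :
    ∃ t ∈ Ioo 0 T, T₀ < t ∧ ∃ x y : V, ‖x - a‖ ≤ R ∧ ‖y - a‖ ≤ R ∧ M < om (u t) x ∧
      0 < om (u t) y ∧
      |(|vort (u t) x ⬝ᵥ vort (u t) y| - c * (om (u t) x * om (u t) y))|
        < ε * (om (u t) x * om (u t) y) := by
  by_contra hcon
  push Not at hcon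
  obtain ⟨R', hR', hRR, hsub⟩ := small_ball h.openO ha hR
  exact hs.not_bdd (ang_D stmDblM Pool.Agent.Q284.CL.dom hGd Pool.Agent.Q16.CL.segAn hν hs.pos h
    hT₀ hc0 hc1 hε hR' hsub (M := M)
    fun t ht hTt x y hx hy => hcon t ht hTt x y (hx.trans hRR) (hy.trans hRR))

end Pool.Agent.Q85.CL
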