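import Pool.Agent.Q151.CC.Double
import Pool.Agent.Q85.CL.Defs

/-!
Project CL: the concentration of the flux, without periodicity (the proofs of helper151,
`Pool.Agent.Q151.CC`).
-/

set_option autoImplicit false

open MeasureTheory Set Metric Filter Topology
open scoped ContDiff
open H459R3.NS Pool.Agent.W268.NS Pool.Agent.Q67.VD Pool.Agent.Q85.CC Pool.Agent.Q151.CC

namespace Pool.Agent.Q85.CL

theorem pinchL : StmPinchL := by
  intro κ hκ hκ1
  obtain ⟨σ, hσ⟩ : ∃ σ, σ = κ / 240 := ⟨_, rfl⟩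
  obtain ⟨lam, hlam⟩ : ∃ lam, lam = σ / 64 := ⟨_, rfl⟩
  obtain ⟨a, hadef⟩ : ∃ a, a = 1 / κ := ⟨_, rfl⟩
  have hσ0 : 0 < σ := by rw [hσ]; positivity
  have hlam0 : 0 < lam := by rw [hlam]; positivity
  have hσ1 : σ ≤ 1 / 240 := by rw [hσ]; linarith
  have hlam1 : lam ≤ 1 / 64 := by rw [hlam]; linarith
  have ha : 0 < a := by rw [hadef]; positivity
  have haσ : a * σ = 1 / 240 := by rw [hadef, hσ]; field_simp
  have haκ : a * κ = 1 := by rw [hadef]; field_simp
  refine ⟨σ, lam, σ * κ / 64, hσ0, by linarith, hlam0, by linarith, by positivity, by nlinarith, ?_⟩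
  intro K η τ hK hη hη1 hτ hτ1
  obtain ⟨N, hN⟩ := exists_nat_ge (16 * a * (K + 8) / (σ * τ) + 1)
  refine ⟨N, ?_⟩
  intro v x e M R ρ hv hM hR hR1 hcone hom hMR hρ hρN hconc
  have hvs : ∀ i, ContDiff ℝ ∞ fun y => v y i := hv
  have he := hcone.1
  have hdf := sw_df hvs M e
  have hcp : CP a R e x (sw v M e) := by rw [hadef]; exact cp_sw hκ hcone
  have hcpe : CP a R e x (fun _ => e) := cp_const ha.le he
  have hN1 : (1 : ℝ) ≤ N := by
    have : 0 ≤ 16 * a * (K + 8) / (σ * τ) := by positivity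
    linarith
  -- the bound for `M`
  have hM1 : M * R ^ 2 ≤ σ * κ / 64 * η := by
    calc M * R ^ 2 ≤ σ * κ / 64 * η * τ := hMR
      _ ≤ σ * κ / 64 * η * 1 := by gcongr
      _ = _ := mul_one _
  have hM2 : M * R ^ 2 ≤ 1 := by
    have : σ * κ / 64 * η ≤ 1 := by
      have h1 : σ * κ ≤ 1 := by nlinarith
      nlinarith
    linarith
  -- the fluxes
  obtain ⟨r, hr⟩ : ∃ r : ℕ → ℝ, r = fun k => lam ^ k * (R / 4) := ⟨_, rfl⟩
  obtain ⟨A, hA⟩ : ∃ A : ℕ → ℝ, A = fun k => fl R e x (sw v M e) (tent 0 (σ * r k)) (r k) := ⟨_, rfl⟩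
  have hr0 : ∀ k, 0 < r k := fun k => by rw [hr]; positivity
  have hrR : ∀ k, r k ≤ R / 4 := by
    intro k
    rw [hr]
    have : lam ^ k ≤ 1 := pow_le_one₀ hlam0.le (by linarith)
    simp only
    nlinarith
  have hrs : ∀ k, r (k + 1) = lam * r k := by
    intro k
    rw [hr]
    simp only [pow_succ]
    ring
  have hA0 : A 0 ≤ 4 / σ * (K + 8) := by
    have h1 : A 0 ≤ 1 / (σ * r 0) * ∫ y in closedBall x R, e ⬝ᵥ sw v M e y := by
      rw [hA]
      refine fl_up ha hcp hdf.cont (mul_pos hσ0 (hr0 0)) he (hr0 0).le ?_ le_rfl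
      have := hrR 0
      nlinarith [hr0 0]
    have h2 : ∫ y in closedBall x R, e ⬝ᵥ sw v M e y ≤ K * R + M * (2 * R) ^ 3 := by
      have h3 : ∫ y in closedBall x R, (om v y + M) = (∫ y in closedBall x R, om v y)
          + M * (2 * R) ^ 3 := by
        rw [integral_add (int_cont (om_cont hvs) x R) (int_cont continuous_const x R),
          setIntegral_const, vol_ball x hR.le, smul_eq_mul]
        ring
      have h4 : ∫ y in closedBall x R, e ⬝ᵥ sw v M e y ≤ ∫ y in closedBall x R, (om v y + M) := by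
        refine setIntegral_mono_on (int_cont (continuous_const.dotProduct hdf.cont) x R)
          (int_cont ((om_cont hvs).add continuous_const) x R) isClosed_closedBall.measurableSet
          fun y _ => ?_
        rw [e_sw he]
        linarith [dot_le_om (n := e) (by rw [he]) v y]
      rw [h3] at h4
      linarith [hom R hR le_rfl]
    have h5 : r 0 = R / 4 := by rw [hr]; simp
    calc A 0 ≤ 1 / (σ * r 0) * (K * R + M * (2 * R) ^ 3) := by
          refine h1.trans ?_
          have := hr0 0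
          gcongr
      _ = 4 / σ * (K + 8 * (M * R ^ 2)) := by
          rw [h5]
          field_simp
          ring
      _ ≤ 4 / σ * (K + 8) := by
          gcongr
          linarith
  have hAn : ∀ k, 0 ≤ A k := by
    intro k
    rw [hA]
    exact fl_nonneg ha hcp (tent_bp (mul_pos hσ0 (hr0 k))).nn _
  obtain ⟨k, hkN, hk⟩ : ∃ k < N, A k - A (k + 1) ≤ A 0 / N := by
    by_contra hc
    push Not at hc
    have h1 : ∑ k ∈ Finset.range N, (A k - A (k + 1)) = A 0 - A N := Finset.sum_range_sub' A N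
    have hN0 : 0 < N := by
      by_contra h
      have : N = 0 := by omega
      rw [this] at hN1
      norm_num at hN1
    have h2 : ∑ k ∈ Finset.range N, A 0 / (N : ℝ) < ∑ k ∈ Finset.range N, (A k - A (k + 1)) :=
      Finset.sum_lt_sum_of_nonempty ⟨0, Finset.mem_range.2 hN0⟩ fun k hk =>
        hc k (Finset.mem_range.1 hk)
    rw [h1, Finset.sum_const, Finset.card_range, nsmul_eq_mul] at h2
    have h3 : (N : ℝ) * (A 0 / N) = A 0 := by field_simp
    rw [h3] at h2
    linarith [hAn N]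
  refine ⟨k, hkN, ?_⟩
  intro s w hs1 hs2 hw hw1
  have ek : lam ^ k * (R / 4) = r k := by rw [hr]
  rw [ek] at hs1 hs2 hw1 ⊢
  obtain ⟨q, hq⟩ : ∃ q, q = r k := ⟨_, rfl⟩
  rw [← hq] at hs1 hs2 hw1 ⊢
  have hq0 : 0 < q := by rw [hq]; exact hr0 k
  have hqR : q ≤ R / 4 := by rw [hq]; exact hrR k
  have hσq : 0 < σ * q := mul_pos hσ0 hq0
  have hs0 : 0 < s := hσq.trans_le hs1
  obtain ⟨S, hS⟩ : ∃ S, S = 3 * (σ * q) := ⟨_, rfl⟩
  have hS0 : 0 < S := by rw [hS]; positivity
  have h10 : 10 * a * S = q / 8 := by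
    rw [hS]
    calc 10 * a * (3 * (σ * q)) = 30 * (a * σ) * q := by ring
      _ = _ := by rw [haσ]; ring
  have hS5 : 5 * S ≤ q / 16 := by
    rw [hS]
    nlinarith
  -- the comparison
  have comp : ∀ W : V → V, WD R x W → CP a R e x W → ∀ η₁ η₂ : ℝ → ℝ, Bp (-S) S η₁ → Bp (-S) S η₂ →
      ∀ P P' : ℝ, 0 ≤ P → P + q / 8 ≤ P' → P' ≤ q → fl R e x W η₁ P ≤ fl R e x W η₂ P' := by
    intro W hW hcpW η₁ η₂ h1 h2 P P' hP hPP hP'
    have h3 := compare he ha hcpW hW hS0 hP h1 h2 (by rw [h10]; linarith)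
    rw [h10] at h3
    exact h3.trans (fl_mono ha hcpW hW.cont h2.cont h2.nn (by linarith) hPP)
  have bk : Bp (-S) S (tent 0 (σ * q)) := (tent_bp hσq).mono (by linarith) (by linarith)
  have bk1 : Bp (-S) S (tent 0 (σ * r (k + 1))) := by
    have h1 : r (k + 1) ≤ q := by
      rw [hrs, ← hq]
      nlinarith
    have h2 : σ * r (k + 1) ≤ σ * q := by gcongr
    exact (tent_bp (mul_pos hσ0 (hr0 _))).mono (by linarith) (by linarith)
  have bs2 : Bp (-S) S (tent s (2 * w)) := (tent_bp (by positivity)).mono (by linarith) (by linarith)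
  have bs1 : Bp (-S) S (tent s w) := (tent_bp hw).mono (by linarith) (by linarith)
  have hρq : ρ ≤ 4 * (lam * q) := by
    have h1 : lam ^ N ≤ lam ^ (k + 1) := pow_le_pow_of_le_one hlam0.le (by linarith) hkN
    calc ρ ≤ lam ^ N * R := hρN
      _ ≤ lam ^ (k + 1) * R := by gcongr
      _ = 4 * (lam * q) := by
        rw [hq, hr]
        simp only [pow_succ]
        ring
  have hlq : lam * q ≤ q / 64 := by nlinarith
  have hlq2 : lam * q = σ * q / 64 := by rw [hlam]; ring
  have hρR : ρ ≤ R := by linarith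
  have bρ : Bp (-S) S (tent 0 (4 * ρ)) := (tent_bp (by positivity)).mono (by linarith) (by linarith)
  have hsabs : |s| = s := abs_of_pos hs0
  constructor
  · -- the annulus
    have h1 := annulus (s := s) (w := w) (P := q / 4) (P' := q / 2) hvs hκ hcone hw (by positivity)
      (by linarith) (by rw [hsabs]; nlinarith)
    have h2 : fl R e x (sw v M e) (tent s (2 * w)) (q / 2) ≤ A k := by
      rw [hA]
      simp only
      rw [← hq]
      exact comp _ (hdf.wd R x) hcp _ _ bs2 bk _ _ (by positivity) (by linarith) le_rfl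
    have h3 : A (k + 1) ≤ fl R e x (sw v M e) (tent s (2 * w)) (q / 4) := by
      rw [hA]
      simp only
      refine comp _ (hdf.wd R x) hcp _ _ bk1 bs2 _ _ (hr0 _).le ?_ (by linarith)
      rw [hrs, ← hq]
      linarith
    have h4 : A 0 / N ≤ τ / (4 * a) := by
      rw [div_le_div_iff₀ (by linarith) (by positivity)]
      have h5 : 16 * a * (K + 8) / (σ * τ) ≤ N := by linarith
      rw [div_le_iff₀ (by positivity)] at h5
      have h6 : A 0 * (4 * a) ≤ 4 / σ * (K + 8) * (4 * a) := by gcongr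
      have h7 : 4 / σ * (K + 8) * (4 * a) ≤ τ * N := by
        rw [show 4 / σ * (K + 8) * (4 * a) = 16 * a * (K + 8) / σ by ring, div_le_iff₀ hσ0]
        linarith
      linarith
    rw [← hadef] at h1
    calc ∫ y in Disc e x s w (q / 2) \ Disc e x s w (q / 4), om v y
        ≤ 4 * a * w * (fl R e x (sw v M e) (tent s (2 * w)) (q / 2)
          - fl R e x (sw v M e) (tent s (2 * w)) (q / 4)) := h1
      _ ≤ 4 * a * w * (τ / (4 * a)) := by
          gcongr
          linarith
      _ = τ * w := by field_simp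
  · -- the disc
    have h1 := disc_flux (s := s) (w := w) (P := q / 4) hvs hκ hcone hw (by positivity)
      (by rw [hsabs]; nlinarith)
    have h2 : κ * η / 8 ≤ fl R e x (sw v M e) (tent s w) (q / 4) := by
      have h3 := conc_flux hvs hκ hcone hρ hρR
      have h4 : fl R e x (sw v M e) (tent 0 (4 * ρ)) (2 * ρ) ≤ fl R e x (sw v M e) (tent s w) (q / 4) :=
        comp _ (hdf.wd R x) hcp _ _ bρ bs1 _ _ (by positivity) (by linarith) (by linarith)
      calc κ * η / 8 = κ / (8 * ρ) * (η * ρ) := by field_simp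
        _ ≤ κ / (8 * ρ) * ∫ y in closedBall x ρ, om v y := by gcongr
        _ ≤ _ := h3.trans h4
    have h5 : fl R e x (fun _ => e) (tent s w) (q / 4) ≤ 64 * q ^ 2 / σ := by
      have h6 : fl R e x (fun _ => e) (tent s w) (q / 4) ≤ fl R e x (fun _ => e) (tent 0 (σ * q)) q :=
        comp _ ((const_df e).wd R x) hcpe _ _ bs1 bk _ _ (by positivity) (by linarith) le_rfl
      have h7 := fl_up (x := x) (Q := 2 * q) (R := R) ha hcpe continuous_const hσq he hq0.le
        (by nlinarith) (by linarith)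
      have h8 : ∫ y in closedBall x (2 * q), e ⬝ᵥ (fun _ : V => e) y = 64 * q ^ 3 := by
        simp only [he]
        rw [setIntegral_const, vol_ball x (by positivity), smul_eq_mul]
        ring
      rw [h8] at h7
      calc _ ≤ _ := h6
        _ ≤ _ := h7
        _ = _ := by field_simp
    have h9 : M * (64 * q ^ 2 / σ) ≤ κ * η / 16 := by
      have h10 : q ^ 2 ≤ (R / 4) ^ 2 := by gcongr
      calc M * (64 * q ^ 2 / σ) ≤ M * (64 * (R / 4) ^ 2 / σ) := by gcongr
        _ = 4 * (M * R ^ 2) / σ := by ring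
        _ ≤ 4 * (σ * κ / 64 * η) / σ := by gcongr
        _ = κ * η / 16 := by
          field_simp
          ring
    have h11 : M * fl R e x (fun _ => e) (tent s w) (q / 4) ≤ M * (64 * q ^ 2 / σ) := by gcongr
    calc σ * κ / 64 * η * w ≤ w * (κ * η / 16) := by
          have : σ * (κ * η * w) ≤ 1 * (κ * η * w) := by
            have : 0 ≤ κ * η * w := by positivity
            gcongr
            linarith
          have : 0 ≤ κ * η * w := by positivity
          linarith
      _ ≤ w * (fl R e x (sw v M e) (tent s w) (q / 4)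
          - M * fl R e x (fun _ => e) (tent s w) (q / 4)) := by
          gcongr
          linarith
      _ ≤ _ := h1

theorem pinchDL : StmPinchDL := by
  intro κ hκ hκ1
  obtain ⟨σ, hσ⟩ : ∃ σ, σ = κ / 240 := ⟨_, rfl⟩
  obtain ⟨lam, hlam⟩ : ∃ lam, lam = σ / 64 := ⟨_, rfl⟩
  obtain ⟨a, hadef⟩ : ∃ a, a = 1 / κ := ⟨_, rfl⟩
  have hσ0 : 0 < σ := by rw [hσ]; positivity
  have hlam0 : 0 < lam := by rw [hlam]; positivity
  have hσ1 : σ ≤ 1 / 240 := by rw [hσ]; linarith
  have hlam1 : lam ≤ 1 / 64 := by rw [hlam]; linarith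
  have ha : 0 < a := by rw [hadef]; positivity
  have haσ : a * σ = 1 / 240 := by rw [hadef, hσ]; field_simp
  have haκ : a * κ = 1 := by rw [hadef]; field_simp
  refine ⟨σ, lam, κ / 8, hσ0, by linarith, hlam0, by linarith, by positivity, by linarith, ?_⟩
  intro K η τ hK hη hη1 hτ hτ1
  obtain ⟨N, hN⟩ := exists_nat_ge (16 * a * (K + 8) / (σ * τ) + 1)
  refine ⟨N, ?_⟩
  intro v x e R ρ hv hR hR1 hcone hom hρ hρN hconc
  have hvs : ∀ i, ContDiff ℝ ∞ fun y => v y i := hv
  have hcf := uf_cf hvs hκ hR.le hcone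
  obtain ⟨W, hWdef⟩ : ∃ W, W = uf e x R v := ⟨_, rfl⟩
  rw [← hWdef] at hcf
  have he := hcf.unit
  have hdf := hcf.wd
  have hcp : CP a R e x W := by rw [hadef]; exact hcf.cp hκ
  have hN1 : (1 : ℝ) ≤ N := by
    have : 0 ≤ 16 * a * (K + 8) / (σ * τ) := by positivity
    linarith
  -- the fluxes
  obtain ⟨r, hr⟩ : ∃ r : ℕ → ℝ, r = fun k => lam ^ k * (R / 4) := ⟨_, rfl⟩
  obtain ⟨A, hA⟩ : ∃ A : ℕ → ℝ, A = fun k => fl R e x W (tent 0 (σ * r k)) (r k) := ⟨_, rfl⟩
  have hr0 : ∀ k, 0 < r k := fun k => by rw [hr]; positivity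
  have hrR : ∀ k, r k ≤ R / 4 := by
    intro k
    rw [hr]
    have : lam ^ k ≤ 1 := pow_le_one₀ hlam0.le (by linarith)
    simp only
    nlinarith
  have hrs : ∀ k, r (k + 1) = lam * r k := by
    intro k
    rw [hr]
    simp only [pow_succ]
    ring
  have hA0 : A 0 ≤ 4 / σ * (K + 8) := by
    have h1 : A 0 ≤ 1 / (σ * r 0) * ∫ y in closedBall x R, e ⬝ᵥ W y := by
      rw [hA]
      refine fl_up ha hcp hdf.cont (mul_pos hσ0 (hr0 0)) he (hr0 0).le ?_ le_rfl
      have := hrR 0
      nlinarith [hr0 0]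
    have h2 : ∫ y in closedBall x R, e ⬝ᵥ W y ≤ K * R := by
      refine le_trans ?_ (hom R hR le_rfl)
      refine setIntegral_mono_on (int_cont (continuous_const.dotProduct hdf.cont) x R)
        (int_cont (om_cont hvs) x R) isClosed_closedBall.measurableSet
        fun y hy => ?_
      exact hcf.up y hy e (by rw [he])
    have h5 : r 0 = R / 4 := by rw [hr]; simp
    calc A 0 ≤ 1 / (σ * r 0) * (K * R) := by
          refine h1.trans ?_
          have := hr0 0
          gcongr
      _ = 4 / σ * K := by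
          rw [h5]
          field_simp
      _ ≤ 4 / σ * (K + 8) := by
          gcongr
          linarith
  have hAn : ∀ k, 0 ≤ A k := by
    intro k
    rw [hA]
    exact fl_nonneg ha hcp (tent_bp (mul_pos hσ0 (hr0 k))).nn _
  obtain ⟨k, hkN, hk⟩ : ∃ k < N, A k - A (k + 1) ≤ A 0 / N := by
    by_contra hc
    push Not at hc
    have h1 : ∑ k ∈ Finset.range N, (A k - A (k + 1)) = A 0 - A N := Finset.sum_range_sub' A N
    have hN0 : 0 < N := by
      by_contra h
      have : N = 0 := by omega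
      rw [this] at hN1
      norm_num at hN1
    have h2 : ∑ k ∈ Finset.range N, A 0 / (N : ℝ) < ∑ k ∈ Finset.range N, (A k - A (k + 1)) :=
      Finset.sum_lt_sum_of_nonempty ⟨0, Finset.mem_range.2 hN0⟩ fun k hk =>
        hc k (Finset.mem_range.1 hk)
    rw [h1, Finset.sum_const, Finset.card_range, nsmul_eq_mul] at h2
    have h3 : (N : ℝ) * (A 0 / N) = A 0 := by field_simp
    rw [h3] at h2
    linarith [hAn N]
  refine ⟨k, hkN, ?_⟩
  intro s w hs1 hs2 hw hw1
  have ek : lam ^ k * (R / 4) = r k := by rw [hr]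
  rw [ek] at hs1 hs2 hw1 ⊢
  obtain ⟨q, hq⟩ : ∃ q, q = r k := ⟨_, rfl⟩
  rw [← hq] at hs1 hs2 hw1 ⊢
  have hq0 : 0 < q := by rw [hq]; exact hr0 k
  have hqR : q ≤ R / 4 := by rw [hq]; exact hrR k
  have hσq : 0 < σ * q := mul_pos hσ0 hq0
  have hs0 : 0 < s := hσq.trans_le hs1
  obtain ⟨S, hS⟩ : ∃ S, S = 3 * (σ * q) := ⟨_, rfl⟩
  have hS0 : 0 < S := by rw [hS]; positivity
  have h10 : 10 * a * S = q / 8 := by
    rw [hS]
    calc 10 * a * (3 * (σ * q)) = 30 * (a * σ) * q := by ring
      _ = _ := by rw [haσ]; ring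
  have hS5 : 5 * S ≤ q / 16 := by
    rw [hS]
    nlinarith
  -- the comparison
  have comp : ∀ η₁ η₂ : ℝ → ℝ, Bp (-S) S η₁ → Bp (-S) S η₂ →
      ∀ P P' : ℝ, 0 ≤ P → P + q / 8 ≤ P' → P' ≤ q → fl R e x W η₁ P ≤ fl R e x W η₂ P' := by
    intro η₁ η₂ h1 h2 P P' hP hPP hP'
    have h3 := compare he ha hcp hdf hS0 hP h1 h2 (by rw [h10]; linarith)
    rw [h10] at h3
    exact h3.trans (fl_mono ha hcp hdf.cont h2.cont h2.nn (by linarith) hPP)
  have bk : Bp (-S) S (tent 0 (σ * q)) := (tent_bp hσq).mono (by linarith) (by linarith)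
  have bk1 : Bp (-S) S (tent 0 (σ * r (k + 1))) := by
    have h1 : r (k + 1) ≤ q := by
      rw [hrs, ← hq]
      nlinarith
    have h2 : σ * r (k + 1) ≤ σ * q := by gcongr
    exact (tent_bp (mul_pos hσ0 (hr0 _))).mono (by linarith) (by linarith)
  have bs2 : Bp (-S) S (tent s (2 * w)) := (tent_bp (by positivity)).mono (by linarith) (by linarith)
  have bs1 : Bp (-S) S (tent s w) := (tent_bp hw).mono (by linarith) (by linarith)
  have hρq : ρ ≤ 4 * (lam * q) := by
    have h1 : lam ^ N ≤ lam ^ (k + 1) := pow_le_pow_of_le_one hlam0.le (by linarith) hkN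
    calc ρ ≤ lam ^ N * R := hρN
      _ ≤ lam ^ (k + 1) * R := by gcongr
      _ = 4 * (lam * q) := by
        rw [hq, hr]
        simp only [pow_succ]
        ring
  have hlq : lam * q ≤ q / 64 := by nlinarith
  have hlq2 : lam * q = σ * q / 64 := by rw [hlam]; ring
  have hρR : ρ ≤ R := by linarith
  have bρ : Bp (-S) S (tent 0 (4 * ρ)) := (tent_bp (by positivity)).mono (by linarith) (by linarith)
  have hsabs : |s| = s := abs_of_pos hs0
  constructor
  · -- the annulus
    have h1 := hcf.annulus (s := s) (w := w) (P := q / 4) (P' := q / 2) hvs hκ hw (by positivity)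
      (by linarith) (by rw [hsabs]; nlinarith)
    have h2 : fl R e x W (tent s (2 * w)) (q / 2) ≤ A k := by
      rw [hA]
      simp only
      rw [← hq]
      exact comp _ _ bs2 bk _ _ (by positivity) (by linarith) le_rfl
    have h3 : A (k + 1) ≤ fl R e x W (tent s (2 * w)) (q / 4) := by
      rw [hA]
      simp only
      refine comp _ _ bk1 bs2 _ _ (hr0 _).le ?_ (by linarith)
      rw [hrs, ← hq]
      linarith
    have h4 : A 0 / N ≤ τ / (4 * a) := by
      rw [div_le_div_iff₀ (by linarith) (by positivity)]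
      have h5 : 16 * a * (K + 8) / (σ * τ) ≤ N := by linarith
      rw [div_le_iff₀ (by positivity)] at h5
      have h6 : A 0 * (4 * a) ≤ 4 / σ * (K + 8) * (4 * a) := by gcongr
      have h7 : 4 / σ * (K + 8) * (4 * a) ≤ τ * N := by
        rw [show 4 / σ * (K + 8) * (4 * a) = 16 * a * (K + 8) / σ by ring, div_le_iff₀ hσ0]
        linarith
      linarith
    rw [← hadef] at h1
    calc ∫ y in Disc e x s w (q / 2) \ Disc e x s w (q / 4), om v y
        ≤ 4 * a * w * (fl R e x W (tent s (2 * w)) (q / 2)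
          - fl R e x W (tent s (2 * w)) (q / 4)) := h1
      _ ≤ 4 * a * w * (τ / (4 * a)) := by
          gcongr
          linarith
      _ = τ * w := by field_simp
  · -- the disc
    have h1 := hcf.disc_flux (s := s) (w := w) (P := q / 4) hvs hw (by positivity)
      (by rw [hsabs]; nlinarith)
    have h2 : κ * η / 8 ≤ fl R e x W (tent s w) (q / 4) := by
      have h3 := hcf.conc_flux hvs hκ hρ hρR
      have h4 : fl R e x W (tent 0 (4 * ρ)) (2 * ρ) ≤ fl R e x W (tent s w) (q / 4) :=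
        comp _ _ bρ bs1 _ _ (by positivity) (by linarith) (by linarith)
      calc κ * η / 8 = κ / (8 * ρ) * (η * ρ) := by field_simp
        _ ≤ κ / (8 * ρ) * ∫ y in closedBall x ρ, om v y := by gcongr
        _ ≤ _ := h3.trans h4
    calc κ / 8 * η * w = w * (κ * η / 8) := by ring
      _ ≤ w * fl R e x W (tent s w) (q / 4) := by gcongr
      _ ≤ _ := h1

theorem morDL : StmMorDL := by
  intro κ hκ hκ1
  obtain ⟨a, hadef⟩ : ∃ a, a = 1 / κ := ⟨_, rfl⟩
  obtain ⟨σ, hσ⟩ : ∃ σ, σ = κ / 240 := ⟨_, rfl⟩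
  have hσ0 : 0 < σ := by rw [hσ]; positivity
  have hσ1 : σ ≤ 1 / 240 := by rw [hσ]; linarith
  have ha : 0 < a := by rw [hadef]; positivity
  have haσ : a * σ = 1 / 240 := by rw [hadef, hσ]; field_simp
  refine ⟨32 / (κ * σ), σ / 16, by positivity, by positivity, by linarith, ?_⟩
  intro v x e R hv hR hcone ρ hρ hρR'
  have hvs : ∀ i, ContDiff ℝ ∞ fun y => v y i := hv
  have hcf := uf_cf hvs hκ hR.le hcone
  obtain ⟨W, hWdef⟩ : ∃ W, W = uf e x R v := ⟨_, rfl⟩
  rw [← hWdef] at hcf
  have he := hcf.unit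
  have hdf := hcf.wd
  have hcp : CP a R e x W := by rw [hadef]; exact hcf.cp hκ
  obtain ⟨q, hq⟩ : ∃ q, q = R / 4 := ⟨_, rfl⟩
  have hq0 : 0 < q := by rw [hq]; positivity
  have hσq : 0 < σ * q := mul_pos hσ0 hq0
  have hρq : 4 * ρ ≤ σ * q := by
    rw [hq]
    linarith
  obtain ⟨S, hS⟩ : ∃ S, S = 3 * (σ * q) := ⟨_, rfl⟩
  have hS0 : 0 < S := by rw [hS]; positivity
  have h10 : 10 * a * S = q / 8 := by
    rw [hS]
    calc 10 * a * (3 * (σ * q)) = 30 * (a * σ) * q := by ring
      _ = _ := by rw [haσ]; ring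
  have hS5 : 5 * S ≤ q / 16 := by
    rw [hS]
    nlinarith
  have hσq2 : σ * q ≤ q / 240 := by nlinarith
  have bk : Bp (-S) S (tent 0 (σ * q)) := (tent_bp hσq).mono (by linarith) (by linarith)
  have bρ : Bp (-S) S (tent 0 (4 * ρ)) := (tent_bp (by positivity)).mono (by linarith) (by linarith)
  have h3 := compare he ha hcp hdf hS0 (P := 2 * ρ) (by positivity) bρ bk
    (by rw [h10]; linarith)
  rw [h10] at h3
  have h4 := h3.trans (fl_mono ha hcp hdf.cont bk.cont bk.nn (by positivity)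
    (show 2 * ρ + q / 8 ≤ q by linarith))
  have h5 := hcf.conc_flux hvs hκ hρ (by linarith)
  have h6 := fl_up (x := x) (Q := R) (R := R) ha hcp hdf.cont hσq he hq0.le (by linarith) le_rfl
  have h7 : ∫ y in closedBall x R, e ⬝ᵥ W y ≤ ∫ y in closedBall x R, om v y := by
    refine setIntegral_mono_on (int_cont (continuous_const.dotProduct hdf.cont) x R)
      (int_cont (om_cont hvs) x R) isClosed_closedBall.measurableSet
      fun y hy => ?_
    exact hcf.up y hy e (by rw [he])
  have h8 : κ / (8 * ρ) * (∫ y in closedBall x ρ, om v y)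
      ≤ 1 / (σ * q) * ∫ y in closedBall x R, om v y := by
    refine (h5.trans (h4.trans h6)).trans ?_
    gcongr
  calc ∫ y in closedBall x ρ, om v y
      = (8 * ρ / κ) * (κ / (8 * ρ) * (∫ y in closedBall x ρ, om v y)) := by field_simp
    _ ≤ (8 * ρ / κ) * (1 / (σ * q) * ∫ y in closedBall x R, om v y) := by gcongr
    _ = 32 / (κ * σ) * (ρ / R) * ∫ y in closedBall x R, om v y := by
      rw [hq]
      field_simp
      ring

end Pool.Agent.Q85.CL
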