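import Pool.Agent.Q85.CL.Assem3
import Pool.Agent.Q85.CL.En
import Pool.Agent.Q85.CL.PinchL
import Pool.Agent.Q284.CL.Vel
import Pool.Agent.Q81.CL.Dec
import Pool.Agent.Q2.CL.LEL
import Pool.Agent.Q16.CL.FlxL
import Pool.Agent.Q81.CC.Near
import Pool.Agent.Q95.CL.Reg
import Pool.Agent.Q95.CL.GoodL
import Pool.Agent.Q128.CC.Ana
import Pool.Agent.Q81.CL.L1

/-!
Project CL: all the parts together.
-/

set_option autoImplicit false

open MeasureTheory Set Metric Filter Topology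
open H459R3.NS Pool.Agent.W268.NS Pool.Agent.Q67.VD

namespace Pool.Agent.Q85.CL

open Pool.Agent.Q85.CC

theorem stmFlxL : StmFlxL :=
  Pool.Agent.Q16.CL.flxL Pool.Agent.Q284.CL.velL Pool.Agent.Q81.CC.near Pool.Agent.Q81.CL.decL

theorem stmEnL : StmEnL := enL stmFlxL Pool.Agent.Q2.CL.lel

theorem stmEnS : StmEnS := enS stmFlxL Pool.Agent.Q2.CL.lel

theorem stmHalfL : StmHalfL :=
  halfL Pool.Agent.Q284.CL.velL stmEnL stmEnS Pool.Agent.Q95.CL.regK Pool.Agent.Q95.CL.goodL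
    Pool.Agent.Q128.CC.ana pinchL

theorem stmDblL : StmDblL :=
  dblL Pool.Agent.Q284.CL.velL stmEnL stmEnS Pool.Agent.Q95.CL.regK Pool.Agent.Q95.CL.goodL
    Pool.Agent.Q128.CC.ana pinchDL morDL Pool.Agent.Q81.CL.l1L

theorem stmDblM : StmDblM :=
  dblM Pool.Agent.Q284.CL.velL stmEnL stmEnS Pool.Agent.Q95.CL.regK Pool.Agent.Q95.CL.goodL
    Pool.Agent.Q128.CC.ana pinchDL morDL Pool.Agent.Q81.CL.l1L

end Pool.Agent.Q85.CL
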