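import Pool.Agent.Q85.CL.FluxL
import Pool.Agent.Q85.CC.Vol
import Pool.Agent.Q95.CL.Reg

/-!
Project CL: the assembly of the parts, in a form which serves the single and the double cone.
-/

set_option autoImplicit false

open MeasureTheory Set Metric Filter Topology
open scoped ContDiff
open H459R3.NS Pool.Agent.W268.NS Pool.Agent.Q67.VD

namespace Pool.Agent.Q85.CL

open Pool.Agent.Q85.CC

lemma om_nnL (v : V → V) (x : V) : 0 ≤ om v x := Real.sqrt_nonneg _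

lemma nsq_nnL (v : V → V) (x : V) : 0 ≤ W221.NS.nsq v x :=
  Finset.sum_nonneg fun _ _ => sq_nonneg _

lemma abs_omL (v : V → V) (x : V) (s : ℝ) :
    ∫ y in closedBall x s, |om v y| = ∫ y in closedBall x s, om v y := by
  congr 1
  funext y
  exact abs_of_nonneg (om_nnL _ _)

lemma slice_u {T : ℝ} {O : Set V} {u : ℝ → V → V} {p : ℝ → V → ℝ} (h : LEq T O u p) {t : ℝ}
    (ht : t ∈ Ioo 0 T) : SM (u t) := by
  intro i
  have h1 : ContDiffOn ℝ ∞ (fun y : V => u t y i) univ := by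
    have h2 : ContDiffOn ℝ ∞ (fun z : ℝ × V => u z.1 z.2 i) (Ioo 0 T ×ˢ univ) :=
      (contDiff_apply ℝ ℝ i).comp_contDiffOn h.smooth_u
    exact h2.comp (f := fun y : V => (t, y)) (by fun_prop) fun y _ => ⟨ht, mem_univ _⟩
  exact contDiffOn_univ.1 h1

/-- The outcome of the pinching argument. -/
def Pin (T₀ T : ℝ) (a : V) (ρ₀ : ℝ) (u : ℝ → V → V) : Prop :=
  ∃ σ lam c : ℝ, 0 < σ ∧ σ ≤ 1 / 8 ∧ 0 < lam ∧ lam ≤ 1 / 2 ∧ 0 < c ∧ c ≤ 1 ∧
    ∀ η τ : ℝ, 0 < η → η ≤ 1 → 0 < τ → τ ≤ 1 → ∃ (N : ℕ) (S₀ : ℝ), 0 < S₀ ∧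
      ∀ t ∈ Ioo T₀ T, ∀ x ∈ closedBall a (ρ₀ / 2), ∀ S ρ : ℝ, 0 < S → S ≤ S₀ → 0 < ρ →
        ρ ≤ lam ^ N * S → η * ρ ≤ ∫ y in closedBall x ρ, om (u t) y →
        ∃ e : V, e ⬝ᵥ e = 1 ∧ ∃ k < N, ∀ s w : ℝ, σ * (lam ^ k * (S / 4)) ≤ s →
          s ≤ 2 * σ * (lam ^ k * (S / 4)) → 0 < w → w ≤ σ * (lam ^ k * (S / 4)) / 4 →
            (∫ y in Disc e x s w (lam ^ k * (S / 4) / 2) \ Disc e x s w (lam ^ k * (S / 4) / 4),
              om (u t) y ≤ τ * w) ∧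
            c * η * w ≤ ∫ y in Disc e x s w (lam ^ k * (S / 4) / 4), om (u t) y

set_option maxHeartbeats 1600000 in
theorem assemL (hVel : StmVelL) (hEn : StmEnL) (hEnS : StmEnS) (hReg : Pool.Agent.Q95.CL.StmRegK)
    (hGood : StmGoodL) (hAna : StmAna) {T E : ℝ} {O : Set V} {u : ℝ → V → V} {p : ℝ → V → ℝ}
    (hT : 0 < T) (hu : LSl T E O u p) {T₀ K ρ₀ : ℝ} {a : V} (hT₀ : 0 ≤ T₀) (hT₀T : T₀ < T)
    (hK : 0 < K) (hρ₀ : 0 < ρ₀) (hO : closedBall a ρ₀ ⊆ O)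
    (hMor : ∀ t ∈ Ioo T₀ T, MorB K a ρ₀ (om (u t))) (hP : Pin T₀ T a ρ₀ u) :
    ∃ B δ : ℝ, 0 < δ ∧ ∀ t ∈ Ioo (T - δ) T, 0 < t → ∀ x ∈ closedBall a δ, ‖u t x‖ ≤ B := by
  obtain ⟨CV, hCV, hVel⟩ := hVel
  obtain ⟨cG, hcG, hGood⟩ := hGood
  by_contra hcon
  have hIoo : ∀ t ∈ Ioo T₀ T, t ∈ Ioo 0 T := fun t ht => ⟨hT₀.trans_lt ht.1, ht.2⟩
  have hE0 : 0 ≤ E := by
    have h1 : (T₀ + T) / 2 ∈ Ioo 0 T := ⟨by linarith, by linarith⟩
    exact (integral_nonneg fun y => nsq_nnL _ _).trans (hu.en _ h1)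
  -- the dissipation
  obtain ⟨C₁, r₁, hC₁, hr₁, hdis⟩ := hEn T E O u p hT hu T₀ K ρ₀ a hT₀ hT₀T hK hρ₀ hO hMor
  -- the mollified velocity
  obtain ⟨KV, hKVd⟩ : ∃ KV, KV = CV * (K + √(E / ρ₀ ^ 3)) := ⟨_, rfl⟩
  have hKV : 0 ≤ KV := by rw [hKVd]; positivity
  have hmol : ∀ τ ∈ Ioo T₀ T, ∀ y, ‖y - a‖ ≤ ρ₀ / 2 → ∀ ρ, 0 < ρ → ρ ≤ ρ₀ / 4 → ρ ≤ 1 →
      ‖W221.NS.mol ρ u τ y‖ ≤ KV / ρ := by
    intro τ hτ y hy ρ hρ hρR hρ1
    have hτI := hIoo τ hτ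
    rw [pi_norm_le_iff_of_nonneg (by positivity)]
    intro i
    have h1 := (hVel (u τ) a K ρ₀ ρ (slice_u hu.toLEq hτI)
      (fun x hx => hu.divfree τ hτI x (hO (ball_subset_closedBall hx))) hK.le hρ hρR
      (hMor τ hτ) y hy i).2
    rw [Real.norm_eq_abs]
    refine h1.trans ?_
    rw [hKVd, mul_div_assoc]
    refine mul_le_mul_of_nonneg_left ?_ hCV.le
    rw [add_div]
    have henb : ∫ z in closedBall a ρ₀, W221.NS.nsq (u τ) z ≤ E :=
      (setIntegral_mono_set (hu.en_int τ hτI) (Eventually.of_forall fun y => nsq_nnL _ _)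
        hO.eventuallyLE).trans (hu.en τ hτI)
    have h2 : √((∫ z in closedBall a ρ₀, W221.NS.nsq (u τ) z) / ρ₀ ^ 3) ≤ √(E / ρ₀ ^ 3) :=
      Real.sqrt_le_sqrt (div_le_div_of_nonneg_right henb (by positivity))
    have h3 : √(E / ρ₀ ^ 3) ≤ √(E / ρ₀ ^ 3) / ρ := by
      rw [le_div_iff₀ hρ]
      exact mul_le_of_le_one_right (Real.sqrt_nonneg _) hρ1
    linarith
  obtain ⟨ε, hε, hReg⟩ := hReg KV hKV
  obtain ⟨cS, hcS, hSmall⟩ := hEnS ε hε
  -- the constants of the parts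
  obtain ⟨σ, lam, cP, hσ, hσ8, hlam, hlam2, hcP, hcP1, hPin⟩ := hP
  obtain ⟨h, L, hh, hh1, hL, hGood⟩ := hGood KV C₁ σ hKV hC₁ hσ (by linarith)
  obtain ⟨r₀, hr₀, hGood⟩ := hGood T E O u p hT hu a ρ₀ hρ₀ hO
  obtain ⟨η, hηd⟩ : ∃ η, η = min cS 1 := ⟨_, rfl⟩
  have hη : 0 < η := by rw [hηd]; exact lt_min hcS one_pos
  have hη1 : η ≤ 1 := by rw [hηd]; exact min_le_right _ _
  have hηc : η ≤ cS := by rw [hηd]; exact min_le_left _ _
  obtain ⟨τ, w₀, hτ, hw₀, hw₀h, hAna⟩ := hAna cG h (cP * η / 8) hcG hh hh1 (by positivity)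
  obtain ⟨τ', hτ'd⟩ : ∃ τ', τ' = min τ 1 := ⟨_, rfl⟩
  have hτ' : 0 < τ' := by rw [hτ'd]; exact lt_min hτ one_pos
  have hτ'1 : τ' ≤ 1 := by rw [hτ'd]; exact min_le_right _ _
  have hτ'τ : τ' ≤ τ := by rw [hτ'd]; exact min_le_left _ _
  obtain ⟨N, S₀, hS₀, hPin⟩ := hPin η τ' hη hη1 hτ' hτ'1
  -- the large scale
  have hL0 : 0 < L := by linarith
  obtain ⟨S, hSd⟩ : ∃ S, S = min (min S₀ (min (ρ₀ / 4) 1)) (min r₀ (min (r₁ / L)
    ((T - T₀) / (2 * L)))) := ⟨_, rfl⟩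
  have hS : 0 < S := by
    rw [hSd]
    refine lt_min (lt_min hS₀ (lt_min (by positivity) one_pos)) (lt_min hr₀ (lt_min (by positivity)
      ?_))
    exact div_pos (by linarith) (by positivity)
  have hS0 : S ≤ S₀ := by rw [hSd]; exact (min_le_left _ _).trans (min_le_left _ _)
  have hS1 : S ≤ ρ₀ / 4 := by
    rw [hSd]; exact (min_le_left _ _).trans ((min_le_right _ _).trans (min_le_left _ _))
  have hSle1 : S ≤ 1 := by
    rw [hSd]; exact (min_le_left _ _).trans ((min_le_right _ _).trans (min_le_right _ _))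
  have hS2 : S ≤ r₀ := by rw [hSd]; exact (min_le_right _ _).trans (min_le_left _ _)
  have hS3 : S ≤ r₁ / L := by
    rw [hSd]; exact (min_le_right _ _).trans ((min_le_right _ _).trans (min_le_left _ _))
  have hS4 : S ≤ (T - T₀) / (2 * L) := by
    rw [hSd]; exact (min_le_right _ _).trans ((min_le_right _ _).trans (min_le_right _ _))
  -- concentration
  obtain ⟨ρ', hρ'd⟩ : ∃ ρ', ρ' = min (lam ^ N * S) (ρ₀ / 4) := ⟨_, rfl⟩
  have hρ' : 0 < ρ' := by rw [hρ'd]; exact lt_min (by positivity) (by positivity)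
  have hρ'1 : ρ' ≤ lam ^ N * S := by rw [hρ'd]; exact min_le_left _ _
  have hρ'2 : ρ' ≤ ρ₀ / 4 := by rw [hρ'd]; exact min_le_right _ _
  obtain ⟨T₁, hT₁d⟩ : ∃ T₁, T₁ = max ((T₀ + T) / 2) (T / 2) := ⟨_, rfl⟩
  have hT₁1 : (T₀ + T) / 2 ≤ T₁ := by rw [hT₁d]; exact le_max_left _ _
  have hT₁2 : T / 2 ≤ T₁ := by rw [hT₁d]; exact le_max_right _ _
  have hT₁T : T₁ < T := by rw [hT₁d]; exact max_lt (by linarith) (by linarith)
  have hex : ∃ t, T₁ < t ∧ t < T ∧ ∃ x ρ, 0 < ρ ∧ ‖x - a‖ + ρ ≤ ρ' ∧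
      η * ρ ≤ ∫ y in closedBall x ρ, om (u t) y := by
    by_contra hno
    push Not at hno
    obtain ⟨r₂, hr₂, hsm⟩ := hSmall T E O u p hT hu T₁ ρ' a (by linarith) hT₁T hρ'
      ((closedBall_subset_closedBall (by linarith)).trans hO) (by
        intro t ht x r hr hxr
        have h1 := hno t ht.1 ht.2 x r hr hxr
        rw [abs_omL]
        exact h1.le.trans (mul_le_mul_of_nonneg_right hηc hr.le))
    obtain ⟨r₃, hr₃d⟩ : ∃ r₃, r₃ = min r₂ (min (ρ₀ / 4) 1) := ⟨_, rfl⟩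
    have hr₃ : 0 < r₃ := by rw [hr₃d]; exact lt_min hr₂ (lt_min (by positivity) one_pos)
    have hr₃2 : r₃ ≤ r₂ := by rw [hr₃d]; exact min_le_left _ _
    have hr₃3 : r₃ ≤ ρ₀ / 4 := by rw [hr₃d]; exact (min_le_right _ _).trans (min_le_left _ _)
    have hr₃4 : r₃ ≤ 1 := by rw [hr₃d]; exact (min_le_right _ _).trans (min_le_right _ _)
    obtain ⟨B, δ, hδ, hbd⟩ := hReg T E O u p hT hu ((T₁ + T) / 2) r₃ (ρ' / 2) a
      (by linarith) (by linarith) hr₃ (by positivity)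
      ((closedBall_subset_closedBall (by linarith)).trans hO)
      (fun t ht x hx r hr => hmol t ⟨by linarith [ht.1], ht.2⟩ x (by
        rw [mem_closedBall, dist_eq_norm] at hx
        linarith) r hr.1 (hr.2.trans hr₃3) (hr.2.trans hr₃4))
      (fun t ht x hx r hr => hsm t ht x hx r ⟨hr.1, hr.2.trans hr₃2⟩)
    refine hcon ⟨B, min δ (ρ' / 4), lt_min hδ (by positivity), fun t ht ht0 x hx => ?_⟩
    refine hbd t ⟨?_, ht.2⟩ ht0 x (closedBall_subset_closedBall ?_ hx)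
    · linarith [ht.1, min_le_left δ (ρ' / 4)]
    · linarith [min_le_right δ (ρ' / 4)]
  obtain ⟨t, ht1, ht2, x, ρ, hρ, hxρ, hconc⟩ := hex
  have htT : t ∈ Ioo T₀ T := ⟨by linarith, ht2⟩
  have hxa : ‖x - a‖ ≤ ρ₀ / 4 := by linarith
  have hρρ' : ρ ≤ ρ' := by linarith [norm_nonneg (x - a)]
  have hsm := slice_u hu.toLEq (hIoo t htT)
  -- the cone
  obtain ⟨e, hee, k, hk, hpin⟩ := hPin t htT x (by
    rw [mem_closedBall, dist_eq_norm]
    linarith) S ρ hS hS0 hρ (hρρ'.trans hρ'1) hconc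
  -- the scale
  obtain ⟨r, hrd⟩ : ∃ r, r = lam ^ k * (S / 4) := ⟨_, rfl⟩
  rw [← hrd] at hpin
  have hr : 0 < r := by rw [hrd]; positivity
  have hrS : r ≤ S := by
    rw [hrd]
    have h1 : lam ^ k ≤ 1 := pow_le_one₀ hlam.le (by linarith)
    have h2 : lam ^ k * (S / 4) ≤ 1 * (S / 4) := mul_le_mul_of_nonneg_right h1 (by positivity)
    linarith
  have hr1 : r ≤ 1 := hrS.trans hSle1
  have hLr : L * r ≤ r₁ := by
    rw [le_div_iff₀ hL0] at hS3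
    have h2 : L * r ≤ L * S := mul_le_mul_of_nonneg_left hrS hL0.le
    linarith
  have hLr2 : L * r ^ 2 ≤ (T - T₀) / 2 := by
    rw [le_div_iff₀ (by positivity)] at hS4
    have h1 : r ^ 2 ≤ r := pow_le_of_le_one hr.le hr1 two_ne_zero
    have h2 : L * r ^ 2 ≤ L * S := mul_le_mul_of_nonneg_left (h1.trans hrS) hL0.le
    linarith
  have hball : ∀ y ∈ closedBall x (ρ₀ / 4), ‖y - a‖ ≤ ρ₀ / 2 := by
    intro y hy
    have h1 : ‖y - a‖ ≤ ‖y - x‖ + ‖x - a‖ := by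
      have e1 : y - a = (y - x) + (x - a) := by abel
      rw [e1]
      exact norm_add_le _ _
    rw [mem_closedBall, dist_eq_norm] at hy
    linarith
  obtain ⟨s, hs, hgd⟩ := hGood t r x e hr (hrS.trans hS2) (by linarith) ht2 (by linarith) hee
    (fun τ hτ y hy ρ hρ => hmol τ ⟨by linarith [hτ.1], hτ.2.trans ht2⟩ y (hball y hy) ρ hρ.1
      (hρ.2.trans (hrS.trans hS1)) (hρ.2.trans hr1))
    (fun y hy ρ hρ => hdis t ⟨by linarith, ht2⟩ y (by
      rw [mem_closedBall, dist_eq_norm]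
      exact hball y hy) ρ ⟨hρ.1, hρ.2.trans hLr⟩)
  -- the slab
  obtain ⟨w, hwd⟩ : ∃ w, w = min (w₀ * r) (σ * r / 4) := ⟨_, rfl⟩
  have hw : 0 < w := by rw [hwd]; exact lt_min (by positivity) (by positivity)
  have hw1 : w ≤ w₀ * r := by rw [hwd]; exact min_le_left _ _
  have hw2 : w ≤ σ * r / 4 := by rw [hwd]; exact min_le_right _ _
  have hwr : w ≤ r / 4 := by
    have h2 : σ * r ≤ 1 / 8 * r := mul_le_mul_of_nonneg_right hσ8 hr.le
    linarith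
  obtain ⟨hann, hflux⟩ := hpin s w hs.1 hs.2 hw hw2
  have hsml := hAna (u t) x e r s hsm hee hr
    (fun y hy hyr => hgd y hy (hyr.trans (by
      exact pow_le_pow_left₀ (by positivity) (by linarith) 2))) w hw hw1
    (hann.trans (mul_le_mul_of_nonneg_right hτ'τ hw.le))
  have hvol := vol_disc e x s w (r / 4) hee hw.le hwr
  have hfin : volume (Disc e x s w (r / 4)) < ⊤ := hvol.trans_lt ENNReal.ofReal_lt_top
  have hint : ∫ y in Disc e x s w (r / 4), om (u t) y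
      ≤ cP * η / 8 / r ^ 2 * (volume (Disc e x s w (r / 4))).toReal := by
    have h1 := norm_setIntegral_le_of_norm_le_const (μ := volume) (s := Disc e x s w (r / 4))
      (f := om (u t)) (C := cP * η / 8 / r ^ 2) hfin
      (fun y hy => by rw [Real.norm_eq_abs, abs_of_nonneg (om_nnL _ _)]; exact hsml y hy)
    exact (Real.le_norm_self _).trans h1
  have hvr : (volume (Disc e x s w (r / 4))).toReal ≤ 64 * (r / 4) ^ 2 * w :=
    ENNReal.toReal_le_of_le_ofReal (by positivity) hvol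
  have hfinal : ∫ y in Disc e x s w (r / 4), om (u t) y ≤ cP * η * w / 2 := by
    refine hint.trans ((mul_le_mul_of_nonneg_left hvr (by positivity)).trans (le_of_eq ?_))
    field_simp
    ring
  have hpos : 0 < cP * η * w := by positivity
  linarith

lemma om_nonneg' (v : V → V) (x : V) : 0 ≤ om v x := om_nnL v x

lemma Cone.monoL {κ κ' M R R' : ℝ} {e x x' : V} {v : V → V} (h : Cone κ M R e x v)
    (hκ : κ' ≤ κ) (hR : ‖x' - x‖ + R' ≤ R) : Cone κ' M R' e x' v := by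
  refine ⟨h.1, fun y hy => (mul_le_mul_of_nonneg_right hκ (om_nnL _ _)).trans (h.2 y ?_)⟩
  have e1 : y - x = (y - x') + (x' - x) := by abel
  rw [e1]
  exact (norm_add_le _ _).trans (by linarith)

theorem halfL (hVel : StmVelL) (hEn : StmEnL) (hEnS : StmEnS) (hReg : Pool.Agent.Q95.CL.StmRegK)
    (hGood : StmGoodL) (hAna : StmAna) (hPinch : StmPinchL) : StmHalfL := by
  intro T E O u p hT hu T₀ κ₀ M R₀ a hT₀ hT₀T hκ₀ hM hR₀ hO hcone₀
  obtain ⟨CF, hCF, hFlux⟩ := fluxL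
  obtain ⟨κ, hκd⟩ : ∃ κ, κ = min κ₀ 1 := ⟨_, rfl⟩
  have hκ : 0 < κ := by rw [hκd]; exact lt_min hκ₀ one_pos
  have hκ1 : κ ≤ 1 := by rw [hκd]; exact min_le_right _ _
  have hκκ : κ ≤ κ₀ := by rw [hκd]; exact min_le_left _ _
  obtain ⟨R, hRd⟩ : ∃ R, R = min R₀ 1 := ⟨_, rfl⟩
  have hR : 0 < R := by rw [hRd]; exact lt_min hR₀ one_pos
  have hR1 : R ≤ 1 := by rw [hRd]; exact min_le_right _ _
  have hRR : R ≤ R₀ := by rw [hRd]; exact min_le_left _ _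
  have hIoo : ∀ t ∈ Ioo T₀ T, t ∈ Ioo 0 T := fun t ht => ⟨hT₀.trans_lt ht.1, ht.2⟩
  have hE0 : 0 ≤ E := by
    have h1 : (T₀ + T) / 2 ∈ Ioo 0 T := ⟨by linarith, by linarith⟩
    exact (integral_nonneg fun y => nsq_nnL _ _).trans (hu.en _ h1)
  -- cones around the neighbouring points
  have hcone : ∀ t ∈ Ioo T₀ T, ∀ x S, ‖x - a‖ + S ≤ R → ∃ e, Cone κ M S e x (u t) := by
    intro t ht x S hS
    obtain ⟨e, he⟩ := hcone₀ t ht
    exact ⟨e, Cone.monoL he hκκ (by linarith)⟩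
  -- the Morrey bound
  obtain ⟨K, hKd⟩ : ∃ K, K = CF / κ ^ 2 * (√(E / (R / 2)) + M * (R / 2) ^ 2) + 1 := ⟨_, rfl⟩
  have hK : 0 < K := by rw [hKd]; positivity
  have hMor : ∀ t ∈ Ioo T₀ T, MorB K a (R / 8) (om (u t)) := by
    intro t ht x r hr hxr
    have hx : ‖x - a‖ ≤ R / 8 := by linarith
    have hr8 : r ≤ R / 8 := by linarith [norm_nonneg (x - a)]
    obtain ⟨e, he⟩ := hcone t ht x (R / 2) (by linarith)
    have h1 := hFlux (u t) M (R / 2) κ x e (slice_u hu.toLEq (hIoo t ht)) hM (by positivity) hκ hκ1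
      he r hr (by linarith)
    rw [abs_omL]
    refine h1.trans (mul_le_mul_of_nonneg_right ?_ hr.le)
    have hsub : closedBall x (R / 2) ⊆ O := by
      refine (closedBall_subset_closedBall' ?_).trans hO
      rw [dist_eq_norm]
      linarith
    have henb : ∫ z in closedBall x (R / 2), W221.NS.nsq (u t) z ≤ E :=
      (setIntegral_mono_set (hu.en_int t (hIoo t ht)) (Eventually.of_forall fun y => nsq_nnL _ _)
        hsub.eventuallyLE).trans (hu.en t (hIoo t ht))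
    have h2 : √((∫ z in closedBall x (R / 2), W221.NS.nsq (u t) z) / (R / 2)) ≤ √(E / (R / 2)) :=
      Real.sqrt_le_sqrt (div_le_div_of_nonneg_right henb (by positivity))
    have h3 : CF / κ ^ 2 * (√((∫ z in closedBall x (R / 2), W221.NS.nsq (u t) z) / (R / 2))
        + M * (R / 2) ^ 2) ≤ CF / κ ^ 2 * (√(E / (R / 2)) + M * (R / 2) ^ 2) :=
      mul_le_mul_of_nonneg_left (by linarith) (by positivity)
    rw [hKd]
    linarith
  refine assemL hVel hEn hEnS hReg hGood hAna hT hu hT₀ hT₀T hK (by positivity)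
    ((closedBall_subset_closedBall (by linarith)).trans hO) hMor ?_
  -- the pinching argument
  obtain ⟨σ, lam, c, hσ, hσ8, hlam, hlam2, hc, hc1, hPin⟩ := hPinch κ hκ hκ1
  refine ⟨σ, lam, c, hσ, hσ8, hlam, hlam2, hc, hc1, fun η τ hη hη1 hτ hτ1 => ?_⟩
  obtain ⟨N, hPin⟩ := hPin K η τ hK.le hη hη1 hτ hτ1
  obtain ⟨S₀, hS₀⟩ : ∃ S₀, S₀ = min (R / 16) (c * η * τ / (M + 1)) := ⟨_, rfl⟩
  have hS₀0 : 0 < S₀ := by rw [hS₀]; exact lt_min (by positivity) (by positivity)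
  have hS₀1 : S₀ ≤ R / 16 := by rw [hS₀]; exact min_le_left _ _
  have hS₀2 : S₀ ≤ c * η * τ / (M + 1) := by rw [hS₀]; exact min_le_right _ _
  refine ⟨N, S₀, hS₀0, fun t ht x hx S ρ hS hSS hρ hρS hconc => ?_⟩
  have hxa : ‖x - a‖ ≤ R / 16 := by
    have := mem_closedBall.1 hx
    rw [dist_eq_norm] at this
    linarith
  obtain ⟨e, he⟩ := hcone t ht x S (by linarith)
  refine ⟨e, he.1, hPin (u t) x e M S ρ (slice_u hu.toLEq (hIoo t ht)) hM hS (by linarith) he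
    (fun s hs hsS => ?_) ?_ hρ hρS hconc⟩
  · have h1 := hMor t ht x s hs (by linarith)
    rwa [abs_omL] at h1
  · have h1 : S ≤ c * η * τ / (M + 1) := hSS.trans hS₀2
    rw [le_div_iff₀ (by positivity)] at h1
    have h2 : S ^ 2 ≤ S := pow_le_of_le_one hS.le (by linarith) two_ne_zero
    have h3 : M * S ^ 2 ≤ M * S := mul_le_mul_of_nonneg_left h2 hM
    linarith

end Pool.Agent.Q85.CL
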