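import Pool.Agent.Q85.CL.Defs

/-!
Project CL: second part of the statements.
-/

set_option autoImplicit false

open MeasureTheory Set Metric
open scoped ContDiff
open H459R3.NS Pool.Agent.W268.NS Pool.Agent.Q67.VD

namespace Pool.Agent.Q85.CL

open Pool.Agent.Q85.CC

/-- CL-PER. Periodic solutions are local solutions, after the normalisation of the pressure. -/
def StmPer : Prop := ∀ (T : ℝ) (u : ℝ → V → V) (p : ℝ → V → ℝ), 0 < T → IsSol 1 T u p →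
  ∀ a : V, ∃ (E : ℝ) (p' : ℝ → V → ℝ), LSl T E (ball a (1 / 2)) u p'

/-- CL-L1. Local bound of the integral of the vorticity. -/
def StmL1L : Prop := ∀ (T E : ℝ) (O : Set V) (u : ℝ → V → V) (p : ℝ → V → ℝ), 0 < T →
  LSl T E O u p → ∀ (a : V) (R T₀ : ℝ), 0 < R → closedBall a R ⊆ O → 0 < T₀ → T₀ < T →
    ∃ L : ℝ, 0 < L ∧ ∀ t ∈ Ico T₀ T, ∫ y in closedBall a (R / 2), om (u t) y ≤ L

/-- Local double cone condition: no singularity at `a`. -/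
def StmDblL : Prop := ∀ (T E : ℝ) (O : Set V) (u : ℝ → V → V) (p : ℝ → V → ℝ), 0 < T →
  LSl T E O u p → ∀ (T₀ κ R : ℝ) (a : V), 0 ≤ T₀ → T₀ < T → 0 < κ → 0 < R →
    closedBall a R ⊆ O → (∀ t ∈ Ioo T₀ T, ∃ e, DCone κ R e a (u t)) →
    ∃ B δ : ℝ, 0 < δ ∧ ∀ t ∈ Ioo (T - δ) T, 0 < t → ∀ x ∈ closedBall a δ, ‖u t x‖ ≤ B

/-- Smooth solutions (viscosity `ν`) in an open set `Ω`, on `(0, T)`, with finite energy and
dissipation and integrable pressure; the fields are defined and smooth on `Ω` only. -/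
structure DSl (ν T E : ℝ) (Ω : Set V) (u : ℝ → V → V) (p : ℝ → V → ℝ) : Prop where
  openO : IsOpen Ω
  smooth_u : ContDiffOn ℝ ∞ (fun z : ℝ × V => u z.1 z.2) (Ioo 0 T ×ˢ Ω)
  smooth_p : ContDiffOn ℝ ∞ (fun z : ℝ × V => p z.1 z.2) (Ioo 0 T ×ˢ Ω)
  divfree : ∀ t ∈ Ioo 0 T, ∀ x ∈ Ω, ∑ i, pd i (fun y => u t y i) x = 0
  momentum : ∀ t ∈ Ioo 0 T, ∀ x ∈ Ω, ∀ i,
    deriv (fun s => u s x i) t + ∑ j, u t x j * pd j (fun y => u t y i) x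
      = ν * ∑ j, pd j (pd j (fun y => u t y i)) x - pd i (p t) x
  en_int : ∀ t ∈ Ioo 0 T, IntegrableOn (W221.NS.nsq (u t)) Ω
  en : ∀ t ∈ Ioo 0 T, ∫ x in Ω, W221.NS.nsq (u t) x ≤ E
  dis : IntegrableOn (fun z : ℝ × V => W221.NS.gsq (u z.1) z.2) (Ioo 0 T ×ˢ Ω)
  prs : IntegrableOn (fun z : ℝ × V => p z.1 z.2) (Ioo 0 T ×ˢ Ω)

/-- CL-DOM. Cut-off and scaling: from `Ω` and viscosity `ν` to the class `LSl`. -/
def StmDom : Prop := ∀ (ν T E : ℝ) (Ω : Set V) (u : ℝ → V → V) (p : ℝ → V → ℝ), 0 < ν → 0 < T →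
  DSl ν T E Ω u p → ∀ (a : V) (R : ℝ), 0 < R → closedBall a R ⊆ Ω →
    ∃ (E' : ℝ) (v : ℝ → V → V) (q : ℝ → V → ℝ), LSl (ν * T) E' (ball a R) v q ∧
      ∀ t ∈ Ioo 0 T, ∀ x ∈ ball a R, v (ν * t) x = ν⁻¹ • u t x

end Pool.Agent.Q85.CL
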