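import Pool.Agent.Q85.CL.Assem
import Pool.Agent.Q85.CL.Defs2

/-!
Project CL: the assembly for the double cone.
-/

set_option autoImplicit false

open MeasureTheory Set Metric Filter Topology
open scoped ContDiff
open H459R3.NS Pool.Agent.W268.NS Pool.Agent.Q67.VD

namespace Pool.Agent.Q85.CL

open Pool.Agent.Q85.CC

lemma DCone.monoL {κ κ' R R' : ℝ} {e x x' : V} {v : V → V} (h : DCone κ R e x v)
    (hκ : κ' ≤ κ) (hR : ‖x' - x‖ + R' ≤ R) : DCone κ' R' e x' v := by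
  refine ⟨h.1, fun y hy => (mul_le_mul_of_nonneg_right hκ (om_nnL _ _)).trans (h.2 y ?_)⟩
  have e1 : y - x = (y - x') + (x' - x) := by abel
  rw [e1]
  exact (norm_add_le _ _).trans (by linarith)

theorem dblL (hVel : StmVelL) (hEn : StmEnL) (hEnS : StmEnS) (hReg : Pool.Agent.Q95.CL.StmRegK)
    (hGood : StmGoodL) (hAna : StmAna) (hPinch : StmPinchDL) (hMorD : StmMorDL) (hL1 : StmL1L) :
    StmDblL := by
  intro T E O u p hT hu T₀ κ₀ R₀ a hT₀ hT₀T hκ₀ hR₀ hO hcone₀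
  obtain ⟨κ, hκd⟩ : ∃ κ, κ = min κ₀ 1 := ⟨_, rfl⟩
  have hκ : 0 < κ := by rw [hκd]; exact lt_min hκ₀ one_pos
  have hκ1 : κ ≤ 1 := by rw [hκd]; exact min_le_right _ _
  have hκκ : κ ≤ κ₀ := by rw [hκd]; exact min_le_left _ _
  obtain ⟨R, hRd⟩ : ∃ R, R = min R₀ 1 := ⟨_, rfl⟩
  have hR : 0 < R := by rw [hRd]; exact lt_min hR₀ one_pos
  have hR1 : R ≤ 1 := by rw [hRd]; exact min_le_right _ _
  have hRR : R ≤ R₀ := by rw [hRd]; exact min_le_left _ _
  obtain ⟨T₁, hT₁⟩ : ∃ T₁, T₁ = (T₀ + T) / 2 := ⟨_, rfl⟩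
  have hT₁0 : 0 < T₁ := by rw [hT₁]; linarith
  have hT₁T : T₁ < T := by rw [hT₁]; linarith
  have hT₀₁ : T₀ < T₁ := by rw [hT₁]; linarith
  have hIoo : ∀ t ∈ Ioo T₁ T, t ∈ Ioo 0 T := fun t ht => ⟨hT₁0.trans ht.1, ht.2⟩
  -- cones around the neighbouring points
  have hcone : ∀ t ∈ Ioo T₁ T, ∀ x S, ‖x - a‖ + S ≤ R → ∃ e, DCone κ S e x (u t) := by
    intro t ht x S hS
    obtain ⟨e, he⟩ := hcone₀ t ⟨hT₀₁.trans ht.1, ht.2⟩
    exact ⟨e, DCone.monoL he hκκ (by linarith)⟩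
  -- the Morrey bound
  obtain ⟨L, hL, hL1⟩ := hL1 T E O u p hT hu a R T₁ hR
    ((closedBall_subset_closedBall hRR).trans hO) hT₁0 hT₁T
  obtain ⟨C, c, hC, hc, hc1, hMorD⟩ := hMorD κ hκ hκ1
  obtain ⟨K, hKd⟩ : ∃ K, K = C * (L / (R / 4)) := ⟨_, rfl⟩
  have hK : 0 < K := by rw [hKd]; positivity
  obtain ⟨ρ₀, hρd⟩ : ∃ ρ₀, ρ₀ = c * (R / 4) := ⟨_, rfl⟩
  have hρ₀ : 0 < ρ₀ := by rw [hρd]; positivity
  have hρR : ρ₀ ≤ R / 4 := by
    rw [hρd]
    exact mul_le_of_le_one_left (by positivity) hc1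
  have hMor : ∀ t ∈ Ioo T₁ T, MorB K a ρ₀ (om (u t)) := by
    intro t ht x r hr hxr
    have hx : ‖x - a‖ ≤ R / 4 := by linarith
    obtain ⟨e, he⟩ := hcone t ht x (R / 4) (by linarith)
    have hsm := slice_u hu.toLEq (hIoo t ht)
    have h1 := hMorD (u t) x e (R / 4) hsm (by positivity) he r hr
      (by rw [← hρd]; linarith [norm_nonneg (x - a)])
    rw [abs_omL]
    refine h1.trans ?_
    have h2 : ∫ y in closedBall x (R / 4), om (u t) y ≤ ∫ y in closedBall a (R / 2), om (u t) y := by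
      refine setIntegral_mono_set ((om_contL hsm).continuousOn.integrableOn_compact
        (isCompact_closedBall _ _)) (Eventually.of_forall fun y => om_nnL _ _) ?_
      refine (closedBall_subset_closedBall' ?_).eventuallyLE
      rw [dist_eq_norm]
      linarith
    have h3 := h2.trans (hL1 t ⟨ht.1.le, ht.2⟩)
    have h4 : C * (r / (R / 4)) * ∫ y in closedBall x (R / 4), om (u t) y
        ≤ C * (r / (R / 4)) * L := mul_le_mul_of_nonneg_left h3 (by positivity)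
    refine h4.trans (le_of_eq ?_)
    rw [hKd]
    ring
  refine assemL hVel hEn hEnS hReg hGood hAna hT hu hT₁0.le hT₁T hK hρ₀
    ((closedBall_subset_closedBall (by linarith)).trans hO) hMor ?_
  -- the pinching argument
  obtain ⟨σ, lam, c', hσ, hσ8, hlam, hlam2, hc', hc'1, hPin⟩ := hPinch κ hκ hκ1
  refine ⟨σ, lam, c', hσ, hσ8, hlam, hlam2, hc', hc'1, fun η τ hη hη1 hτ hτ1 => ?_⟩
  obtain ⟨N, hPin⟩ := hPin K η τ hK.le hη hη1 hτ hτ1
  refine ⟨N, ρ₀ / 2, by positivity, fun t ht x hx S ρ hS hSS hρ hρS hconc => ?_⟩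
  have hxa : ‖x - a‖ ≤ ρ₀ / 2 := by
    have := mem_closedBall.1 hx
    rwa [dist_eq_norm] at this
  obtain ⟨e, he⟩ := hcone t ht x S (by linarith)
  refine ⟨e, he.1, hPin (u t) x e S ρ (slice_u hu.toLEq (hIoo t ht)) hS (by linarith) he
    (fun s hs hsS => ?_) hρ hρS hconc⟩
  have h1 := hMor t ht x s hs (by linarith)
  rwa [abs_omL] at h1

end Pool.Agent.Q85.CL
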