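import Pool.Agent.Q85.CL.Defs
import Pool.Agent.Q199.VD.Flux
import Pool.Agent.Q151.CC.Pinch

/-!
Project CL: the Morrey bound for the vorticity from the half-space condition in one ball (adapted
from the proof of `Pool.Agent.Q199.VD.flux` by helper199).
-/

set_option autoImplicit false

open MeasureTheory Set Metric Filter Topology
open scoped ENNReal ContDiff
open H459R3.NS Pool.Agent.W268.NS Pool.Agent.Q67.VD
open Pool.Agent.Q199.VD

namespace Pool.Agent.Q85.CL

open Pool.Agent.Q85.CC

lemma sm_pdL {f : V → ℝ} (hf : ContDiff ℝ ∞ f) (j : Fin 3) : ContDiff ℝ ∞ (pd j f) :=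
  Pool.Agent.Q151.CC.pd_smooth hf j

lemma pd_contL {f : V → ℝ} (hf : ContDiff ℝ ∞ f) (j : Fin 3) : Continuous (pd j f) :=
  (sm_pdL hf j).continuous

lemma sm_vortL {v : V → V} (hv : SM v) (i : Fin 3) : ContDiff ℝ ∞ (fun y => vort v y i) := by
  have h : ∀ a b c d : Fin 3, ContDiff ℝ ∞ (fun y => gradM v y a b - gradM v y c d) :=
    fun a b c d => (sm_pdL (hv b) a).sub (sm_pdL (hv d) c)
  fin_cases i
  · exact h 1 2 2 1
  · exact h 2 0 0 2
  · exact h 0 1 1 0

lemma vort_contL {v : V → V} (hv : SM v) (i : Fin 3) : Continuous (fun y => vort v y i) :=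
  (sm_vortL hv i).continuous

lemma div_vortL {v : V → V} (hv : SM v) (x : V) : ∑ i, pd i (fun y => vort v y i) x = 0 := by
  have h := (Pool.Agent.Q151.CC.sw_df hv 0 0).div x
  simpa [Pool.Agent.Q151.CC.sw] using h

lemma om_contL {v : V → V} (hv : SM v) : Continuous (om v) := Pool.Agent.Q151.CC.om_cont hv

/-- The energy in the cube with side `R`. -/
noncomputable def enB (v : V → V) (x : V) (R : ℝ) : ℝ :=
  ∫ y in closedBall x (R / 2), W221.NS.nsq v y

lemma nsq_contL {v : V → V} (hv : SM v) : Continuous (W221.NS.nsq v) := by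
  unfold W221.NS.nsq
  exact continuous_finsetSum _ fun i _ => (hv i).continuous.pow 2

lemma enB_nonneg (v : V → V) (x : V) (R : ℝ) : 0 ≤ enB v x R :=
  integral_nonneg fun y => Finset.sum_nonneg fun i _ => sq_nonneg _

lemma enB_comp {v : V → V} (hv : SM v) (x : V) (R : ℝ) (i : Fin 3) :
    ∫ y in closedBall x (R / 2), v y i ^ 2 ≤ enB v x R := by
  refine integral_mono
    (((hv i).continuous.pow 2).continuousOn.integrableOn_compact (isCompact_closedBall _ _))
    ((nsq_contL hv).continuousOn.integrableOn_compact (isCompact_closedBall _ _)) fun y => ?_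
  exact Finset.single_le_sum (f := fun i => v y i ^ 2) (fun _ _ => sq_nonneg _) (Finset.mem_univ i)

/-- The Cauchy-Schwarz inequality on a small cube. -/
theorem ball_csL {f : V → ℝ} (hf : Continuous f) (x : V) {R : ℝ} (hR : 0 < R) {E : ℝ}
    (hE : ∫ y in closedBall x (R / 2), f y ^ 2 ≤ E) :
    ∫ y in closedBall x (R / 2), |f y| ≤ √(R ^ 3 * E) := by
  set J := ∫ y in closedBall x (R / 2), |f y| with hJ
  have hv : volume.real (closedBall x (R / 2)) = R ^ 3 := by
    rw [vol_ball x (by positivity)]; ring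
  have hJ0 : 0 ≤ J := integral_nonneg fun y => abs_nonneg _
  have h2 : ∫ y in closedBall x (R / 2), f y ^ 2 ≤ E := hE
  have i1 : IntegrableOn (fun y => |f y|) (closedBall x (R / 2)) :=
    hf.abs.continuousOn.integrableOn_compact (isCompact_closedBall _ _)
  have i2 : IntegrableOn (fun y => f y ^ 2) (closedBall x (R / 2)) :=
    (hf.pow 2).continuousOn.integrableOn_compact (isCompact_closedBall _ _)
  have i3 : IntegrableOn (fun _ : V => (J / R ^ 3) ^ 2) (closedBall x (R / 2)) :=
    continuous_const.continuousOn.integrableOn_compact (isCompact_closedBall _ _)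
  have h3 : 0 ≤ ∫ y in closedBall x (R / 2), (|f y| - J / R ^ 3) ^ 2 :=
    integral_nonneg fun y => sq_nonneg _
  have h4 : ∫ y in closedBall x (R / 2), (|f y| - J / R ^ 3) ^ 2
      = (∫ y in closedBall x (R / 2), f y ^ 2) - 2 * (J / R ^ 3) * J
        + R ^ 3 * (J / R ^ 3) ^ 2 := by
    have e : ∀ y, (|f y| - J / R ^ 3) ^ 2
        = (f y ^ 2 - 2 * (J / R ^ 3) * |f y|) + (J / R ^ 3) ^ 2 := fun y => by
      rw [← sq_abs (f y)]; ring
    have i4 : IntegrableOn (fun y => 2 * (J / R ^ 3) * |f y|) (closedBall x (R / 2)) :=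
      i1.const_mul _
    have i5 : IntegrableOn (fun y => f y ^ 2 - 2 * (J / R ^ 3) * |f y|) (closedBall x (R / 2)) :=
      i2.sub i4
    simp_rw [e]
    rw [integral_add i5 i3, integral_sub i2 i4, integral_const_mul, setIntegral_const, hv,
      smul_eq_mul]
  have h5 : 2 * (J / R ^ 3) * J - R ^ 3 * (J / R ^ 3) ^ 2 = J ^ 2 / R ^ 3 := by
    field_simp; ring
  have h6 : J ^ 2 / R ^ 3 ≤ E := by linarith
  rw [div_le_iff₀ (by positivity)] at h6
  refine Real.le_sqrt_of_sq_le ?_
  linarith


/-- The integral of a component of the vorticity against a cut-off function. -/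
theorem curl_boundL {v : V → V} (hv : ∀ i, ContDiff ℝ ∞ (fun y => v y i)) {χ : V → ℝ} {x : V} {R B : ℝ}
    (hR : 0 < R) (hχ : ContDiff ℝ ∞ χ) (hs : HasCompactSupport χ) (hB : 0 ≤ B)
    (hb : ∀ j y, |pd j χ y| ≤ B) (h0 : ∀ j y, y ∉ closedBall x (R / 2) → pd j χ y = 0)
    (i : Fin 3) :
    |∫ y, χ y * vort v y i| ≤ 2 * B * √(R ^ 3 * enB v x R) := by
  have h1 : ∀ a b, |∫ y, χ y * pd a (fun z => v z b) y| ≤ B * √(R ^ 3 * enB v x R) := by
    intro a b
    rw [ibp_cut (hχ.of_le (by norm_cast)) hs ((hv b).of_le (by norm_cast)) a, abs_neg]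
    refine (cut_bound (hv b).continuous (hb a) (h0 a)).trans ?_
    exact mul_le_mul_of_nonneg_left (ball_csL (hv b).continuous x hR (enB_comp hv x R b)) hB
  have hint : ∀ a b, Integrable (fun y => χ y * pd a (fun z => v z b) y) := fun a b =>
    (hχ.continuous.mul (pd_contL (hv b) a)).integrable_of_hasCompactSupport hs.mul_right
  have h2 : ∀ a b c d, |∫ y, χ y * (gradM v y a b - gradM v y c d)|
      ≤ 2 * B * √(R ^ 3 * enB v x R) := by
    intro a b c d
    have e : ∫ y, χ y * (gradM v y a b - gradM v y c d)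
        = (∫ y, χ y * pd a (fun z => v z b) y) - ∫ y, χ y * pd c (fun z => v z d) y := by
      rw [← integral_sub (hint a b) (hint c d)]
      exact integral_congr_ae (Eventually.of_forall fun y => mul_sub _ _ _)
    rw [e]
    have := abs_sub (∫ y, χ y * pd a (fun z => v z b) y) (∫ y, χ y * pd c (fun z => v z d) y)
    linarith [h1 a b, h1 c d]
  fin_cases i
  · exact h2 1 2 2 1
  · exact h2 2 0 0 2
  · exact h2 0 1 1 0

/-- The flux identity. -/
theorem flux_idL {z : Fin 3 → V → ℝ} (hz : ∀ i, ContDiff ℝ ∞ (z i)) (hdiv : ∀ y, ∑ i, pd i (z i) y = 0)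
    {χ : V → ℝ} (hχ : ContDiff ℝ ∞ χ) (hs : HasCompactSupport χ) (e x : V) {r : ℝ} (hr : 0 < r) :
    ∫ y, χ y * (1 + ((e ⬝ᵥ (y - x)) / r) ^ 2)⁻¹ * ∑ i, e i * z i y
      = -∑ i, ∫ y, pd i χ y * (r * Real.arctan ((e ⬝ᵥ (y - x)) / r) * z i y) := by
  set s : V → ℝ := fun y => (e ⬝ᵥ (y - x)) / r with hsdef
  have hlin : ∀ y, HasFDerivAt (fun y : V => e ⬝ᵥ (y - x))
      (∑ i, e i • (ContinuousLinearMap.proj i : V →L[ℝ] ℝ)) y := by
    intro y
    have h1 : HasFDerivAt (fun y : V => ∑ i, e i * (y i - x i))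
        (∑ i, e i • (ContinuousLinearMap.proj i : V →L[ℝ] ℝ)) y := by
      refine HasFDerivAt.fun_sum fun i _ => ?_
      exact ((ContinuousLinearMap.proj (R := ℝ) (φ := fun _ : Fin 3 => ℝ) i).hasFDerivAt.sub_const
        (x i)).const_mul (e i)
    exact h1
  have hsm : ContDiff ℝ ∞ s := by
    have h1 : ContDiff ℝ ∞ (fun y : V => ∑ i, e i * (y i - x i)) :=
      ContDiff.sum fun i _ => contDiff_const.mul ((contDiff_apply ℝ ℝ i).sub contDiff_const)
    exact h1.div_const r
  have hds : ∀ y, HasFDerivAt s (r⁻¹ • ∑ i, e i • (ContinuousLinearMap.proj i : V →L[ℝ] ℝ)) y := by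
    intro y
    have := (hlin y).mul_const r⁻¹
    exact this
  have hA : ContDiff ℝ ∞ (fun y => r * Real.arctan (s y)) :=
    contDiff_const.mul (Real.contDiff_arctan.comp hsm)
  have hF : ContDiff ℝ ∞ (fun y => χ y * (r * Real.arctan (s y))) := hχ.mul hA
  have hFs : HasCompactSupport (fun y => χ y * (r * Real.arctan (s y))) := hs.mul_right
  have hpd : ∀ i y, pd i (fun y => χ y * (r * Real.arctan (s y))) y
      = pd i χ y * (r * Real.arctan (s y)) + χ y * (1 + s y ^ 2)⁻¹ * e i := by
    intro i y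
    have h1 : HasFDerivAt (fun y => r * Real.arctan (s y))
        (r • ((1 / (1 + s y ^ 2)) • (r⁻¹ • ∑ i, e i • (ContinuousLinearMap.proj i : V →L[ℝ] ℝ)))) y :=
      (HasFDerivAt.arctan (hds y)).const_mul r
    have h2 : HasFDerivAt (fun y => χ y * (r * Real.arctan (s y))) _ y :=
      ((hχ.differentiable (by norm_num) y).hasFDerivAt).mul h1
    unfold pd
    rw [h2.fderiv]
    have h3 : (∑ k, e k • (ContinuousLinearMap.proj k : V →L[ℝ] ℝ)) (Pi.single i 1) = e i := by
      rw [sum_apply]
      rw [Finset.sum_eq_single i]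
      · show e i * (Pi.single i (1 : ℝ) : V) i = e i
        rw [Pi.single_eq_same, mul_one]
      · intro k _ hk
        show e k * (Pi.single i (1 : ℝ) : V) k = 0
        rw [Pi.single_eq_of_ne hk, mul_zero]
      · intro h; exact absurd (Finset.mem_univ i) h
    show χ y * (r * (1 / (1 + s y ^ 2) * (r⁻¹ *
      (∑ k, e k • (ContinuousLinearMap.proj k : V →L[ℝ] ℝ)) (Pi.single i 1))))
      + r * Real.arctan (s y) * fderiv ℝ χ y (Pi.single i 1) = _
    rw [h3]
    field_simp
    ring
  have hI : ∀ i, Integrable (fun y => pd i (fun y => χ y * (r * Real.arctan (s y))) y * z i y) := by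
    intro i
    have c1 : Continuous (fun y => fderiv ℝ (fun y => χ y * (r * Real.arctan (s y))) y
        (Pi.single i 1)) := (hF.continuous_fderiv (by norm_num)).clm_apply continuous_const
    exact (c1.mul (hz i).continuous).integrable_of_hasCompactSupport (hFs.fderiv_apply (𝕜 := ℝ) _).mul_right
  have h0 : ∑ i, ∫ y, pd i (fun y => χ y * (r * Real.arctan (s y))) y * z i y = 0 := by
    have h1 : ∀ i, ∫ y, pd i (fun y => χ y * (r * Real.arctan (s y))) y * z i y
        = -∫ y, χ y * (r * Real.arctan (s y)) * pd i (z i) y := by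
      intro i
      rw [ibp_cut (hF.of_le (by norm_cast)) hFs ((hz i).of_le (by norm_cast)) i, neg_neg]
    simp_rw [h1]
    rw [Finset.sum_neg_distrib, ← integral_finsetSum]
    · have : ∀ y, ∑ i, χ y * (r * Real.arctan (s y)) * pd i (z i) y = 0 := fun y => by
        rw [← Finset.mul_sum, hdiv, mul_zero]
      simp_rw [this]
      simp
    · intro i _
      exact (hF.continuous.mul (pd_contL (hz i) i)).integrable_of_hasCompactSupport hFs.mul_right
  have hJ : ∀ i, Integrable (fun y => pd i χ y * (r * Real.arctan (s y) * z i y)) := by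
    intro i
    have c1 : Continuous (fun y => fderiv ℝ χ y (Pi.single i 1)) :=
      (hχ.continuous_fderiv (by norm_num)).clm_apply continuous_const
    exact (c1.mul (hA.continuous.mul (hz i).continuous)).integrable_of_hasCompactSupport
      (hs.fderiv_apply (𝕜 := ℝ) _).mul_right
  have hK : ∀ i, Integrable (fun y => χ y * (1 + s y ^ 2)⁻¹ * (e i * z i y)) := by
    intro i
    have c1 : Continuous (fun y => (1 + s y ^ 2)⁻¹) :=
      (continuous_const.add (hsm.continuous.pow 2)).inv₀ fun y => by
        show 1 + s y ^ 2 ≠ 0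
        have := sq_nonneg (s y)
        linarith
    exact ((hχ.continuous.mul c1).mul (continuous_const.mul (hz i).continuous)).integrable_of_hasCompactSupport
      (hs.mul_right.mul_right)
  have h1 : ∀ i, ∫ y, pd i (fun y => χ y * (r * Real.arctan (s y))) y * z i y
      = (∫ y, pd i χ y * (r * Real.arctan (s y) * z i y))
        + ∫ y, χ y * (1 + s y ^ 2)⁻¹ * (e i * z i y) := by
    intro i
    rw [← integral_add (hJ i) (hK i)]
    refine integral_congr_ae (Eventually.of_forall fun y => ?_)
    show pd i (fun y => χ y * (r * Real.arctan (s y))) y * z i y = _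
    rw [hpd]
    ring
  simp_rw [h1] at h0
  rw [Finset.sum_add_distrib, ← integral_finsetSum (f := fun i y => χ y * (1 + s y ^ 2)⁻¹ * (e i * z i y))
    _ fun i _ => hK i] at h0
  have h2 : ∀ y, ∑ i, χ y * (1 + s y ^ 2)⁻¹ * (e i * z i y)
      = χ y * (1 + s y ^ 2)⁻¹ * ∑ i, e i * z i y := fun y => by rw [Finset.mul_sum]
  simp_rw [h2] at h0
  show ∫ y, χ y * (1 + s y ^ 2)⁻¹ * ∑ i, e i * z i y
    = -∑ i, ∫ y, pd i χ y * (r * Real.arctan (s y) * z i y)
  linarith

theorem fluxL0 : ∃ C : ℝ, 0 < C ∧ ∀ (v : V → V) (M R κ : ℝ) (x e : V),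
    SM v → 0 ≤ M → 0 < R →
    0 < κ → κ ≤ 1 → Cone κ (2 * M) (R / 2) e x v → ∀ r, 0 < r → r ≤ R / 8 →
    ∫ y in closedBall x r, |om v y| ≤ C / κ ^ 2 * (√(enB v x R / R) + M * R ^ 2) * r := by
  obtain ⟨D, hD, hcut⟩ := exists_cut
  refine ⟨480 * D * (24 * D + 3) + 8, by positivity, ?_⟩
  intro v M R κ x e hv hM hR hκ hκ1 hcone r hr hr8
  obtain ⟨hee, hcone⟩ := hcone
  set E := enB v x R with hE
  have hE0 : 0 ≤ E := enB_nonneg v x R
  set w := vort v with hw
  have hom : ∀ y, |om v y| = om v y := fun y => abs_of_nonneg (om_nonneg v y)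
  simp_rw [hom]
  have omI : ∀ x ρ, IntegrableOn (om v) (closedBall x ρ) := fun x ρ =>
    (om_contL hv).continuousOn.integrableOn_compact (isCompact_closedBall _ _)
  have hκ2 : 0 < κ ^ 2 := by positivity
  have hsq : 0 ≤ √(E / R) := Real.sqrt_nonneg _
  have hle : len e = 1 := by rw [len, hee, Real.sqrt_one]
  have hei : ∀ i, |e i| ≤ 1 := fun i => (abs_le_len e i).trans hle.le
  have hlow : ∀ y ∈ closedBall x (R / 2), κ * om v y ≤ e ⬝ᵥ w y + 2 * M := by
    intro y hy
    exact hcone y (by rw [← dist_eq_norm]; exact mem_closedBall.1 hy)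
  have hnn : ∀ y ∈ closedBall x (R / 2), 0 ≤ e ⬝ᵥ w y + 2 * M := fun y hy =>
    (mul_nonneg hκ.le (om_nonneg v y)).trans (hlow y hy)
  have ewc : Continuous (fun y => e ⬝ᵥ w y) := by
    simp only [dotProduct]
    exact continuous_finsetSum _ fun i _ => continuous_const.mul (vort_contL hv i)
  -- first step
  have step1 : κ * ∫ y in closedBall x (R / 4), om v y
      ≤ 24 * D * (√R * √E) + 2 * M * R ^ 3 := by
    obtain ⟨χ, hχ, hs, hχ0, hχ1, hone, hzero, hpd, hpd0⟩ := hcut x (R / 4) (by positivity)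
    rw [show 2 * (R / 4) = R / 2 by ring] at hzero hpd0
    have hint : Integrable (fun y => χ y * (e ⬝ᵥ w y + 2 * M)) :=
      (hχ.continuous.mul (ewc.add continuous_const)).integrable_of_hasCompactSupport hs.mul_right
    have hnn' : ∀ y, 0 ≤ χ y * (e ⬝ᵥ w y + 2 * M) := fun y => by
      by_cases hy : y ∈ closedBall x (R / 2)
      · exact mul_nonneg (hχ0 y) (hnn y hy)
      · rw [hzero y hy, zero_mul]
    have h1 : κ * ∫ y in closedBall x (R / 4), om v y
        ≤ ∫ y in closedBall x (R / 4), χ y * (e ⬝ᵥ w y + 2 * M) := by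
      rw [← integral_const_mul]
      refine setIntegral_mono_on ((omI x _).const_mul κ) hint.integrableOn
        measurableSet_closedBall fun y hy => ?_
      rw [hone y hy, one_mul]
      exact hlow y (closedBall_subset_closedBall (by linarith) hy)
    have h2 : ∫ y in closedBall x (R / 4), χ y * (e ⬝ᵥ w y + 2 * M)
        ≤ ∫ y, χ y * (e ⬝ᵥ w y + 2 * M) :=
      setIntegral_le_integral hint (Eventually.of_forall hnn')
    have hχi : Integrable χ := hχ.continuous.integrable_of_hasCompactSupport hs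
    have hwi : ∀ i, Integrable (fun y => χ y * w y i) := fun i =>
      (hχ.continuous.mul (vort_contL hv i)).integrable_of_hasCompactSupport hs.mul_right
    have h3 : ∫ y, χ y * (e ⬝ᵥ w y + 2 * M)
        = (∑ i, e i * ∫ y, χ y * w y i) + 2 * M * ∫ y, χ y := by
      have e1 : ∀ y, χ y * (e ⬝ᵥ w y + 2 * M)
          = (∑ i, e i * (χ y * w y i)) + 2 * M * χ y := fun y => by
        simp only [dotProduct]
        rw [mul_add, Finset.mul_sum]
        congr 1
        · exact Finset.sum_congr rfl fun i _ => by ring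
        · ring
      simp_rw [e1]
      rw [integral_add (integrable_finsetSum _ fun i _ => (hwi i).const_mul _)
        (hχi.const_mul _), integral_finsetSum _ fun i _ => (hwi i).const_mul _,
        integral_const_mul]
      simp_rw [integral_const_mul]
    have h4 : ∫ y, χ y ≤ R ^ 3 := by
      have e1 : ∫ y, χ y = ∫ y in closedBall x (R / 2), χ y :=
        (setIntegral_eq_integral_of_forall_compl_eq_zero fun y hy => hzero y hy).symm
      rw [e1]
      have h5 : ∫ y in closedBall x (R / 2), χ y ≤ ∫ _ in closedBall x (R / 2), (1 : ℝ) :=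
        setIntegral_mono_on hχi.integrableOn
          (continuous_const.continuousOn.integrableOn_compact (isCompact_closedBall _ _))
          measurableSet_closedBall fun y _ => hχ1 y
      rw [setIntegral_const, vol_ball x (by positivity), smul_eq_mul, mul_one,
        show 2 * (R / 2) = R by ring] at h5
      exact h5
    have h6 : ∀ i, e i * ∫ y, χ y * w y i ≤ 8 * D * (√R * √E) := by
      intro i
      have h7 := curl_boundL hv hR hχ hs (B := D / (R / 4)) (by positivity) hpd hpd0 i
      have h8 : 2 * (D / (R / 4)) * √(R ^ 3 * enB v x R) = 8 * D * (√R * √E) := by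
        have e1 : √(R ^ 3 * enB v x R) = R * (√R * √E) := by
          rw [show R ^ 3 * enB v x R = R ^ 2 * (R * E) by rw [hE]; ring,
            Real.sqrt_mul (by positivity), Real.sqrt_sq hR.le, Real.sqrt_mul hR.le]
        rw [e1]
        field_simp
        ring
      rw [h8] at h7
      calc e i * ∫ y, χ y * w y i ≤ |e i * ∫ y, χ y * w y i| := le_abs_self _
        _ = |e i| * |∫ y, χ y * w y i| := abs_mul _ _
        _ ≤ 1 * (8 * D * (√R * √E)) := mul_le_mul (hei i) h7 (abs_nonneg _) zero_le_one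
        _ = _ := one_mul _
    have h9 : ∑ i, e i * ∫ y, χ y * w y i ≤ 24 * D * (√R * √E) := by
      rw [Fin.sum_univ_three]
      linarith [h6 0, h6 1, h6 2]
    have h10 : 2 * M * ∫ y, χ y ≤ 2 * M * R ^ 3 := mul_le_mul_of_nonneg_left h4 (by positivity)
    linarith
  -- second step
  have step2 : κ / 10 * ∫ y in closedBall x r, om v y
      ≤ 48 * D * r / R * ((∫ y in closedBall x (R / 4), om v y) + M * R ^ 3 / 4) := by
    obtain ⟨χ, hχ, hs, hχ0, hχ1, hone, hzero, hpd, hpd0⟩ := hcut x (R / 8) (by positivity)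
    rw [show 2 * (R / 8) = R / 4 by ring] at hzero hpd0
    have hzs : ∀ i, ContDiff ℝ ∞ (fun y => w y i + 2 * M * e i) := fun i =>
      (sm_vortL hv i).add contDiff_const
    have hzd : ∀ y, ∑ i, pd i (fun y => w y i + 2 * M * e i) y = 0 := fun y => by
      rw [← div_vortL hv y]
      refine Finset.sum_congr rfl fun i _ => ?_
      unfold pd
      rw [fderiv_add_const]
    have hid := flux_idL hzs hzd hχ hs e x hr
    have hez : ∀ y, ∑ i, e i * (w y i + 2 * M * e i) = e ⬝ᵥ w y + 2 * M := fun y => by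
      have e1 : ∑ i, e i * (w y i + 2 * M * e i) = e ⬝ᵥ w y + 2 * M * (e ⬝ᵥ e) := by
        simp only [dotProduct, Fin.sum_univ_three]
        ring
      rw [e1, hee, mul_one]
    simp_rw [hez] at hid
    set s : V → ℝ := fun y => (e ⬝ᵥ (y - x)) / r with hsdef
    have hscont : Continuous s := by
      have h1 : Continuous (fun y : V => ∑ i, e i * (y i - x i)) :=
        continuous_finsetSum _ fun i _ => continuous_const.mul
          ((continuous_apply i).sub continuous_const)
      exact h1.div_const r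
    have hden : ∀ y, 0 < 1 + s y ^ 2 := fun y => by positivity
    have hq : Continuous (fun y => χ y * (1 + s y ^ 2)⁻¹ * (e ⬝ᵥ w y + 2 * M)) :=
      (hχ.continuous.mul ((continuous_const.add (hscont.pow 2)).inv₀ fun y =>
        (hden y).ne')).mul (ewc.add continuous_const)
    have hqi : Integrable (fun y => χ y * (1 + s y ^ 2)⁻¹ * (e ⬝ᵥ w y + 2 * M)) :=
      hq.integrable_of_hasCompactSupport hs.mul_right.mul_right
    have hqn : ∀ y, 0 ≤ χ y * (1 + s y ^ 2)⁻¹ * (e ⬝ᵥ w y + 2 * M) := fun y => by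
      by_cases hy : y ∈ closedBall x (R / 4)
      · exact mul_nonneg (mul_nonneg (hχ0 y) (inv_nonneg.2 (hden y).le))
          (hnn y (closedBall_subset_closedBall (by linarith) hy))
      · rw [hzero y hy, zero_mul, zero_mul]
    have hsle : ∀ y ∈ closedBall x r, |s y| ≤ 3 := by
      intro y hy
      have h1 : ∀ i, |y i - x i| ≤ r := fun i => by
        have := (dist_pi_le_iff hr.le).1 (mem_closedBall.1 hy) i
        rwa [Real.dist_eq] at this
      have h2 : ∀ i, |e i * (y i - x i)| ≤ r := fun i => by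
        rw [abs_mul]
        calc |e i| * |y i - x i| ≤ 1 * r := mul_le_mul (hei i) (h1 i) (abs_nonneg _) zero_le_one
          _ = r := one_mul r
      have h3 : |e ⬝ᵥ (y - x)| ≤ 3 * r := by
        have e1 : e ⬝ᵥ (y - x) = e 0 * (y 0 - x 0) + e 1 * (y 1 - x 1) + e 2 * (y 2 - x 2) := by
          simp only [dotProduct, Fin.sum_univ_three, Pi.sub_apply]
        rw [e1]
        refine (abs_add_three _ _ _).trans ?_
        linarith [h2 0, h2 1, h2 2]
      show |(e ⬝ᵥ (y - x)) / r| ≤ 3
      rw [abs_div, abs_of_pos hr, div_le_iff₀ hr]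
      exact h3
    have h1 : κ / 10 * ∫ y in closedBall x r, om v y
        ≤ ∫ y in closedBall x r, χ y * (1 + s y ^ 2)⁻¹ * (e ⬝ᵥ w y + 2 * M) := by
      rw [← integral_const_mul]
      refine setIntegral_mono_on ((omI x _).const_mul _) hqi.integrableOn
        measurableSet_closedBall fun y hy => ?_
      have hy2 : y ∈ closedBall x (R / 2) := closedBall_subset_closedBall (by linarith) hy
      rw [hone y (closedBall_subset_closedBall hr8 hy), one_mul]
      have h2 : (1 / 10 : ℝ) ≤ (1 + s y ^ 2)⁻¹ := by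
        rw [one_div]
        refine inv_anti₀ (hden y) ?_
        have := sq_le_sq' (by linarith [(abs_le.1 (hsle y hy)).1]) (abs_le.1 (hsle y hy)).2
        linarith
      calc κ / 10 * om v y = 1 / 10 * (κ * om v y) := by ring
        _ ≤ (1 + s y ^ 2)⁻¹ * (e ⬝ᵥ w y + 2 * M) :=
          mul_le_mul h2 (hlow y hy2) (mul_nonneg hκ.le (om_nonneg v y)) (inv_nonneg.2 (hden y).le)
    have h2 : ∫ y in closedBall x r, χ y * (1 + s y ^ 2)⁻¹ * (e ⬝ᵥ w y + 2 * M)
        ≤ ∫ y, χ y * (1 + s y ^ 2)⁻¹ * (e ⬝ᵥ w y + 2 * M) :=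
      setIntegral_le_integral hqi (Eventually.of_forall hqn)
    have h3 : ∀ i, -∫ y, pd i χ y * (r * Real.arctan (s y) * (w y i + 2 * M * e i))
        ≤ 16 * D * r / R * ((∫ y in closedBall x (R / 4), om v y) + M * R ^ 3 / 4) := by
      intro i
      have hfc : Continuous (fun y => r * Real.arctan (s y) * (w y i + 2 * M * e i)) :=
        (continuous_const.mul (Real.continuous_arctan.comp hscont)).mul (hzs i).continuous
      have h4 := cut_bound (χ := χ) (x := x) (ρ := R / 4) (j := i) hfc (hpd i) (hpd0 i)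
      have h5 : ∫ y in closedBall x (R / 4), |r * Real.arctan (s y) * (w y i + 2 * M * e i)|
          ≤ ∫ y in closedBall x (R / 4), (2 * r) * (om v y + 2 * M) := by
        refine setIntegral_mono_on
          (hfc.abs.continuousOn.integrableOn_compact (isCompact_closedBall _ _))
          ((continuous_const.mul ((om_contL hv).add continuous_const)).continuousOn.integrableOn_compact
            (isCompact_closedBall _ _)) measurableSet_closedBall fun y _ => ?_
        rw [abs_mul, abs_mul, abs_of_pos hr]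
        have h6 : |Real.arctan (s y)| ≤ 2 := by
          rw [abs_le]
          have hpi := Real.pi_lt_four
          have a1 := Real.neg_pi_div_two_lt_arctan (s y)
          have a2 := Real.arctan_lt_pi_div_two (s y)
          constructor <;> linarith
        have h7 : |w y i + 2 * M * e i| ≤ om v y + 2 * M := by
          refine (abs_add_le _ _).trans (add_le_add (abs_le_len (w y) i) ?_)
          rw [abs_mul, abs_of_nonneg (by positivity : 0 ≤ 2 * M)]
          have := mul_le_mul_of_nonneg_left (hei i) (by positivity : 0 ≤ 2 * M)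
          linarith
        calc r * |Real.arctan (s y)| * |w y i + 2 * M * e i|
            ≤ (r * 2) * (om v y + 2 * M) :=
              mul_le_mul (mul_le_mul_of_nonneg_left h6 hr.le) h7 (abs_nonneg _) (by positivity)
          _ = _ := by ring
      have h8 : ∫ y in closedBall x (R / 4), (2 * r) * (om v y + 2 * M)
          = 2 * r * ((∫ y in closedBall x (R / 4), om v y) + M * R ^ 3 / 4) := by
        have hc : IntegrableOn (fun _ : V => 2 * M) (closedBall x (R / 4)) :=
          continuous_const.continuousOn.integrableOn_compact (isCompact_closedBall _ _)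
        rw [integral_const_mul, integral_add (omI x _) hc, setIntegral_const,
          vol_ball x (by positivity), smul_eq_mul]
        ring
      rw [h8] at h5
      have h9 : D / (R / 8) * (2 * r * ((∫ y in closedBall x (R / 4), om v y) + M * R ^ 3 / 4))
          = 16 * D * r / R * ((∫ y in closedBall x (R / 4), om v y) + M * R ^ 3 / 4) := by
        field_simp
        ring
      rw [← h9]
      refine (neg_le_abs _).trans (h4.trans ?_)
      exact mul_le_mul_of_nonneg_left h5 (by positivity)
    have h4 : ∫ y, χ y * (1 + s y ^ 2)⁻¹ * (e ⬝ᵥ w y + 2 * M)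
        ≤ 48 * D * r / R * ((∫ y in closedBall x (R / 4), om v y) + M * R ^ 3 / 4) := by
      rw [hid, Fin.sum_univ_three]
      have a0 := h3 0
      have a1 := h3 1
      have a2 := h3 2
      have e1 : 48 * D * r / R * ((∫ y in closedBall x (R / 4), om v y) + M * R ^ 3 / 4)
          = 3 * (16 * D * r / R * ((∫ y in closedBall x (R / 4), om v y) + M * R ^ 3 / 4)) := by
        ring
      rw [e1]
      linarith
    exact h1.trans (h2.trans h4)
  -- combination
  set I4 := ∫ y in closedBall x (R / 4), om v y with hI4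
  set I := ∫ y in closedBall x r, om v y with hI
  have hS : √(E / R) = √R * √E / R := by
    rw [Real.sqrt_div hE0]
    have h1 : √R * √R = R := Real.mul_self_sqrt hR.le
    have h2 : 0 < √R := Real.sqrt_pos.2 hR
    field_simp
    rw [pow_two, h1]
  set S := √R * √E with hSdef
  have hS0 : 0 ≤ S := by positivity
  have h1 : I4 + M * R ^ 3 / 4 ≤ (24 * D + 3) * (S + M * R ^ 3) / κ := by
    rw [le_div_iff₀ hκ]
    have hMR : 0 ≤ M * R ^ 3 := by positivity
    have h2 : M * R ^ 3 / 4 * κ ≤ M * R ^ 3 / 4 := mul_le_of_le_one_right (by positivity) hκ1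
    nlinarith [step1, mul_nonneg hD.le hMR, mul_nonneg hD.le hS0]
  have h2 : κ / 10 * I ≤ 48 * D * r / R * ((24 * D + 3) * (S + M * R ^ 3) / κ) :=
    step2.trans (mul_le_mul_of_nonneg_left h1 (by positivity))
  have h3 : I ≤ 480 * D * (24 * D + 3) / κ ^ 2 * (S / R + M * R ^ 2) * r := by
    have h4 : I = 10 / κ * (κ / 10 * I) := by field_simp
    have h5 : 480 * D * (24 * D + 3) / κ ^ 2 * (S / R + M * R ^ 2) * r
        = 10 / κ * (48 * D * r / R * ((24 * D + 3) * (S + M * R ^ 3) / κ)) := by
      field_simp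
      ring
    rw [h4, h5]
    exact mul_le_mul_of_nonneg_left h2 (by positivity)
  rw [hS]
  refine h3.trans (mul_le_mul_of_nonneg_right (mul_le_mul_of_nonneg_right ?_ (by positivity)) hr.le)
  exact div_le_div_of_nonneg_right (by linarith) hκ2.le


theorem fluxL : StmFluxL := by
  obtain ⟨C, hC, H⟩ := fluxL0
  refine ⟨2 * C, by positivity, ?_⟩
  intro v M R κ x e hv hM hR hκ hκ1 hc r hr hrR
  have h1 := H v (M / 2) (2 * R) κ x e hv (by positivity) (by positivity) hκ hκ1
    (by rw [show 2 * (M / 2) = M by ring, show 2 * R / 2 = R by ring]; exact hc) r hr (by linarith)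
  have h2 : ∫ y in closedBall x r, |om v y| = ∫ y in closedBall x r, om v y := by
    congr 1
    funext y
    exact abs_of_nonneg (om_nonneg v y)
  rw [h2] at h1
  refine h1.trans (mul_le_mul_of_nonneg_right ?_ hr.le)
  have hE : enB v x (2 * R) = ∫ y in closedBall x R, W221.NS.nsq v y := by
    unfold enB
    rw [show 2 * R / 2 = R by ring]
  have hE0 := enB_nonneg v x (2 * R)
  rw [hE] at h1 hE0 ⊢
  have h3 : √((∫ y in closedBall x R, W221.NS.nsq v y) / (2 * R))
      ≤ √((∫ y in closedBall x R, W221.NS.nsq v y) / R) := by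
    apply Real.sqrt_le_sqrt
    apply div_le_div_of_nonneg_left hE0 hR
    linarith
  have h4 : 0 ≤ √((∫ y in closedBall x R, W221.NS.nsq v y) / R) := Real.sqrt_nonneg _
  calc C / κ ^ 2 * (√((∫ y in closedBall x R, W221.NS.nsq v y) / (2 * R)) + M / 2 * (2 * R) ^ 2)
      ≤ C / κ ^ 2 * (2 * (√((∫ y in closedBall x R, W221.NS.nsq v y) / R) + M * R ^ 2)) := by
        refine mul_le_mul_of_nonneg_left ?_ (by positivity)
        nlinarith
    _ = _ := by ring

end Pool.Agent.Q85.CL
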