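import Pool.Agent.Q85.CL.Defs2
import Pool.Agent.Q85.CC.Main
import Pool.Agent.Q85.CC.Fin

/-!
Project CL: the local theorems for periodic solutions with general viscosity, near one point.
-/

set_option autoImplicit false

open MeasureTheory Set Metric Filter Topology
open scoped ContDiff
open H459R3.NS Pool.Agent.W268.NS Pool.Agent.Q67.VD
open Pool.Agent.Q199.VD

namespace Pool.Agent.Q85.CL

open Pool.Agent.Q85.CC

/-- The local half-space condition excludes a singularity at `a`. -/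
theorem half_loc (hH : StmHalfL) (hP : StmPer) {ν T : ℝ} {u : ℝ → V → V} {p : ℝ → V → ℝ}
    (hν : 0 < ν) (h : IsSol ν T u p) {T₀ κ M R : ℝ} {a : V} (hT₀ : T₀ < T) (hκ : 0 < κ)
    (hR : 0 < R)
    (hc : ∀ t ∈ Ico 0 T, T₀ < t → ∃ e : V, e ⬝ᵥ e = 1 ∧ ∀ y, ‖y - a‖ ≤ R →
      M < om (u t) y → κ * om (u t) y ≤ e ⬝ᵥ vort (u t) y) :
    ∃ B δ : ℝ, 0 < δ ∧ ∀ t ∈ Ico 0 T, T - δ < t → ∀ x, ‖x - a‖ ≤ δ → ‖u t x‖ ≤ B := by
  by_cases hT : 0 < T
  · obtain ⟨κ', hκ'd⟩ : ∃ κ', κ' = min κ 1 := ⟨_, rfl⟩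
    have hκ' : 0 < κ' := by rw [hκ'd]; exact lt_min hκ one_pos
    have hκ'1 : κ' ≤ 1 := by rw [hκ'd]; exact min_le_right _ _
    have hκ'κ : κ' ≤ κ := by rw [hκ'd]; exact min_le_left _ _
    obtain ⟨R', hR'd⟩ : ∃ R', R' = min R (1 / 4) := ⟨_, rfl⟩
    have hR' : 0 < R' := by rw [hR'd]; exact lt_min hR (by norm_num)
    have hR'4 : R' ≤ 1 / 4 := by rw [hR'd]; exact min_le_right _ _
    have hR'R : R' ≤ R := by rw [hR'd]; exact min_le_left _ _
    obtain ⟨M', hM'd⟩ : ∃ M', M' = max M 0 := ⟨_, rfl⟩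
    have hM' : 0 ≤ M' := by rw [hM'd]; exact le_max_right _ _
    have hM'M : M ≤ M' := by rw [hM'd]; exact le_max_left _ _
    have hsc := Pool.Agent.W930.MD.t_SCALE ν T u p hν hT h
    have hmem : ∀ t ∈ Ioo (ν * max T₀ 0) (ν * T), t / ν ∈ Ico 0 T ∧ T₀ < t / ν := by
      intro t ht
      have h1 : max T₀ 0 < t / ν := by
        rw [lt_div_iff₀ hν, mul_comm]
        exact ht.1
      have h2 : t / ν < T := by
        rw [div_lt_iff₀ hν, mul_comm]
        exact ht.2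
      exact ⟨⟨(le_max_right _ _).trans h1.le, h2⟩, (le_max_left _ _).trans_lt h1⟩
    obtain ⟨E, p', hL⟩ := hP (ν * T) _ _ (by positivity) hsc a
    obtain ⟨B, δ, hδ, hB⟩ := hH (ν * T) E _ _ p' (by positivity) hL (ν * max T₀ 0) κ'
      (2 * (ν⁻¹ * M')) R' a
      (mul_nonneg hν.le (le_max_right _ _))
      (mul_lt_mul_of_pos_left (max_lt hT₀ hT) hν) hκ' (by positivity) hR'
      (closedBall_subset_ball (by linarith)) (by
        intro t ht
        obtain ⟨hI, hT0t⟩ := hmem t ht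
        obtain ⟨e, he, hce⟩ := hc _ hI hT0t
        have hv : ∀ i, SP (fun y => u (t / ν) y i) := fun i => h.sp hI i
        refine ⟨e, cone_of_half hκ'1 he ?_ (by positivity)⟩
        intro y hy hMy
        rw [om_smul (inv_nonneg.2 hν.le) hv] at hMy ⊢
        rw [vort_smul ν⁻¹ hv, dotProduct_smul, smul_eq_mul]
        have hMy2 : M' < om (u (t / ν)) y := (mul_lt_mul_iff_right₀ (inv_pos.2 hν)).1 hMy
        have h1 := hce y (hy.trans hR'R) (hM'M.trans_lt hMy2)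
        have h2 : κ' * om (u (t / ν)) y ≤ e ⬝ᵥ vort (u (t / ν)) y :=
          (mul_le_mul_of_nonneg_right hκ'κ (om_nonneg _ _)).trans h1
        calc κ' * (ν⁻¹ * om (u (t / ν)) y) = ν⁻¹ * (κ' * om (u (t / ν)) y) := by ring
          _ ≤ _ := mul_le_mul_of_nonneg_left h2 (inv_nonneg.2 hν.le))
    refine ⟨ν * B, min (min δ (δ / ν)) (T / 2), by positivity, fun t ht htδ x hx => ?_⟩
    have hmin1 : min (min δ (δ / ν)) (T / 2) ≤ δ := (min_le_left _ _).trans (min_le_left _ _)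
    have hmin2 : min (min δ (δ / ν)) (T / 2) ≤ δ / ν := (min_le_left _ _).trans (min_le_right _ _)
    have hmin3 : min (min δ (δ / ν)) (T / 2) ≤ T / 2 := min_le_right _ _
    have ht0 : 0 < t := by linarith
    have h3 : T - δ / ν < t := by linarith
    have h4 : ν * T - δ < ν * t := by
      have := mul_lt_mul_of_pos_left h3 hν
      have e1 : ν * (T - δ / ν) = ν * T - δ := by field_simp
      linarith
    have h1 := hB (ν * t) ⟨h4, mul_lt_mul_of_pos_left ht.2 hν⟩ (by positivity) x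
      (by rw [mem_closedBall, dist_eq_norm]; exact hx.trans hmin1)
    have h2 : ν * t / ν = t := by field_simp
    rw [h2, norm_smul, Real.norm_eq_abs, abs_of_pos (inv_pos.2 hν)] at h1
    calc ‖u t x‖ = ν * (ν⁻¹ * ‖u t x‖) := by field_simp
      _ ≤ ν * B := mul_le_mul_of_nonneg_left h1 hν.le
  · exact ⟨0, 1, one_pos, fun t ht => absurd (ht.1.trans_lt ht.2) hT⟩

/-- The local tetrahedral angle condition. -/
theorem tetra_loc (hH : StmHalfL) (hP : StmPer) {ν T : ℝ} {u : ℝ → V → V} {p : ℝ → V → ℝ}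
    (hν : 0 < ν) (h : IsSol ν T u p) {T₀ ε M R : ℝ} {a : V} (hT₀ : T₀ < T) (hε : 0 < ε)
    (hR : 0 < R)
    (hc : ∀ t ∈ Ico 0 T, T₀ < t → ∀ x y, ‖x - a‖ ≤ R → ‖y - a‖ ≤ R → M < om (u t) x →
      M < om (u t) y →
      (ε - 1 / 3) * (om (u t) x * om (u t) y) ≤ vort (u t) x ⬝ᵥ vort (u t) y) :
    ∃ B δ : ℝ, 0 < δ ∧ ∀ t ∈ Ico 0 T, T - δ < t → ∀ x, ‖x - a‖ ≤ δ → ‖u t x‖ ≤ B := by
  obtain ⟨δ, hδd⟩ : ∃ δ, δ = min ε 1 := ⟨_, rfl⟩
  have hδ : 0 < δ := by rw [hδd]; exact lt_min hε one_pos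
  have hδ1 : δ ≤ 1 := by rw [hδd]; exact min_le_right _ _
  have hδε : δ ≤ ε := by rw [hδd]; exact min_le_left _ _
  refine half_loc hH hP hν h (T₀ := T₀) (κ := δ / 2) (M := max M 0) (R := R) hT₀ (by positivity)
    hR ?_
  intro t ht hTt
  obtain ⟨D, hD⟩ : ∃ D : Set V, D = {b | ∃ y, ‖y - a‖ ≤ R ∧ max M 0 < om (u t) y ∧
    b = (om (u t) y)⁻¹ • vort (u t) y} := ⟨_, rfl⟩
  have hpos : ∀ y, max M 0 < om (u t) y → 0 < om (u t) y := fun y hy =>
    (le_max_right _ _).trans_lt hy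
  obtain ⟨e, he, hea⟩ := tetra hδ hδ1 (D := D) (by
    rw [hD]
    rintro b ⟨y, -, hy, rfl⟩
    have h0 := hpos y hy
    rw [smul_dotProduct, dotProduct_smul, ← om_sq, smul_eq_mul, smul_eq_mul]
    field_simp) (by
    rw [hD]
    rintro b ⟨y, hy1, hy2, rfl⟩ b' ⟨z, hz1, hz2, rfl⟩
    have hy0 := hpos y hy2
    have hz0 := hpos z hz2
    rw [smul_dotProduct, dotProduct_smul, smul_eq_mul, smul_eq_mul]
    have h1 := hc t ht hTt y z hy1 hz1 ((le_max_left _ _).trans_lt hy2)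
      ((le_max_left _ _).trans_lt hz2)
    have h2 : (δ - 1 / 3) * (om (u t) y * om (u t) z) ≤ vort (u t) y ⬝ᵥ vort (u t) z :=
      (mul_le_mul_of_nonneg_right (by linarith) (by positivity)).trans h1
    calc δ - 1 / 3 = (om (u t) y)⁻¹ * ((om (u t) z)⁻¹ *
          ((δ - 1 / 3) * (om (u t) y * om (u t) z))) := by field_simp
      _ ≤ _ := mul_le_mul_of_nonneg_left (mul_le_mul_of_nonneg_left h2 (inv_nonneg.2 hz0.le))
        (inv_nonneg.2 hy0.le))
  refine ⟨e, he, fun y hy hMy => ?_⟩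
  have h0 := hpos y hMy
  have h1 := hea ((om (u t) y)⁻¹ • vort (u t) y) (by rw [hD]; exact ⟨y, hy, hMy, rfl⟩)
  rw [dotProduct_smul, smul_eq_mul] at h1
  calc δ / 2 * om (u t) y ≤ ((om (u t) y)⁻¹ * (e ⬝ᵥ vort (u t) y)) * om (u t) y :=
        mul_le_mul_of_nonneg_right h1 h0.le
    _ = e ⬝ᵥ vort (u t) y := by field_simp

/-- The local double cone condition excludes a singularity at `a`. -/
theorem dbl_loc (hH : StmDblL) (hP : StmPer) {ν T : ℝ} {u : ℝ → V → V} {p : ℝ → V → ℝ}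
    (hν : 0 < ν) (h : IsSol ν T u p) {T₀ κ R : ℝ} {a : V} (hT₀ : T₀ < T) (hκ : 0 < κ)
    (hR : 0 < R)
    (hc : ∀ t ∈ Ico 0 T, T₀ < t → ∃ e : V, e ⬝ᵥ e = 1 ∧ ∀ y, ‖y - a‖ ≤ R →
      κ * om (u t) y ≤ |e ⬝ᵥ vort (u t) y|) :
    ∃ B δ : ℝ, 0 < δ ∧ ∀ t ∈ Ico 0 T, T - δ < t → ∀ x, ‖x - a‖ ≤ δ → ‖u t x‖ ≤ B := by
  by_cases hT : 0 < T
  · obtain ⟨R', hR'd⟩ : ∃ R', R' = min R (1 / 4) := ⟨_, rfl⟩
    have hR' : 0 < R' := by rw [hR'd]; exact lt_min hR (by norm_num)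
    have hR'4 : R' ≤ 1 / 4 := by rw [hR'd]; exact min_le_right _ _
    have hR'R : R' ≤ R := by rw [hR'd]; exact min_le_left _ _
    have hsc := Pool.Agent.W930.MD.t_SCALE ν T u p hν hT h
    have hmem : ∀ t ∈ Ioo (ν * max T₀ 0) (ν * T), t / ν ∈ Ico 0 T ∧ T₀ < t / ν := by
      intro t ht
      have h1 : max T₀ 0 < t / ν := by
        rw [lt_div_iff₀ hν, mul_comm]
        exact ht.1
      have h2 : t / ν < T := by
        rw [div_lt_iff₀ hν, mul_comm]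
        exact ht.2
      exact ⟨⟨(le_max_right _ _).trans h1.le, h2⟩, (le_max_left _ _).trans_lt h1⟩
    obtain ⟨E, p', hL⟩ := hP (ν * T) _ _ (by positivity) hsc a
    obtain ⟨B, δ, hδ, hB⟩ := hH (ν * T) E _ _ p' (by positivity) hL (ν * max T₀ 0) κ
      R' a
      (mul_nonneg hν.le (le_max_right _ _))
      (mul_lt_mul_of_pos_left (max_lt hT₀ hT) hν) hκ hR'
      (closedBall_subset_ball (by linarith)) (by
        intro t ht
        obtain ⟨hI, hT0t⟩ := hmem t ht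
        obtain ⟨e, he, hce⟩ := hc _ hI hT0t
        have hv : ∀ i, SP (fun y => u (t / ν) y i) := fun i => h.sp hI i
        refine ⟨e, he, fun y hy => ?_⟩
        rw [om_smul (inv_nonneg.2 hν.le) hv, vort_smul ν⁻¹ hv, dotProduct_smul, smul_eq_mul,
          abs_mul, abs_of_pos (inv_pos.2 hν)]
        calc κ * (ν⁻¹ * om (u (t / ν)) y) = ν⁻¹ * (κ * om (u (t / ν)) y) := by ring
          _ ≤ _ := mul_le_mul_of_nonneg_left (hce y (hy.trans hR'R)) (inv_nonneg.2 hν.le))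
    refine ⟨ν * B, min (min δ (δ / ν)) (T / 2), by positivity, fun t ht htδ x hx => ?_⟩
    have hmin1 : min (min δ (δ / ν)) (T / 2) ≤ δ := (min_le_left _ _).trans (min_le_left _ _)
    have hmin2 : min (min δ (δ / ν)) (T / 2) ≤ δ / ν := (min_le_left _ _).trans (min_le_right _ _)
    have hmin3 : min (min δ (δ / ν)) (T / 2) ≤ T / 2 := min_le_right _ _
    have ht0 : 0 < t := by linarith
    have h3 : T - δ / ν < t := by linarith
    have h4 : ν * T - δ < ν * t := by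
      have := mul_lt_mul_of_pos_left h3 hν
      have e1 : ν * (T - δ / ν) = ν * T - δ := by field_simp
      linarith
    have h1 := hB (ν * t) ⟨h4, mul_lt_mul_of_pos_left ht.2 hν⟩ (by positivity) x
      (by rw [mem_closedBall, dist_eq_norm]; exact hx.trans hmin1)
    have h2 : ν * t / ν = t := by field_simp
    rw [h2, norm_smul, Real.norm_eq_abs, abs_of_pos (inv_pos.2 hν)] at h1
    calc ‖u t x‖ = ν * (ν⁻¹ * ‖u t x‖) := by field_simp
      _ ≤ ν * B := mul_le_mul_of_nonneg_left h1 hν.le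
  · exact ⟨0, 1, one_pos, fun t ht => absurd (ht.1.trans_lt ht.2) hT⟩

/-- The pair form of the local double cone condition. -/
theorem pair_loc (hH : StmDblL) (hP : StmPer) {ν T : ℝ} {u : ℝ → V → V} {p : ℝ → V → ℝ}
    (hν : 0 < ν) (h : IsSol ν T u p) {T₀ κ R : ℝ} {a : V} (hT₀ : T₀ < T) (hκ : 0 < κ)
    (hR : 0 < R)
    (hc : ∀ t ∈ Ico 0 T, T₀ < t → ∀ x y, ‖x - a‖ ≤ R → ‖y - a‖ ≤ R →
      κ * (om (u t) x * om (u t) y) ≤ |vort (u t) x ⬝ᵥ vort (u t) y|) :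
    ∃ B δ : ℝ, 0 < δ ∧ ∀ t ∈ Ico 0 T, T - δ < t → ∀ x, ‖x - a‖ ≤ δ → ‖u t x‖ ≤ B := by
  refine dbl_loc hH hP hν h (T₀ := T₀) (κ := κ) (R := R) hT₀ hκ hR ?_
  intro t ht hTt
  by_cases hy : ∃ y0, ‖y0 - a‖ ≤ R ∧ 0 < om (u t) y0
  · obtain ⟨y0, hy0, h0⟩ := hy
    refine ⟨(om (u t) y0)⁻¹ • vort (u t) y0, ?_, fun y hyR => ?_⟩
    · rw [smul_dotProduct, dotProduct_smul, ← om_sq, smul_eq_mul, smul_eq_mul]
      field_simp
    · have h2 := hc t ht hTt y0 y hy0 hyR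
      rw [smul_dotProduct, smul_eq_mul, abs_mul, abs_of_pos (inv_pos.2 h0)]
      have h3 : κ * om (u t) y = (om (u t) y0)⁻¹ * (κ * (om (u t) y0 * om (u t) y)) := by
        field_simp
      rw [h3]
      exact mul_le_mul_of_nonneg_left h2 (inv_nonneg.2 h0.le)
  · push Not at hy
    refine ⟨Pi.single 0 1, by simp, fun y hyR => ?_⟩
    have h1 : om (u t) y = 0 := le_antisymm (hy y hyR) (om_nonneg _ _)
    rw [h1, mul_zero]
    exact abs_nonneg _

end Pool.Agent.Q85.CL
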