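import Pool.Agent.Q85.CL.FinD
import Pool.Agent.Q95.CL.Far
import Pool.Agent.Q285.CL.WSc

/-!
Project CL: the whole space. If no two vorticities at small distance are nearly orthogonal, the
velocity is bounded up to the final time.
-/

set_option autoImplicit false

open MeasureTheory Set Metric Filter Topology
open scoped ContDiff
open H459R3.NS Pool.Agent.W268.NS Pool.Agent.Q67.VD

namespace Pool.Agent.Q85.CL

open Pool.Agent.Q85.CC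

/-- Bounded near infinity, general viscosity. -/
theorem far_nu (hF : StmFar) (hS : StmWSc) {ν T E : ℝ} {u : ℝ → V → V} {p : ℝ → V → ℝ}
    (hν : 0 < ν) (h : WSl ν T E u p) {T₁ : ℝ} (hT₁ : 0 < T₁) (hT₁T : T₁ < T) :
    ∃ B ρ : ℝ, ∀ t ∈ Ico T₁ T, ∀ x, ρ ≤ ‖x‖ → ‖u t x‖ ≤ B := by
  have hT : 0 < T := hT₁.trans hT₁T
  have hw := hS ν T E u p hν hT h
  obtain ⟨B, ρ, hb⟩ := hF _ _ _ _ (mul_pos hν hT) hw (ν * T₁) (by positivity)
    (mul_lt_mul_of_pos_left hT₁T hν)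
  refine ⟨ν * B, ρ, fun t ht x hx => ?_⟩
  have h1 := hb (ν * t) ⟨mul_le_mul_of_nonneg_left ht.1 hν.le,
    mul_lt_mul_of_pos_left ht.2 hν⟩ x hx
  have h2 : ν * t / ν = t := by field_simp
  simp only [h2] at h1
  rw [norm_smul, Real.norm_eq_abs, abs_of_pos (inv_pos.2 hν)] at h1
  calc ‖u t x‖ = ν * (ν⁻¹ * ‖u t x‖) := by field_simp
    _ ≤ ν * B := mul_le_mul_of_nonneg_left h1 hν.le

/-- Without a singular point the velocity is bounded on `[T₁, T) × ℝ³`. -/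
theorem whole_bdd (hF : StmFar) (hS : StmWSc) {ν T E : ℝ} {u : ℝ → V → V} {p : ℝ → V → ℝ}
    (hν : 0 < ν) (h : WSl ν T E u p) (hns : ∀ a, ¬ Sing T u a) {T₁ : ℝ} (hT₁ : 0 < T₁)
    (hT₁T : T₁ < T) : ∃ B : ℝ, ∀ t ∈ Ico T₁ T, ∀ x, ‖u t x‖ ≤ B := by
  have hnb : ¬ Blow T u := fun hB => by
    obtain ⟨a, ha⟩ := sing_whole hF hS hν h hB
    exact hns a ha
  unfold Blow at hnb
  push Not at hnb
  obtain ⟨B₀, T₂, hT₂, hb⟩ := hnb
  obtain ⟨B₁, ρ, hf⟩ := far_nu hF hS hν h hT₁ hT₁T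
  have hcomp : IsCompact (Icc T₁ (max T₂ T₁) ×ˢ closedBall (0 : V) ρ) :=
    isCompact_Icc.prod (isCompact_closedBall _ _)
  have hcont : ContinuousOn (fun z : ℝ × V => ‖u z.1 z.2‖)
      (Icc T₁ (max T₂ T₁) ×ˢ closedBall (0 : V) ρ) :=
    (h.smooth_u.continuousOn.mono (prod_mono (fun t ht => ⟨hT₁.trans_le ht.1,
      ht.2.trans_lt (max_lt hT₂ hT₁T)⟩) (subset_univ _))).norm
  obtain ⟨B₂, hc⟩ := (hcomp.image_of_continuousOn hcont).bddAbove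
  refine ⟨max B₀ (max B₁ B₂), fun t ht x => ?_⟩
  by_cases h1 : T₂ < t
  · exact (hb t ⟨hT₁.trans_le ht.1, ht.2⟩ h1 x).trans (le_max_left _ _)
  by_cases h2 : ρ ≤ ‖x‖
  · exact (hf t ht x h2).trans ((le_max_left _ _).trans (le_max_right _ _))
  · refine (hc ⟨(t, x), ⟨⟨ht.1, (not_lt.1 h1).trans (le_max_left _ _)⟩, ?_⟩, rfl⟩).trans
      ((le_max_right _ _).trans (le_max_right _ _))
    rw [mem_closedBall, dist_zero_right]
    exact (not_le.1 h2).le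

/-- No nearly orthogonal vorticities: bounded. -/
theorem whole_pairA (hF : StmFar) (hS : StmWSc) {ν T E : ℝ} {u : ℝ → V → V} {p : ℝ → V → ℝ}
    (hν : 0 < ν) (h : WSl ν T E u p) {T₀ κ R : ℝ} (hT₀ : T₀ < T) (hκ : 0 < κ) (hR : 0 < R)
    (hc : ∀ t ∈ Ioo 0 T, T₀ < t → ∀ x y, ‖x - y‖ ≤ R →
      κ * (om (u t) x * om (u t) y) ≤ |vort (u t) x ⬝ᵥ vort (u t) y|) {T₁ : ℝ} (hT₁ : 0 < T₁)
    (hT₁T : T₁ < T) : ∃ B : ℝ, ∀ t ∈ Ico T₁ T, ∀ x, ‖u t x‖ ≤ B := by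
  refine whole_bdd hF hS hν h (fun a ha => ?_) hT₁ hT₁T
  obtain ⟨t, ht, hTt, ⟨x, hx, hx0⟩, he⟩ := sing_dbl hν (whole_D h a)
    (mem_ball_self (by norm_num)) ha (R := R / 2) 0 hT₀ hκ (by positivity)
  obtain ⟨y, hy, hlt⟩ := he ((om (u t) x)⁻¹ • vort (u t) x) (by
    rw [smul_dotProduct, dotProduct_smul, ← Pool.Agent.Q199.VD.om_sq, smul_eq_mul, smul_eq_mul]
    field_simp)
  rw [smul_dotProduct, smul_eq_mul, abs_mul, abs_of_pos (inv_pos.2 hx0)] at hlt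
  have h1 := hc t ht hTt x y (by
    have e1 : x - y = (x - a) - (y - a) := by abel
    rw [e1]
    exact (norm_sub_le _ _).trans (by linarith))
  have h2 : |vort (u t) x ⬝ᵥ vort (u t) y| < κ * (om (u t) x * om (u t) y) := by
    have h3 := mul_lt_mul_of_pos_left hlt hx0
    calc |vort (u t) x ⬝ᵥ vort (u t) y|
        = om (u t) x * ((om (u t) x)⁻¹ * |vort (u t) x ⬝ᵥ vort (u t) y|) := by field_simp
      _ < om (u t) x * (κ * om (u t) y) := h3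
      _ = _ := by ring
  linarith

/-- Lagrange's identity. -/
lemma lagrange (a b : V) : len (crossProduct a b) ^ 2 + (a ⬝ᵥ b) ^ 2 = (len a * len b) ^ 2 := by
  rw [mul_pow, len_sq', len_sq', len_sq', cross_dot_cross, dotProduct_comm b a]
  ring

lemma dot_of_cross {a b : V} (h : len (crossProduct a b) ≤ 1 / 2 * (len a * len b)) :
    1 / 2 * (len a * len b) ≤ |a ⬝ᵥ b| := by
  have h1 := lagrange a b
  have h0 : 0 ≤ len a * len b := mul_nonneg (len_nn _) (len_nn _)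
  have h2 : len (crossProduct a b) ^ 2 ≤ (1 / 2 * (len a * len b)) ^ 2 :=
    pow_le_pow_left₀ (len_nn _) h 2
  have h3 : (1 / 2 * (len a * len b)) ^ 2 ≤ |a ⬝ᵥ b| ^ 2 := by
    rw [sq_abs]
    nlinarith [sq_nonneg (len a * len b)]
  exact (pow_le_pow_iff_left₀ (by positivity) (abs_nonneg _) two_ne_zero).1 h3

/-- Hölder continuous direction of the vorticity (without orientation), any exponent. -/
theorem whole_hoelderA (hF : StmFar) (hS : StmWSc) {ν T E : ℝ} {u : ℝ → V → V} {p : ℝ → V → ℝ}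
    (hν : 0 < ν) (h : WSl ν T E u p) {T₀ β c : ℝ} (hT₀ : T₀ < T) (hβ : 0 < β)
    (hc : ∀ t ∈ Ioo 0 T, T₀ < t → ∀ x y,
      len (crossProduct (vort (u t) x) (vort (u t) y)) ≤ c * ‖x - y‖ ^ β * (om (u t) x * om (u t) y))
    {T₁ : ℝ} (hT₁ : 0 < T₁) (hT₁T : T₁ < T) : ∃ B : ℝ, ∀ t ∈ Ico T₁ T, ∀ x, ‖u t x‖ ≤ B := by
  obtain ⟨c', hc'd⟩ : ∃ c', c' = |c| + 1 := ⟨_, rfl⟩
  have hc' : 0 < c' := by rw [hc'd]; positivity
  have hcc : c ≤ c' := by rw [hc'd]; linarith [le_abs_self c]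
  obtain ⟨R, hRd⟩ : ∃ R, R = (1 / (2 * c')) ^ (1 / β) := ⟨_, rfl⟩
  have hR : 0 < R := by rw [hRd]; positivity
  have hRβ : R ^ β = 1 / (2 * c') := by
    rw [hRd, ← Real.rpow_mul (by positivity), one_div_mul_cancel hβ.ne', Real.rpow_one]
  refine whole_pairA hF hS hν h (κ := 1 / 2) (R := R) hT₀ (by norm_num) hR
    (fun t ht hTt x y hxy => dot_of_cross ?_) hT₁ hT₁T
  refine (hc t ht hTt x y).trans ?_
  have h0 : 0 ≤ om (u t) x * om (u t) y := mul_nonneg (om_nnL _ _) (om_nnL _ _)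
  refine mul_le_mul_of_nonneg_right ?_ h0
  have h1 : ‖x - y‖ ^ β ≤ R ^ β := Real.rpow_le_rpow (norm_nonneg _) hxy hβ.le
  have h2 : 0 ≤ ‖x - y‖ ^ β := by positivity
  calc c * ‖x - y‖ ^ β ≤ c' * ‖x - y‖ ^ β := mul_le_mul_of_nonneg_right hcc h2
    _ ≤ c' * R ^ β := mul_le_mul_of_nonneg_left h1 hc'.le
    _ = 1 / 2 := by rw [hRβ]; field_simp

/-- If no two vorticities at small distance are nearly orthogonal the velocity is bounded. -/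
theorem whole_pair {ν T E : ℝ} {u : ℝ → V → V} {p : ℝ → V → ℝ}
    (hν : 0 < ν) (h : WSl ν T E u p) {T₀ κ R : ℝ} (hT₀ : T₀ < T) (hκ : 0 < κ) (hR : 0 < R)
    (hc : ∀ t ∈ Ioo 0 T, T₀ < t → ∀ x y, ‖x - y‖ ≤ R →
      κ * (om (u t) x * om (u t) y) ≤ |vort (u t) x ⬝ᵥ vort (u t) y|) {T₁ : ℝ} (hT₁ : 0 < T₁)
    (hT₁T : T₁ < T) : ∃ B : ℝ, ∀ t ∈ Ico T₁ T, ∀ x, ‖u t x‖ ≤ B :=
  whole_pairA Pool.Agent.Q95.CL.far Pool.Agent.Q285.CL.wsc hν h hT₀ hκ hR hc hT₁ hT₁T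

/-- If the direction of the vorticity (without orientation) is Hölder continuous with any exponent
the velocity is bounded. -/
theorem whole_hoelder {ν T E : ℝ} {u : ℝ → V → V} {p : ℝ → V → ℝ}
    (hν : 0 < ν) (h : WSl ν T E u p) {T₀ β c : ℝ} (hT₀ : T₀ < T) (hβ : 0 < β)
    (hc : ∀ t ∈ Ioo 0 T, T₀ < t → ∀ x y,
      len (crossProduct (vort (u t) x) (vort (u t) y)) ≤ c * ‖x - y‖ ^ β * (om (u t) x * om (u t) y))
    {T₁ : ℝ} (hT₁ : 0 < T₁) (hT₁T : T₁ < T) : ∃ B : ℝ, ∀ t ∈ Ico T₁ T, ∀ x, ‖u t x‖ ≤ B :=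
  whole_hoelderA Pool.Agent.Q95.CL.far Pool.Agent.Q285.CL.wsc hν h hT₀ hβ hc hT₁ hT₁T

end Pool.Agent.Q85.CL
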